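import Mathlib

namespace LU

universe u

section

variable {k K : Type u} [Field k] [Field K] [Algebra k K] (p : ℕ) [Fact p.Prime] [CharP K p]
  {n r : ℕ}

/-- the prime field in `K` -/
noncomputable def zK : ZMod p →+* K := ZMod.castHom (dvd_refl p) K

lemma zK_pow (c : ZMod p) : (zK p c : K) ^ p = zK p c := by
  rw [← map_pow, ZMod.pow_card]

/-- `y` solves the Artin-Schreier equation with coefficient vector `a` -/
def Sol (G : Fin n → K) (y : K) (a : Fin n → ZMod p) : Prop :=
  y ^ p - y = ∑ i, zK p (a i) * G i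

variable {p}

lemma Sol.add {G : Fin n → K} {y z : K} {a b : Fin n → ZMod p} (hy : Sol p G y a)
    (hz : Sol p G z b) : Sol p G (y + z) (a + b) := by
  have : ExpChar K p := ExpChar.prime Fact.out
  unfold Sol at *
  rw [add_pow_expChar]
  simp only [Pi.add_apply, map_add, add_mul, Finset.sum_add_distrib]
  rw [← hy, ← hz]
  ring

lemma Sol.smul {G : Fin n → K} {y : K} {a : Fin n → ZMod p} (hy : Sol p G y a)
    (c : ZMod p) : Sol p G (zK p c * y) (c • a) := by
  unfold Sol at *
  rw [mul_pow, zK_pow, ← mul_sub, hy, Finset.mul_sum]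
  refine Finset.sum_congr rfl fun i _ => ?_
  rw [Pi.smul_apply, smul_eq_mul, map_mul, mul_assoc]

/-- State of the elimination. -/
structure EchSt (k : Type u) [Field k] [Algebra k K] (B : Set K) (G : Fin n → K)
    (P S : Finset (Fin n)) (le : Fin n → Fin n → Prop)
    (y : Fin r → K) (A : Fin r → Fin n → ZMod p) (W : Finset (Fin r)) (π : Fin r → Fin n) :
    Prop where
  sol : ∀ j, Sol p G (y j) (A j)
  gen : IntermediateField.adjoin k (B ∪ Set.range y) = ⊤
  piv : ∀ j ∈ W, π j ∈ S ∧ A j (π j) ≠ 0 ∧ (∀ l, l ≠ j → A l (π j) = 0) ∧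
    ∀ i ∈ P, A j i ≠ 0 → le i (π j)
  zer : ∀ j ∉ W, ∀ i ∈ S, A j i = 0
  sub : S ⊆ P
  up : ∀ i ∈ S, ∀ i' ∈ P, i' ∉ S → le i' i

theorem ech (B : Set K) (G : Fin n → K) (P : Finset (Fin n)) (le : Fin n → Fin n → Prop)
    (hmax : ∀ T : Finset (Fin n), T ⊆ P → T.Nonempty → ∃ i ∈ T, ∀ i' ∈ T, le i' i)
    (m : ℕ) : ∀ (S : Finset (Fin n)) (y : Fin r → K) (A : Fin r → Fin n → ZMod p)
      (W : Finset (Fin r)) (π : Fin r → Fin n), (P \ S).card = m →
      EchSt k B G P S le y A W π →
      ∃ (y' : Fin r → K) (A' : Fin r → Fin n → ZMod p) (W' : Finset (Fin r))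
        (π' : Fin r → Fin n), EchSt k B G P P le y' A' W' π' := by
  induction m with
  | zero =>
    intro S y A W π hm h
    rw [Finset.card_eq_zero, Finset.sdiff_eq_empty_iff_subset] at hm
    have : S = P := Finset.Subset.antisymm h.sub hm
    subst this
    exact ⟨y, A, W, π, h⟩
  | succ m ih =>
    intro S y A W π hm h
    have hne : (P \ S).Nonempty := by
      rw [← Finset.card_pos]; omega
    obtain ⟨i, hi, himax⟩ := hmax (P \ S) Finset.sdiff_subset hne
    rw [Finset.mem_sdiff] at hi
    have hcard : (P \ insert i S).card = m := by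
      have : P \ insert i S = (P \ S).erase i := by
        ext x
        simp only [Finset.mem_sdiff, Finset.mem_insert, Finset.mem_erase]
        tauto
      rw [this, Finset.card_erase_of_mem (Finset.mem_sdiff.2 hi)]
      omega
    have hsub : insert i S ⊆ P := Finset.insert_subset hi.1 h.sub
    have hup : ∀ i1 ∈ insert i S, ∀ i' ∈ P, i' ∉ insert i S → le i' i1 := by
      intro i1 hi1 i' hi' hni
      rw [Finset.mem_insert, not_or] at hni
      rcases Finset.mem_insert.1 hi1 with rfl | hi1
      · exact himax i' (Finset.mem_sdiff.2 ⟨hi', hni.2⟩)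
      · exact h.up i1 hi1 i' hi' hni.2
    by_cases hrow : ∃ j0, j0 ∉ W ∧ A j0 i ≠ 0
    · obtain ⟨j0, hj0, hA0⟩ := hrow
      -- clear the column `i` with row `j0`
      let c : Fin r → ZMod p := fun l => if l = j0 then 0 else -(A l i * (A j0 i)⁻¹)
      let y' : Fin r → K := fun l => y l + zK p (c l) * y j0
      let A' : Fin r → Fin n → ZMod p := fun l => A l + c l • A j0
      have hA'j0 : A' j0 = A j0 := by
        simp [A', c]
      have hy'j0 : y' j0 = y j0 := by
        simp [y', c]
      have hA'i : ∀ l, l ≠ j0 → A' l i = 0 := by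
        intro l hl
        simp only [A', c, if_neg hl, Pi.add_apply, Pi.smul_apply, smul_eq_mul]
        field_simp
        ring
      have hA'S : ∀ l, ∀ i1, A j0 i1 = 0 → A' l i1 = A l i1 := by
        intro l i1 h1
        simp [A', h1]
      refine ih (insert i S) y' A' (insert j0 W) (fun j => if j = j0 then i else π j) hcard
        ⟨?_, ?_, ?_, ?_, hsub, hup⟩
      · intro j
        exact (h.sol j).add ((h.sol j0).smul (c j))
      · rw [eq_top_iff, ← h.gen, IntermediateField.adjoin_le_iff]
        rintro x (hx | ⟨l, rfl⟩)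
        · exact IntermediateField.subset_adjoin _ _ (Or.inl hx)
        · have m0 : y j0 ∈ IntermediateField.adjoin k (B ∪ Set.range y') :=
            IntermediateField.subset_adjoin _ _ (Or.inr ⟨j0, hy'j0⟩)
          have ml : y' l ∈ IntermediateField.adjoin k (B ∪ Set.range y') :=
            IntermediateField.subset_adjoin _ _ (Or.inr ⟨l, rfl⟩)
          have mz : (zK p (c l) : K) ∈ IntermediateField.adjoin k (B ∪ Set.range y') := by
            have : (zK p (c l) : K) = (((c l).val : ℕ) : K) := by
              rw [zK, ZMod.castHom_apply, ZMod.natCast_val]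
            rw [this]
            exact natCast_mem _ _
          have : y l = y' l - zK p (c l) * y j0 := by simp [y']
          rw [this]
          exact sub_mem ml (mul_mem mz m0)
      · intro j hj
        have hA0S : ∀ i1 ∈ S, A j0 i1 = 0 := h.zer j0 hj0
        by_cases hjj : j = j0
        · subst hjj
          rw [if_pos rfl, hA'j0]
          refine ⟨Finset.mem_insert_self _ _, hA0, hA'i, ?_⟩
          intro i1 hi1 hne1
          by_cases hi1S : i1 ∈ S
          · exact absurd (hA0S i1 hi1S) hne1
          · exact himax i1 (Finset.mem_sdiff.2 ⟨hi1, hi1S⟩)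
        · have hjW : j ∈ W := (Finset.mem_insert.1 hj).resolve_left hjj
          obtain ⟨q1, q2, q3, q4⟩ := h.piv j hjW
          rw [if_neg hjj]
          have h0 := hA0S _ q1
          refine ⟨Finset.mem_insert_of_mem q1, ?_, ?_, ?_⟩
          · rw [hA'S j _ h0]; exact q2
          · intro l hl
            rw [hA'S l _ h0]; exact q3 l hl
          · intro i1 hi1 hne1
            by_cases hz : A j0 i1 = 0
            · rw [hA'S j _ hz] at hne1
              exact q4 i1 hi1 hne1
            · have hi1S : i1 ∉ S := fun hs => hz (hA0S i1 hs)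
              exact h.up _ q1 i1 hi1 hi1S
      · intro j hj i1 hi1
        rw [Finset.mem_insert, not_or] at hj
        rcases Finset.mem_insert.1 hi1 with rfl | hi1
        · exact hA'i j hj.1
        · rw [hA'S j i1 (h.zer j0 hj0 i1 hi1)]
          exact h.zer j hj.2 i1 hi1
    · push Not at hrow
      refine ih (insert i S) y A W π hcard ⟨h.sol, h.gen, ?_, ?_, hsub, hup⟩
      · intro j hj
        obtain ⟨q1, q2, q3, q4⟩ := h.piv j hj
        exact ⟨Finset.mem_insert_of_mem q1, q2, q3, q4⟩
      · intro j hj i1 hi1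
        rcases Finset.mem_insert.1 hi1 with rfl | hi1
        · exact hrow j hj
        · exact h.zer j hj i1 hi1

end

end LU
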