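import Pool.Agent.helper90.LU.Germ

namespace LU

universe u

open MvPolynomial

section

variable {k F : Type u} [Field k] [Field F] [Algebra k F] {O : ValuationSubring F}
  {u w : F} {Φ : MvPolynomial (Fin 2) k}

/-- normal form of an Artin-Schreier class at a germ -/
def HasNF (O : ValuationSubring F) (u w : F) (p : ℕ) (k : Type u) [Field k] [Algebra k F]
    (g : F) : Prop :=
  ∃ (h : F) (e : ℕ) (N D : MvPolynomial (Fin 2) k),
    aeval ![u, w] D ≠ 0 ∧ (aeval ![u, w] D)⁻¹ ∈ O ∧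
    (e ≠ 0 → u⁻¹ ∉ O ∧ aeval ![u, w] N ≠ 0 ∧ (aeval ![u, w] N)⁻¹ ∈ O ∧ (e : k) ≠ 0) ∧
    g - (h ^ p - h) = aeval ![u, w] N / aeval ![u, w] D * (u ^ e)⁻¹

lemma IsGerm.aeval_mem (hG : IsGerm O u w Φ) (hO : ∀ c : k, algebraMap k F c ∈ O)
    (q : MvPolynomial (Fin 2) k) : aeval ![u, w] q ∈ O := by
  induction q using MvPolynomial.induction_on with
  | C c => rw [MvPolynomial.aeval_C]; exact hO c
  | add p q hp hq => rw [map_add]; exact add_mem hp hq
  | mul_X p i hp =>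
    rw [map_mul, MvPolynomial.aeval_X]
    refine mul_mem hp ?_
    fin_cases i
    · exact hG.huO
    · exact hG.hwO

lemma pow_not_mem {O : ValuationSubring F} {u : F} (h : u⁻¹ ∉ O) {m : ℕ} (hm : m ≠ 0) :
    (u ^ m)⁻¹ ∉ O := by
  intro h1
  apply h
  have hu : u ∈ O := (O.mem_or_inv_mem u).resolve_right h
  by_cases hu0 : u = 0
  · rw [hu0]; simp
  have : u⁻¹ = (u ^ m)⁻¹ * u ^ (m - 1) := by
    obtain ⟨m, rfl⟩ : ∃ q, m = q + 1 := ⟨m - 1, by omega⟩
    rw [Nat.add_sub_cancel, pow_succ]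
    field_simp
  rw [this]
  exact mul_mem h1 (pow_mem hu _)

/-- elements of `O` have nonnegative order -/
lemma order_nonneg {O : ValuationSubring F} {u x : F} (h : u⁻¹ ∉ O) {m : ℤ}
    (hx0 : x ≠ 0) (hx : x⁻¹ ∈ O) (hm : u ^ m * x ∈ O) : 0 ≤ m := by
  by_contra hneg
  push Not at hneg
  have h1 : u ^ m ∈ O := by
    have : u ^ m = (u ^ m * x) * x⁻¹ := by field_simp
    rw [this]
    exact mul_mem hm hx
  obtain ⟨n, hn⟩ : ∃ n : ℕ, m = -(n : ℤ) := ⟨m.natAbs, by omega⟩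
  rw [hn, zpow_neg, zpow_natCast] at h1
  exact pow_not_mem h (by omega) h1

/-- nonunits of `O` have positive order -/
lemma div_mem_of_nonunit (hG : IsGerm O u w Φ) (hO : ∀ c : k, algebraMap k F c ∈ O)
    (hne : O ≠ ⊤) {x : F} (hx : x ∈ O) (hx' : x = 0 ∨ x⁻¹ ∉ O) : x * u⁻¹ ∈ O := by
  rcases eq_or_ne x 0 with rfl | hx0
  · rw [zero_mul]; exact zero_mem _
  have hx' := hx'.resolve_left hx0
  obtain ⟨m, N, D, hN0, hNO, hD0, hDO, hxe⟩ := hG.fac hne x hx0
  have hu := hG.nontriv hne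
  have hunit : (aeval ![u, w] N / aeval ![u, w] D)⁻¹ ∈ O := by
    rw [inv_div, div_eq_mul_inv]
    exact mul_mem (hG.aeval_mem hO D) hNO
  have hunit' : (aeval ![u, w] N / aeval ![u, w] D) ∈ O := by
    rw [div_eq_mul_inv]
    exact mul_mem (hG.aeval_mem hO N) hDO
  have hm : 0 ≤ m := order_nonneg hu (div_ne_zero hN0 hD0) hunit (by rw [← hxe]; exact hx)
  have hm1 : m ≠ 0 := by
    rintro rfl
    apply hx'
    rw [hxe, zpow_zero, one_mul]
    exact hunit
  obtain ⟨q, hq⟩ : ∃ q : ℕ, m = q + 1 := ⟨(m - 1).toNat, by omega⟩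
  have : x * u⁻¹ = u ^ q * (aeval ![u, w] N / aeval ![u, w] D) := by
    rw [hxe, hq, zpow_add₀ hG.hu0, zpow_one, zpow_natCast]
    field_simp [hG.hu0]
  rw [this]
  exact mul_mem (pow_mem hG.huO _) hunit'

variable (p : ℕ) [Fact p.Prime] [CharP k p]

lemma nf_aux (hG : IsGerm O u w Φ) (hO : ∀ c : k, algebraMap k F c ∈ O) (hne : O ≠ ⊤)
    (hroot : ∀ x ∈ O, ∃ c ∈ O, x - c ^ p = 0 ∨ (x - c ^ p)⁻¹ ∉ O) (E : ℕ) : ∀ g : F, g * u ^ E ∈ O → HasNF O u w p k g := by
  have hp : 2 ≤ p := (Fact.out : p.Prime).two_le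
  have : CharP F p := charP_of_injective_algebraMap (algebraMap k F).injective p
  have : ExpChar F p := expChar_of_injective_algebraMap (algebraMap k F).injective p
  have hu := hG.nontriv hne
  induction E using Nat.strong_induction_on with
  | _ E ih =>
  intro g hg
  rcases eq_or_ne g 0 with rfl | hg0
  · refine ⟨0, 0, 0, 1, by simp, by simp, by simp, ?_⟩
    rw [zero_pow (by omega)]
    simp
  obtain ⟨m, N, D, hN0, hNO, hD0, hDO, hge⟩ := hG.fac hne g hg0
  by_cases hm : 0 ≤ m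
  · obtain ⟨q, rfl⟩ : ∃ q : ℕ, m = q := ⟨m.toNat, by omega⟩
    refine ⟨0, 0, X 0 ^ q * N, D, hD0, hDO, by simp, ?_⟩
    rw [zero_pow (by omega), hge]
    simp
    ring
  obtain ⟨e, rfl⟩ : ∃ e : ℕ, m = -(e : ℤ) := ⟨m.natAbs, by omega⟩
  have he : e ≠ 0 := by rintro rfl; exact hm (by simp)
  have hge' : g = (aeval ![u, w] N / aeval ![u, w] D) * (u ^ e)⁻¹ := by
    rw [hge, zpow_neg, zpow_natCast, mul_comm]
  by_cases hpe : (e : k) ≠ 0
  · refine ⟨0, e, N, D, hD0, hDO, fun _ => ⟨hu, hN0, hNO, hpe⟩, ?_⟩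
    rw [zero_pow (by omega), ← hge']
    ring
  push Not at hpe
  rw [CharP.cast_eq_zero_iff k p] at hpe
  obtain ⟨e', rfl⟩ := hpe
  have he' : e' ≠ 0 := by rintro rfl; simp at he
  set U := aeval ![u, w] N / aeval ![u, w] D with hU
  have hunit' : U ∈ O := by
    rw [hU, div_eq_mul_inv]
    exact mul_mem (hG.aeval_mem hO N) hDO
  have hunit : U⁻¹ ∈ O := by
    rw [hU, inv_div, div_eq_mul_inv]
    exact mul_mem (hG.aeval_mem hO D) hNO
  obtain ⟨c', hc'O, hc⟩ := hroot U hunit'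
  set h := c' * (u ^ e')⁻¹ with hh
  have heE : p * e' ≤ E := by
    have h1 : u ^ ((E : ℤ) - ((p * e' : ℕ) : ℤ)) * U ∈ O := by
      have : u ^ ((E : ℤ) - ((p * e' : ℕ) : ℤ)) * U = g * u ^ E := by
        rw [zpow_sub₀ hG.hu0, zpow_natCast, zpow_natCast, hge']
        field_simp
      rw [this]
      exact hg
    have := order_nonneg hu (div_ne_zero hN0 hD0) hunit h1
    omega
  have hlt : e' < p * e' := by nlinarith [Nat.pos_of_ne_zero he']
  have hg' : (g - (h ^ p - h)) * u ^ (p * e' - 1) ∈ O := by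
    have hx : (U - c' ^ p) * u⁻¹ ∈ O := by
      refine div_mem_of_nonunit hG hO hne (sub_mem hunit' (pow_mem hc'O _)) ?_
      exact hc
    have hu0 := hG.hu0
    have e1 : (g - (h ^ p - h)) * u ^ (p * e' - 1) =
        (U - c' ^ p) * u⁻¹ + c' * u ^ (p * e' - 1 - e') := by
      have e2 : u ^ (p * e') = u ^ (p * e' - 1) * u := by
        rw [← pow_succ]; congr 1; omega
      have e3 : u ^ (p * e' - 1) = u ^ (p * e' - 1 - e') * u ^ e' := by
        rw [← pow_add]; congr 1; omega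
      have e4 : h ^ p = c' ^ p * (u ^ (p * e'))⁻¹ := by
        rw [hh, mul_pow, inv_pow, ← pow_mul, mul_comm e' p]
      have e5 : (u ^ (p * e'))⁻¹ * u ^ (p * e' - 1) = u⁻¹ := by
        rw [e2]; field_simp
      have e6 : (u ^ e')⁻¹ * u ^ (p * e' - 1) = u ^ (p * e' - 1 - e') := by
        rw [e3]; field_simp
      rw [hge', e4]
      calc (U * (u ^ (p * e'))⁻¹ - (c' ^ p * (u ^ (p * e'))⁻¹ - h)) *
          u ^ (p * e' - 1) = (U - c' ^ p) * ((u ^ (p * e'))⁻¹ *
            u ^ (p * e' - 1)) + h * u ^ (p * e' - 1) := by ring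
        _ = _ := by rw [e5, hh, mul_assoc, e6]
    rw [e1]
    exact add_mem hx (mul_mem hc'O (pow_mem hG.huO _))
  obtain ⟨h', e1, N1, D1, q1, q2, q3, q4⟩ := ih (p * e' - 1) (by omega) _ hg'
  refine ⟨h + h', e1, N1, D1, q1, q2, q3, ?_⟩
  rw [← q4, add_pow_expChar]
  ring

/-- `p`-th roots modulo the maximal ideal -/
def HasRoots (O : ValuationSubring F) (p : ℕ) : Prop :=
  ∀ x ∈ O, ∃ c ∈ O, x - c ^ p = 0 ∨ (x - c ^ p)⁻¹ ∉ O

omit [Field k] [Algebra k F] [CharP k p] in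
lemma hasRoots_of_perfect [CharP (IsLocalRing.ResidueField O) p]
    (h : PerfectField (IsLocalRing.ResidueField O)) : HasRoots O p := by
  intro x hx
  have : ExpChar (IsLocalRing.ResidueField O) p := ExpChar.prime Fact.out
  have : PerfectRing (IsLocalRing.ResidueField O) p := PerfectField.toPerfectRing p
  obtain ⟨c, hc⟩ := (PerfectRing.bijective_frobenius (R := IsLocalRing.ResidueField O) (p := p)).2
    (IsLocalRing.residue O ⟨x, hx⟩)
  obtain ⟨c', rfl⟩ := IsLocalRing.residue_surjective c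
  refine ⟨c', c'.2, ?_⟩
  change IsLocalRing.residue O c' ^ p = _ at hc
  rw [← map_pow] at hc
  have h1 : IsLocalRing.residue O (⟨x, hx⟩ - c' ^ p) = 0 := by
    rw [map_sub, hc, sub_self]
  rw [IsLocalRing.residue_eq_zero_iff, IsLocalRing.mem_maximalIdeal, mem_nonunits_iff] at h1
  by_cases h0 : x - (c' : F) ^ p = 0
  · exact Or.inl h0
  · right
    intro h2
    apply h1
    exact IsUnit.of_mul_eq_one ⟨_, h2⟩ (Subtype.ext (mul_inv_cancel₀ h0))

theorem IsGerm.nf (hG : IsGerm O u w Φ) (hO : ∀ c : k, algebraMap k F c ∈ O)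
    (hroot : O ≠ ⊤ → HasRoots O p) (g : F) :
    HasNF O u w p k g := by
  have hp : 2 ≤ p := (Fact.out : p.Prime).two_le
  by_cases hne : O = ⊤
  · have hg : g ∈ IntermediateField.adjoin k {u, w} := by rw [hG.gen]; trivial
    obtain ⟨a, ha, b, hb, rfl⟩ := IntermediateField.mem_adjoin_iff_div.1 hg
    have hr : ({u, w} : Set F) = Set.range ![u, w] := by
      ext x
      simp [eq_comm, or_comm]
    rw [hr, Algebra.adjoin_range_eq_range_aeval] at ha hb
    obtain ⟨N, rfl⟩ := ha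
    obtain ⟨D, rfl⟩ := hb
    by_cases hD : aeval ![u, w] D = 0
    · refine ⟨0, 0, 0, 1, by simp, by simp, by simp, ?_⟩
      rw [zero_pow (by omega)]
      simp [hD]
    · refine ⟨0, 0, N, D, hD, ?_, by simp, ?_⟩
      · rw [hne]; trivial
      · rw [zero_pow (by omega)]
        simp
  · rcases eq_or_ne g 0 with rfl | hg0
    · exact nf_aux p hG hO hne (hroot hne) 0 0 (by simp)
    · obtain ⟨m, N, D, hN0, hNO, hD0, hDO, hge⟩ := hG.fac hne g hg0
      refine nf_aux p hG hO hne (hroot hne) m.natAbs g ?_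
      have : g * u ^ m.natAbs = u ^ (m + m.natAbs).toNat * (aeval ![u, w] N / aeval ![u, w] D) := by
        rw [← zpow_natCast u (m + m.natAbs).toNat, Int.toNat_of_nonneg (by omega),
          zpow_add₀ hG.hu0, zpow_natCast, hge]
        ring
      rw [this, div_eq_mul_inv]
      exact mul_mem (pow_mem hG.huO _) (mul_mem (hG.aeval_mem hO N) hDO)

end

end LU
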