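import Pool.Agent.helper90.LU.Germ

namespace LU

universe u

open Polynomial

/-- Residues algebraic over `k` -/
def ResAlg (k : Type u) {F : Type u} [Field k] [Field F] [Algebra k F] (O : ValuationSubring F) :
    Prop :=
  ∀ g ∈ O, ∃ f : k[X], f ≠ 0 ∧ (aeval g f = 0 ∨ (aeval g f)⁻¹ ∉ O)

section

variable {k F : Type u} [Field k] [Field F] [Algebra k F] {O : ValuationSubring F}
  (hO : ∀ c : k, algebraMap k F c ∈ O)

/-- `k → O` -/
def kO : k →+* O := (algebraMap k F).codRestrict O.toSubring hO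

lemma residue_zero_iff (x : O) : IsLocalRing.residue O x = 0 ↔ ((x : F) = 0 ∨ (x : F)⁻¹ ∉ O) := by
  rw [IsLocalRing.residue_eq_zero_iff, IsLocalRing.mem_maximalIdeal, mem_nonunits_iff]
  constructor
  · intro h
    by_cases h0 : (x : F) = 0
    · exact Or.inl h0
    · right
      intro h1
      exact h (IsUnit.of_mul_eq_one ⟨_, h1⟩ (Subtype.ext (mul_inv_cancel₀ h0)))
  · rintro h hu
    obtain ⟨y, hy⟩ := hu.exists_right_inv
    have h1 : (x : F) * (y : F) = 1 := congrArg Subtype.val hy
    rcases h with h | h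
    · rw [h, zero_mul] at h1
      exact zero_ne_one h1
    · rw [← eq_inv_of_mul_eq_one_right h1] at h
      exact h y.2

lemma eval_kO (g : O) (f : k[X]) : ((eval₂ (kO hO) g f : O) : F) = aeval (g : F) f := by
  have := Polynomial.hom_eval₂ f (kO hO) O.subtype g
  exact this

lemma algebraic_residue (h : ResAlg k O) (g : O) :
    ∃ f : k[X], f ≠ 0 ∧ eval₂ ((IsLocalRing.residue O).comp (kO hO)) (IsLocalRing.residue O g) f
      = 0 := by
  obtain ⟨f, hf0, hf⟩ := h g g.2
  refine ⟨f, hf0, ?_⟩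
  rw [← Polynomial.hom_eval₂, residue_zero_iff, eval_kO]
  exact hf

include hO in
theorem perfect_residue [PerfectField k] (h : ResAlg k O) :
    PerfectField (IsLocalRing.ResidueField O) := by
  let _ : Algebra k (IsLocalRing.ResidueField O) :=
    ((IsLocalRing.residue O).comp (kO hO)).toAlgebra
  have : Algebra.IsAlgebraic k (IsLocalRing.ResidueField O) := by
    refine ⟨fun x => ?_⟩
    obtain ⟨g, rfl⟩ := IsLocalRing.residue_surjective x
    obtain ⟨f, hf0, hf⟩ := algebraic_residue hO h g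
    exact ⟨f, hf0, hf⟩
  exact Algebra.IsAlgebraic.perfectField (K := k)

include hO in
/-- separable relation for residues -/
theorem sep_relation [PerfectField k] (h : ResAlg k O) (g : F) (hg : g ∈ O) :
    ∃ f : k[X], (aeval g f = 0 ∨ (aeval g f)⁻¹ ∉ O) ∧
      aeval g (derivative f) ≠ 0 ∧ (aeval g (derivative f))⁻¹ ∈ O := by
  let _ : Algebra k (IsLocalRing.ResidueField O) :=
    ((IsLocalRing.residue O).comp (kO hO)).toAlgebra
  obtain ⟨f0, hf00, hf0⟩ := algebraic_residue hO h ⟨g, hg⟩
  have hint : IsIntegral k (IsLocalRing.residue O ⟨g, hg⟩) :=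
    isAlgebraic_iff_isIntegral.1 ⟨f0, hf00, hf0⟩
  set f := minpoly k (IsLocalRing.residue O ⟨g, hg⟩) with hf
  have hsep : f.Separable := PerfectField.separable_of_irreducible (minpoly.irreducible hint)
  have h1 : eval₂ ((IsLocalRing.residue O).comp (kO hO)) (IsLocalRing.residue O ⟨g, hg⟩) f = 0 :=
    minpoly.aeval k _
  have h2 : eval₂ ((IsLocalRing.residue O).comp (kO hO)) (IsLocalRing.residue O ⟨g, hg⟩)
      (derivative f) ≠ 0 := by
    obtain ⟨a, b, hab⟩ := hsep
    intro h3
    have h4 := congrArg (eval₂ ((IsLocalRing.residue O).comp (kO hO))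
      (IsLocalRing.residue O ⟨g, hg⟩)) hab
    rw [eval₂_add, eval₂_mul, eval₂_mul, h1, h3, mul_zero, mul_zero, add_zero, eval₂_one] at h4
    exact zero_ne_one h4
  refine ⟨f, ?_, ?_⟩
  · rw [← Polynomial.hom_eval₂, residue_zero_iff, eval_kO] at h1
    exact h1
  · rw [← Polynomial.hom_eval₂, Ne, residue_zero_iff, eval_kO] at h2
    push Not at h2
    exact h2

end

end LU
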