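import Pool.Agent.helper90.LU.Mono

open IsLocalRing

namespace LU

universe u

section prelim

variable {k K : Type u} [Field k] [Field K] [Algebra k K] (V : ValuationSubring K)

lemma isUnit_iff_inv (x : V) : IsUnit x ↔ (x : K) ≠ 0 ∧ (x : K)⁻¹ ∈ V := by
  constructor
  · intro h
    obtain ⟨y, hy⟩ := h.exists_right_inv
    have hy' : (x : K) * y = 1 := congrArg (fun v : V => (v : K)) hy
    have h0 : (x : K) ≠ 0 := left_ne_zero_of_mul_eq_one hy'
    refine ⟨h0, ?_⟩
    rw [← eq_inv_of_mul_eq_one_right hy']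
    exact y.2
  · rintro ⟨h0, h1⟩
    exact IsUnit.of_mul_eq_one ⟨_, h1⟩ (Subtype.ext (mul_inv_cancel₀ h0))

variable {V}

/-- size of an Artin-Schreier root -/
lemma as_bound {X t f : K} {p : ℕ} (hp : 2 ≤ p) (hX : X ∈ V) (ht : t ^ p - t = f)
    (hXf : X * f ∈ V) : X * t ^ p ∈ V ∧ X * t ∈ V := by
  by_cases htV : t ∈ V
  · exact ⟨mul_mem hX (pow_mem htV _), mul_mem hX htV⟩
  have ht0 : t ≠ 0 := by
    rintro rfl
    exact htV (zero_mem _)
  have hy : t⁻¹ ∈ V := (V.mem_or_inv_mem t).resolve_left htV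
  have hynu : (⟨t⁻¹ ^ (p - 1), pow_mem hy _⟩ : V) ∈ nonunits V := by
    rw [mem_nonunits_iff, isUnit_iff_inv]
    rintro ⟨-, h⟩
    apply htV
    simp only at h
    have : t = (t⁻¹ ^ (p - 1))⁻¹ * t⁻¹ ^ (p - 2) := by
      rw [show p - 1 = (p - 2) + 1 by omega, pow_succ]
      field_simp
    rw [this]
    exact mul_mem h (pow_mem hy _)
  have hu := IsLocalRing.isUnit_one_sub_self_of_mem_nonunits _ hynu
  rw [isUnit_iff_inv] at hu
  obtain ⟨h0, h1⟩ := hu
  change (1 : K) - t⁻¹ ^ (p - 1) ≠ 0 at h0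
  change ((1 : K) - t⁻¹ ^ (p - 1))⁻¹ ∈ V at h1
  have e1 : X * t ^ p = (X * f) * (1 - t⁻¹ ^ (p - 1))⁻¹ := by
    rw [eq_mul_inv_iff_mul_eq₀ h0, ← ht]
    obtain ⟨q, rfl⟩ : ∃ q, p = q + 1 := ⟨p - 1, by omega⟩
    simp only [Nat.add_sub_cancel]
    rw [inv_pow]
    field_simp
    ring
  have e2 : X * t = (X * t ^ p) * t⁻¹ ^ (p - 1) := by
    obtain ⟨q, rfl⟩ : ∃ q, p = q + 1 := ⟨p - 1, by omega⟩
    simp only [Nat.add_sub_cancel]
    rw [inv_pow]
    field_simp
    ring
  have h3 : X * t ^ p ∈ V := by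
    rw [e1]; exact mul_mem hXf h1
  refine ⟨h3, ?_⟩
  rw [e2]
  exact mul_mem h3 (pow_mem hy _)

lemma aeval_mem (hV : ∀ c : k, algebraMap k K c ∈ V) {ι : Type*} {z : ι → K}
    (hz : ∀ i, z i ∈ V) (q : MvPolynomial ι k) : MvPolynomial.aeval z q ∈ V := by
  induction q using MvPolynomial.induction_on with
  | C c => simpa using hV c
  | add p q hp hq => rw [map_add]; exact add_mem hp hq
  | mul_X p i hp => rw [map_mul, MvPolynomial.aeval_X]; exact mul_mem hp (hz i)

lemma aeval_two {ι : Type*} (z : ι → K) (x y : MvPolynomial ι k) (q : MvPolynomial (Fin 2) k) :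
    MvPolynomial.aeval z (MvPolynomial.aeval ![x, y] q) =
      MvPolynomial.aeval ![MvPolynomial.aeval z x, MvPolynomial.aeval z y] q := by
  have : (MvPolynomial.aeval z : MvPolynomial ι k →ₐ[k] K).comp
      (MvPolynomial.aeval ![x, y]) =
      MvPolynomial.aeval ![MvPolynomial.aeval z x, MvPolynomial.aeval z y] := by
    apply MvPolynomial.algHom_ext
    intro i
    fin_cases i <;> simp
  rw [← this]
  rfl

end prelim

section psi

variable {k K : Type u} [Field k] [Field K] [Algebra k K] (V : ValuationSubring K)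
  (hV : ∀ c : k, algebraMap k K c ∈ V) {ι : Type} (z : ι → K) (hz : ∀ i, z i ∈ V)

/-- structure map of the local ring -/
noncomputable abbrev toS : MvPolynomial ι k →+* SS V hV z hz :=
  algebraMap (MvPolynomial ι k) (SS V hV z hz)

lemma snd_psi_C (v : ι → ResidueField V) (c : k) :
    (psi V hV z hz v (toS V hV z hz (MvPolynomial.C c))).snd = 0 := by
  rw [psi_algebraMap]
  simp [psi0]

lemma snd_psi_X (v : ι → ResidueField V) (i : ι) :
    (psi V hV z hz v (toS V hV z hz (MvPolynomial.X i))).snd = v i := by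
  rw [psi_algebraMap]
  simp [psi0]

lemma snd_psi_eval (v : ι → ResidueField V) (x y : MvPolynomial ι k)
    (q : MvPolynomial (Fin 2) k) :
    (psi V hV z hz v (toS V hV z hz (MvPolynomial.aeval ![x, y] q))).snd =
      (psi V hV z hz v (toS V hV z hz x)).snd *
        residue V (evV V hV z hz (MvPolynomial.aeval ![x, y] (MvPolynomial.pderiv 0 q))) +
      (psi V hV z hz v (toS V hV z hz y)).snd *
        residue V (evV V hV z hz (MvPolynomial.aeval ![x, y] (MvPolynomial.pderiv 1 q))) := by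
  have := snd_hom_eval (((psi V hV z hz v).comp (toS V hV z hz)).comp
    (MvPolynomial.aeval ![x, y] : MvPolynomial (Fin 2) k →ₐ[k] MvPolynomial ι k).toRingHom)
    (by
      intro c
      have := snd_psi_C V hV z hz v c
      simpa using this) q
  simp only [RingHom.coe_comp, Function.comp_apply, AlgHom.toRingHom_eq_coe, RingHom.coe_coe,
    MvPolynomial.aeval_X, Matrix.cons_val_zero, Matrix.cons_val_one] at this
  rw [this, fst_psi, fst_psi, evS_algebraMap, evS_algebraMap]

lemma isUnit_toS_iff (f : MvPolynomial ι k) :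
    IsUnit (toS V hV z hz f) ↔
      (MvPolynomial.aeval z f ≠ 0 ∧ (MvPolynomial.aeval z f)⁻¹ ∈ V) := by
  have h1 := mem_max_iff V hV z hz (toS V hV z hz f)
  rw [mem_maximalIdeal, mem_maximalIdeal, mem_nonunits_iff, mem_nonunits_iff, not_iff_not] at h1
  rw [h1, evS_algebraMap, isUnit_iff_inv, coe_evV]

end psi

end LU
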