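import Mathlib

namespace LU

universe u

section

variable {k K : Type u} [Field k] [Field K] [Algebra k K]

open IntermediateField.algebraAdjoinAdjoin in
theorem indep_of_trdeg {n : ℕ} (v : Fin n → K)
    (halg : Algebra.IsAlgebraic (IntermediateField.adjoin k (Set.range v)) K)
    (htr : Algebra.trdeg k K = n) : AlgebraicIndependent k v := by
  classical
  have h1 : Algebra.IsAlgebraic (Algebra.adjoin k (Set.range v))
      (IntermediateField.adjoin k (Set.range v)) := inferInstance
  have : Algebra.IsAlgebraic (Algebra.adjoin k (Set.range v)) K :=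
    Algebra.IsAlgebraic.trans _ (IntermediateField.adjoin k (Set.range v)) _
  obtain ⟨s, -, hs, hb⟩ := exists_isTranscendenceBasis_between (R := k) (∅ : Set K) (Set.range v)
    (Set.empty_subset _) (by
      rw [AlgebraicIndepOn]
      exact algebraicIndependent_empty_type_iff.2 (algebraMap k K).injective)
  have hcard := hb.cardinalMk_eq_trdeg
  rw [htr] at hcard
  have hsfin : s.Finite := (Set.finite_range v).subset hs
  have hsn : s.ncard = n := by
    rw [← Nat.card_coe_set_eq, Nat.card, hcard, Cardinal.toNat_natCast]
  have hrn : (Set.range v).ncard ≤ n := by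
    have := Set.ncard_image_le (Set.finite_univ (α := Fin n)) (f := v)
    rwa [Set.image_univ, Set.ncard_univ, Nat.card_fin] at this
  have hseq : s = Set.range v :=
    Set.eq_of_subset_of_ncard_le hs (by omega) (Set.finite_range v)
  subst hseq
  have hinj : Function.Injective v := by
    have h2 : (Finset.univ.image v).card = (Finset.univ : Finset (Fin n)).card := by
      have : ((Finset.univ.image v : Finset K) : Set K) = Set.range v := by simp
      rw [← Set.ncard_coe_finset, this, hsn]
      simp
    have h3 := Finset.card_image_iff.1 h2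
    intro a b hab
    exact h3 (by simp) (by simp) hab
  exact (algebraicIndependent_subtype_range hinj).1 hb.1

/-- algebraicity over the compositum -/
theorem algebraic_of_gen {n r : ℕ} (F : Fin n → IntermediateField k K) (v : ∀ i, F i)
    (hv : ∀ i, Algebra.IsAlgebraic (IntermediateField.adjoin k {v i}) (F i))
    {p : ℕ} (hp : 2 ≤ p) (y : Fin r → K)
    (hy : ∀ j, y j ^ p - y j ∈ ⨆ i, F i)
    (hgen : (⨆ i, F i) ⊔ IntermediateField.adjoin k (Set.range y) = ⊤) :
    Algebra.IsAlgebraic (IntermediateField.adjoin k (Set.range fun i => (v i : K))) K := by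
  set L := IntermediateField.adjoin k (Set.range fun i => (v i : K)) with hL
  let Ac : IntermediateField k K := (algebraicClosure L K).restrictScalars k
  have hmem : ∀ x : K, x ∈ Ac ↔ IsAlgebraic L x := fun x => mem_algebraicClosure_iff
  have hF : ∀ i, F i ≤ Ac := by
    intro i x hx
    rw [hmem]
    have h1 : IsAlgebraic (IntermediateField.adjoin k {v i}) (⟨x, hx⟩ : F i) :=
      (hv i).isAlgebraic _
    obtain ⟨q, hq0, hq⟩ := h1
    -- the small field maps to L
    have hle : ∀ z : IntermediateField.adjoin k {v i}, ((z : F i) : K) ∈ L := by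
      intro z
      have h2 : ((z : F i) : K) ∈ (IntermediateField.adjoin k {v i}).map (F i).val :=
        ⟨_, z.2, rfl⟩
      rw [IntermediateField.adjoin_map] at h2
      refine IntermediateField.adjoin.mono _ _ _ ?_ h2
      rintro _ ⟨z, rfl, rfl⟩
      exact ⟨i, rfl⟩
    let f : IntermediateField.adjoin k {v i} →+* L :=
      { toFun := fun z => ⟨((z : F i) : K), hle z⟩
        map_one' := rfl
        map_mul' := fun _ _ => rfl
        map_zero' := rfl
        map_add' := fun _ _ => rfl }
    refine ⟨q.map f, (Polynomial.map_ne_zero_iff f.injective).2 hq0, ?_⟩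
    rw [Polynomial.aeval_def, Polynomial.eval₂_map]
    rw [Polynomial.aeval_def] at hq
    have h4 := Polynomial.hom_eval₂ q (algebraMap (IntermediateField.adjoin k {v i}) (F i))
      (algebraMap (F i) K) (⟨x, hx⟩ : F i)
    rw [hq, map_zero] at h4
    exact h4.symm
  have hsup : (⨆ i, F i) ≤ Ac := iSup_le hF
  have hyA : ∀ j, y j ∈ Ac := by
    intro j
    rw [hmem]
    have h1 : IsAlgebraic L (y j ^ p - y j) := (hmem _).1 (hsup (hy j))
    have hd : (Polynomial.X ^ p - Polynomial.X : Polynomial L).natDegree = p := by
      rw [Polynomial.natDegree_sub_eq_left_of_natDegree_lt]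
      · simp
      · simp; omega
    refine IsAlgebraic.of_aeval (R := L) (Polynomial.X ^ p - Polynomial.X) ?_ ?_ ?_
    · rw [hd]; omega
    · apply mem_nonZeroDivisors_of_ne_zero
      rw [Polynomial.leadingCoeff_ne_zero]
      intro h0
      rw [h0] at hd
      simp at hd
      omega
    · have e : Polynomial.aeval (y j) (Polynomial.X ^ p - Polynomial.X : Polynomial L) =
        y j ^ p - y j := by simp
      rw [e]
      exact h1
  have htop : (⊤ : IntermediateField k K) ≤ Ac := by
    rw [← hgen, sup_le_iff, IntermediateField.adjoin_le_iff]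
    refine ⟨hsup, ?_⟩
    rintro _ ⟨j, rfl⟩
    exact hyA j
  exact ⟨fun x => (hmem x).1 (htop trivial)⟩

end

end LU
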