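import Pool.Agent.helper90.LU.Gal

namespace LU

section

variable {k L : Type*} [Field k] [Field L] [Algebra k L]

lemma mem_sup_adjoin (K0 : IntermediateField k L) (T : Set L) (x : L) :
    x ∈ K0 ⊔ IntermediateField.adjoin k T ↔ x ∈ IntermediateField.adjoin K0 T := by
  constructor
  · intro hx
    have h1 : K0 ⊔ IntermediateField.adjoin k T ≤
        (IntermediateField.adjoin K0 T).restrictScalars k := by
      rw [sup_le_iff, IntermediateField.adjoin_le_iff]
      constructor
      · intro z hz
        exact (IntermediateField.adjoin K0 T).algebraMap_mem ⟨z, hz⟩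
      · exact IntermediateField.subset_adjoin _ _
    exact h1 hx
  · intro hx
    have h1 : IntermediateField.adjoin K0 T ≤ IntermediateField.extendScalars
        (show K0 ≤ K0 ⊔ IntermediateField.adjoin k T from le_sup_left) := by
      rw [IntermediateField.adjoin_le_iff]
      intro z hz
      have h2 : z ∈ K0 ⊔ IntermediateField.adjoin k T :=
        (le_sup_right : IntermediateField.adjoin k T ≤ _) (IntermediateField.subset_adjoin _ _ hz)
      exact h2
    exact h1 hx

theorem gal_ambient {p : ℕ} [Fact p.Prime] [CharP k p] [CharP L p] {n : ℕ}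
    (K0 K : IntermediateField k L) (h0 : K0 ≤ K) (y : Fin n → L)
    (hy : ∀ i, y i ^ p - y i ∈ K0)
    (hK : K ≤ K0 ⊔ IntermediateField.adjoin k (Set.range y)) :
    K ≤ K0 ⊔ IntermediateField.adjoin k {x | x ∈ K ∧ ∃ a : Fin n → ZMod p,
      x = ∑ i, zK p (a i) * y i} := by
  set M : IntermediateField K0 L := IntermediateField.adjoin K0 (Set.range y) with hM
  have : CharP K0 p := charP_of_injective_algebraMap (algebraMap k K0).injective p
  have : CharP M p := charP_of_injective_algebraMap (algebraMap k M).injective p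
  let y' : Fin n → M := fun i => ⟨y i, IntermediateField.subset_adjoin _ _ ⟨i, rfl⟩⟩
  let f : Fin n → K0 := fun i => ⟨y i ^ p - y i, hy i⟩
  have hy' : ∀ i, y' i ^ p - y' i = algebraMap K0 M (f i) := by
    intro i
    apply Subtype.ext
    rfl
  have hgen : IntermediateField.adjoin K0 (Set.range y') = ⊤ := by
    apply IntermediateField.map_injective M.val
    rw [IntermediateField.adjoin_map, ← Set.range_comp]
    have : (M.val ∘ y') = y := rfl
    rw [this, ← AlgHom.fieldRange_eq_map, IntermediateField.fieldRange_val]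
  let KE : IntermediateField K0 M := (IntermediateField.extendScalars h0).comap M.val
  have hmain := galois_as y' f hy' hgen KE
  intro x hx
  have hxM : x ∈ M := (mem_sup_adjoin K0 _ x).1 (hK hx)
  have h1 : (⟨x, hxM⟩ : M) ∈ KE := hx
  have h2 := hmain h1
  have h3 : x ∈ (IntermediateField.adjoin K0 {x | x ∈ KE ∧ ∃ a : Fin n → ZMod p,
      x = ∑ i, zK p (a i) * y' i}).map M.val := ⟨_, h2, rfl⟩
  rw [IntermediateField.adjoin_map] at h3
  rw [mem_sup_adjoin]
  refine IntermediateField.adjoin.mono _ _ _ ?_ h3
  rintro _ ⟨z, ⟨hz, a, rfl⟩, rfl⟩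
  refine ⟨hz, a, ?_⟩
  rw [map_sum]
  refine Finset.sum_congr rfl fun i _ => ?_
  rw [map_mul]
  congr 1
  have : (M.val : M →+* L).comp (zK p) = zK p := Subsingleton.elim _ _
  exact congrArg (fun g => g (a i)) this

end

end LU
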