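import Pool.Agent.helper90.LU.Main4
import Pool.Agent.helper90.LU.Norm
import Pool.Agent.helper90.LU.Ech

namespace LU

universe u

open MvPolynomial

section

variable {k K : Type u} [Field k] [Field K] [Algebra k K]

lemma coe_aeval (F : IntermediateField k K) (u w : F) (q : MvPolynomial (Fin 2) k) :
    ((aeval ![u, w] q : F) : K) = aeval ![(u : K), (w : K)] q := by
  have : F.val.comp (aeval ![u, w]) = aeval ![(u : K), (w : K)] := by
    apply MvPolynomial.algHom_ext
    intro i
    fin_cases i <;> simp
  rw [← this]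
  rfl

/-- The trace of the valuation ring on a subfield. -/
abbrev tr (V : ValuationSubring K) (F : IntermediateField k K) : ValuationSubring F :=
  V.comap (algebraMap F K)

lemma mem_tr (V : ValuationSubring K) (F : IntermediateField k K) (x : F) :
    x ∈ tr V F ↔ (x : K) ∈ V := Iff.rfl

lemma val_le {V : ValuationSubring K} {x y : K} (hy : y ≠ 0)
    (h : V.valuation x ≤ V.valuation y) : x * y⁻¹ ∈ V := by
  rw [← V.valuation_le_one_iff, map_mul, map_inv₀]
  have : V.valuation y ≠ 0 := by simpa using hy
  rw [← div_eq_mul_inv]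
  exact div_le_one_of_le₀ h zero_le

end

section

variable {k K : Type u} [Field k] [Field K] [Algebra k K] (p : ℕ)
  [Fact p.Prime] [CharP k p] {n r : ℕ} [NeZero n]

theorem lu_of_germs (V : ValuationSubring K) (hV : ∀ c : k, algebraMap k K c ∈ V)
    (F : Fin n → IntermediateField k K) (u w : ∀ i, F i) (Φ : Fin n → MvPolynomial (Fin 2) k)
    (hG : ∀ i, IsGerm (tr V (F i)) (u i) (w i) (Φ i))
    (hroot : ∀ i, tr V (F i) ≠ ⊤ → HasRoots (tr V (F i)) p)
    (hind : AlgebraicIndependent k (fun i => (u i : K)))
    [CharP K p]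
    (g : ∀ i, F i) (y : Fin r → K) (a : Fin r → Fin n → ZMod p)
    (hy : ∀ j, y j ^ p - y j = ∑ i, zK p (a j i) * (g i : K))
    (hgen : (⨆ i, F i) ⊔ IntermediateField.adjoin k (Set.range y) = ⊤) :
    Uniformizable k V := by
  classical
  have hp : 2 ≤ p := (Fact.out : p.Prime).two_le
  have : ExpChar K p := ExpChar.prime Fact.out
  have hO : ∀ i, ∀ c : k, algebraMap k (F i) c ∈ tr V (F i) := fun i c => hV c
  choose h e N D hD0 hDO he hnf using fun i => (hG i).nf p (hO i) (hroot i) (g i)
  -- transfer to K
  have hu0 : ∀ i, (u i : K) ≠ 0 := fun i h0 => (hG i).hu0 (Subtype.ext h0)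
  have huV : ∀ i, (u i : K) ∈ V := fun i => (hG i).huO
  have hwV : ∀ i, (w i : K) ∈ V := fun i => (hG i).hwO
  have tr0 : ∀ i (q : MvPolynomial (Fin 2) k), aeval ![u i, w i] q ≠ 0 →
      aeval ![(u i : K), (w i : K)] q ≠ 0 := by
    intro i q hq
    rw [← coe_aeval]
    intro h0
    exact hq (Subtype.ext h0)
  have trV : ∀ i (q : MvPolynomial (Fin 2) k), (aeval ![u i, w i] q)⁻¹ ∈ tr V (F i) →
      (aeval ![(u i : K), (w i : K)] q)⁻¹ ∈ V := by
    intro i q hq
    rw [← coe_aeval]
    exact hq
  let G : Fin n → K := fun i => aeval ![(u i : K), (w i : K)] (N i) /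
    aeval ![(u i : K), (w i : K)] (D i) * ((u i : K) ^ e i)⁻¹
  have hGK : ∀ i, (g i : K) - ((h i : K) ^ p - h i) = G i := by
    intro i
    have := congrArg (fun x : F i => (x : K)) (hnf i)
    simpa [coe_aeval, G] using this
  let y0 : Fin r → K := fun j => y j - ∑ i, zK p (a j i) * (h i : K)
  have hsol : ∀ j, Sol p G (y0 j) (a j) := by
    intro j
    unfold Sol
    have e1 : (∑ i, zK p (a j i) * (h i : K)) ^ p = ∑ i, zK p (a j i) * (h i : K) ^ p := by
      rw [sum_pow_char]
      refine Finset.sum_congr rfl fun i _ => ?_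
      rw [mul_pow, zK_pow]
    have e2 : y0 j ^ p = y j ^ p - (∑ i, zK p (a j i) * (h i : K)) ^ p := sub_pow_expChar _ _
    rw [e2, e1]
    simp only [← hGK, y0]
    simp only [mul_sub, Finset.sum_sub_distrib]
    linear_combination hy j
  set B : Set K := Set.range (fun i => (u i : K)) ∪ Set.range (fun i => (w i : K)) with hB
  have hFB : ∀ i, F i ≤ IntermediateField.adjoin k B := by
    intro i x hx
    have h1 : (⟨x, hx⟩ : F i) ∈ IntermediateField.adjoin k {u i, w i} := by
      rw [(hG i).gen]; trivial
    have h2 : x ∈ (IntermediateField.adjoin k {u i, w i}).map (F i).val := ⟨⟨x, hx⟩, h1, rfl⟩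
    rw [IntermediateField.adjoin_map] at h2
    refine IntermediateField.adjoin.mono _ _ _ ?_ h2
    rintro _ ⟨z, hz, rfl⟩
    rcases hz with rfl | rfl
    · exact Or.inl ⟨i, rfl⟩
    · exact Or.inr ⟨i, rfl⟩
  have hgen0 : IntermediateField.adjoin k (B ∪ Set.range y0) = ⊤ := by
    rw [eq_top_iff, ← hgen, sup_le_iff]
    have hBle : IntermediateField.adjoin k B ≤ IntermediateField.adjoin k (B ∪ Set.range y0) :=
      IntermediateField.adjoin.mono _ _ _ Set.subset_union_left
    constructor
    · exact iSup_le fun i => (hFB i).trans hBle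
    · rw [IntermediateField.adjoin_le_iff]
      rintro _ ⟨j, rfl⟩
      have : y j = y0 j + ∑ i, zK p (a j i) * (h i : K) := by simp [y0]
      rw [this]
      refine add_mem (IntermediateField.subset_adjoin _ _ (Or.inr ⟨j, rfl⟩)) ?_
      refine sum_mem fun i _ => mul_mem ?_ (hBle (hFB i (h i).2))
      have : (zK p (a j i) : K) = (((a j i).val : ℕ) : K) := by
        rw [zK, ZMod.castHom_apply, ZMod.natCast_val]
      rw [this]
      exact natCast_mem _ _
  let P : Finset (Fin n) := Finset.univ.filter (fun i => e i ≠ 0)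
  let le : Fin n → Fin n → Prop := fun i' i => (u i : K) ^ e i * ((u i' : K) ^ e i')⁻¹ ∈ V
  have hmax : ∀ T : Finset (Fin n), T ⊆ P → T.Nonempty → ∃ i ∈ T, ∀ i' ∈ T, le i' i := by
    intro T _ hT
    obtain ⟨i, hi, him⟩ := Finset.exists_min_image T (fun i => V.valuation ((u i : K) ^ e i)) hT
    exact ⟨i, hi, fun i' hi' => val_le (pow_ne_zero _ (hu0 i')) (him i' hi')⟩
  obtain ⟨y1, A, W, π, hst⟩ := ech (k := k) (r := r) B G P le hmax (P \ ∅).card ∅ y0 a ∅
    (fun _ => 0) rfl ⟨hsol, hgen0, by simp, by simp, by simp, by simp⟩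
  let zk : ZMod p →+* k := ZMod.castHom (dvd_refl p) k
  have hzk : ∀ c, algebraMap k K (zk c) = zK p c := by
    intro c
    have : (algebraMap k K).comp zk = zK p := Subsingleton.elim _ _
    exact congrArg (fun f => f c) this
  have hzk0 : ∀ c, zk c ≠ 0 ↔ c ≠ 0 := by
    intro c
    rw [Ne, map_eq_zero]
  let eW : Fin W.card ≃ W := W.equivFin.symm
  let eC : Fin Wᶜ.card ≃ (Wᶜ : Finset (Fin r)) := Wᶜ.equivFin.symm
  have hmemP : ∀ i, i ∈ P ↔ e i ≠ 0 := by intro i; simp [P]
  let d : Dat (k := k) V p :=
    { n := n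
      r := W.card
      s := Wᶜ.card
      u := fun i => u i
      w := fun i => w i
      Φ := Φ
      N := N
      D := D
      e := e
      t := fun j => if y1 (eW j) = 0 then 1 else y1 (eW j)
      a := fun j i => zk (A (eW j) i)
      T := fun l => y1 (eC l)
      b := fun l i => zk (A (eC l) i)
      π := fun j => π (eW j)
      hu0 := hu0
      huV := huV
      hwV := hwV
      hΦ := fun i => by rw [← coe_aeval, (hG i).hΦ]; rfl
      hΦ0 := fun i => tr0 i _ (hG i).hΦ0
      hΦV := fun i => trV i _ (hG i).hΦO
      hD0 := fun i => tr0 i _ (hD0 i)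
      hDV := fun i => trV i _ (hDO i)
      heu := fun i hi => (he i hi).1
      heN := fun i hi => tr0 i _ (he i hi).2.1
      heNV := fun i hi => trV i _ (he i hi).2.2.1
      hep := fun i hi => (he i hi).2.2.2
      ht0 := fun j => by
        split_ifs with h0
        · exact one_ne_zero
        · exact h0
      ht := fun j => by
        have h1 : Sol p G (y1 (eW j)) (A (eW j)) := hst.sol _
        unfold Sol at h1
        simp only [hzk]
        change _ = ∑ i, zK p (A (eW j) i) * G i
        rw [← h1]
        split_ifs with h0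
        · rw [h0, zero_pow (by omega)]; simp
        · rfl
      hTV := fun l => by
        have h1 : Sol p G (y1 (eC l)) (A (eC l)) := hst.sol _
        unfold Sol at h1
        have h2 := (as_bound (V := V) hp (one_mem V) h1 ?_).2
        · rwa [one_mul] at h2
        · rw [one_mul]
          refine sum_mem fun i _ => ?_
          by_cases hi : e i = 0
          · refine mul_mem ?_ ?_
            · rw [← hzk]; exact hV _
            · simp only [G, hi, pow_zero, inv_one, mul_one, div_eq_mul_inv]
              refine mul_mem ?_ (trV i _ (hDO i))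
              rw [← coe_aeval]
              exact (hG i).aeval_mem (hO i) _
          · have hl : (eC l : Fin r) ∉ W := Finset.mem_compl.1 (eC l).2
            rw [hst.zer _ hl i ((hmemP i).2 hi), map_zero, zero_mul]
            exact zero_mem _
      hT := fun l => by
        have h1 : Sol p G (y1 (eC l)) (A (eC l)) := hst.sol _
        unfold Sol at h1
        rw [h1]
        refine Finset.sum_congr rfl fun i _ => ?_
        rw [hzk]
        by_cases hi : e i = 0
        · simp only [G, hi, pow_zero, inv_one, mul_one]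
        · have hl : (eC l : Fin r) ∉ W := Finset.mem_compl.1 (eC l).2
          rw [hst.zer _ hl i ((hmemP i).2 hi), map_zero, zero_mul, zero_mul]
      hπ1 := fun j => (hzk0 _).2 (hst.piv _ (eW j).2).2.1
      hπ2 := fun j l hlj => by
        have : (eW l : Fin r) ≠ eW j := fun h => hlj (eW.injective (Subtype.ext h))
        rw [(hst.piv _ (eW j).2).2.2.1 _ this, map_zero]
      hπ3 := fun j => (hmemP _).1 (hst.piv _ (eW j).2).1
      hdom := fun j i hji => by
        by_cases hi : e i = 0
        · rw [hi, pow_zero, inv_one, mul_one]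
          exact pow_mem (huV _) _
        · exact (hst.piv _ (eW j).2).2.2.2 i ((hmemP i).2 hi) ((hzk0 _).1 hji)
      halg := hind
      hgen := by
        rw [eq_top_iff, ← hst.gen, IntermediateField.adjoin_le_iff]
        set L := IntermediateField.adjoin k (Set.range (fun i => (u i : K)) ∪
          Set.range (fun i => (w i : K)) ∪
          Set.range (fun j => if y1 (eW j) = 0 then 1 else y1 (eW j)) ∪
          Set.range (fun l => y1 (eC l))) with hL
        rintro x ((hx | hx) | ⟨l, rfl⟩)
        · exact IntermediateField.subset_adjoin _ _ (Or.inl (Or.inl (Or.inl hx)))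
        · exact IntermediateField.subset_adjoin _ _ (Or.inl (Or.inl (Or.inr hx)))
        · by_cases hl : l ∈ W
          · by_cases h0 : y1 l = 0
            · rw [h0]; exact zero_mem _
            · have h1 : (if y1 (eW (eW.symm ⟨l, hl⟩)) = 0 then 1 else
                  y1 (eW (eW.symm ⟨l, hl⟩))) ∈ L :=
                IntermediateField.subset_adjoin _ _ (Or.inl (Or.inr ⟨eW.symm ⟨l, hl⟩, rfl⟩))
              rw [Equiv.apply_symm_apply] at h1
              simpa [h0] using h1
          · have h1 : y1 (eC (eC.symm ⟨l, Finset.mem_compl.2 hl⟩)) ∈ L :=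
              IntermediateField.subset_adjoin _ _
                (Or.inr ⟨eC.symm ⟨l, Finset.mem_compl.2 hl⟩, rfl⟩)
            rw [Equiv.apply_symm_apply] at h1
            exact h1 }
  exact uniformizable_of_dat d hV

end

end LU
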