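import Pool.Agent.helper90.LU.Reg

open IsLocalRing

namespace LU

universe u

section defs

variable {k K : Type*} [Field k] [Field K] [Algebra k K]

/-- The inclusion of a subalgebra contained in a valuation ring. -/
def toV (V : ValuationSubring K) (A : Subalgebra k K) (h : ∀ a ∈ A, a ∈ V) : A →+* V :=
  (A.val : A →+* K).codRestrict V.toSubring (fun a => h a a.2)

/-- The center of a valuation ring on a subalgebra contained in it. -/
def center (V : ValuationSubring K) (A : Subalgebra k K) (h : ∀ a ∈ A, a ∈ V) : Ideal A :=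
  (maximalIdeal V).comap (toV V A h)

instance (V : ValuationSubring K) (A : Subalgebra k K) (h : ∀ a ∈ A, a ∈ V) :
    (center V A h).IsPrime := Ideal.IsPrime.comap _

variable (k) in
/-- `V` has a regular center on some affine model of `K/k`. -/
def Uniformizable (V : ValuationSubring K) : Prop :=
  ∃ (A : Subalgebra k K) (h : ∀ a ∈ A, a ∈ V), A.FG ∧ IsFractionRing A K ∧
    IsRegularLocalRing (Localization.AtPrime (center V A h))

end defs

section crit

variable {k K : Type u} [Field k] [Field K] [Algebra k K] (V : ValuationSubring K)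
  (hV : ∀ c : k, algebraMap k K c ∈ V) {ι : Type} (z : ι → K) (hz : ∀ i, z i ∈ V)

/-- evaluation with values in the valuation ring -/
noncomputable def evV : MvPolynomial ι k →+* V :=
  MvPolynomial.eval₂Hom ((algebraMap k K).codRestrict V.toSubring hV) (fun i => ⟨z i, hz i⟩)

lemma coe_evV (f : MvPolynomial ι k) : ((evV V hV z hz f : V) : K) = MvPolynomial.aeval z f := by
  have : (V.subtype.comp (evV V hV z hz)) = (MvPolynomial.aeval z : _ →ₐ[k] K).toRingHom := by
    apply MvPolynomial.ringHom_ext
    · intro c
      simp [evV]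
    · intro i
      simp [evV]
  exact congrArg (fun g => g f) this

/-- the center on the polynomial ring -/
noncomputable def PP : Ideal (MvPolynomial ι k) := (maximalIdeal V).comap (evV V hV z hz)

instance : (PP V hV z hz).IsPrime := Ideal.IsPrime.comap _

/-- the local ring of the center on the polynomial ring -/
abbrev SS := Localization.AtPrime (PP V hV z hz)

/-- the evaluation map on the local ring -/
noncomputable def evS : SS V hV z hz →+* V :=
  IsLocalization.lift (M := (PP V hV z hz).primeCompl) (g := evV V hV z hz) (by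
    intro y
    by_contra h
    exact y.2 ((mem_maximalIdeal _).2 h))

lemma evS_algebraMap (f : MvPolynomial ι k) :
    evS V hV z hz (algebraMap _ _ f) = evV V hV z hz f := IsLocalization.lift_eq _ _

lemma mem_max_iff (s : SS V hV z hz) :
    s ∈ maximalIdeal (SS V hV z hz) ↔ evS V hV z hz s ∈ maximalIdeal V := by
  obtain ⟨f, g, rfl⟩ := IsLocalization.exists_mk'_eq (PP V hV z hz).primeCompl s
  have h1 : IsUnit (algebraMap _ (SS V hV z hz) (g : MvPolynomial ι k)) :=
    IsLocalization.map_units _ g
  have h2 : IsLocalization.mk' (SS V hV z hz) f g * algebraMap _ (SS V hV z hz) (g : MvPolynomial ι k) =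
    algebraMap _ (SS V hV z hz) f := IsLocalization.mk'_spec _ _ _
  have h3 : IsLocalization.mk' (SS V hV z hz) f g ∈ maximalIdeal (SS V hV z hz) ↔
      algebraMap _ (SS V hV z hz) f ∈ maximalIdeal (SS V hV z hz) := by
    rw [← h2, mem_maximalIdeal, mem_maximalIdeal, mem_nonunits_iff, mem_nonunits_iff,
      IsUnit.mul_iff]
    simp [h1]
  have h4 : evS V hV z hz (IsLocalization.mk' (SS V hV z hz) f g) ∈ maximalIdeal V ↔
      evV V hV z hz f ∈ maximalIdeal V := by
    rw [← evS_algebraMap, ← h2, map_mul, mem_maximalIdeal, mem_maximalIdeal, mem_nonunits_iff,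
      mem_nonunits_iff, IsUnit.mul_iff]
    simp [h1.map (evS V hV z hz)]
  rw [h3, h4]
  exact IsLocalization.AtPrime.to_map_mem_maximal_iff (SS V hV z hz) (PP V hV z hz) f

/-- algebraicity over the base polynomial ring -/
def AlgOver {σ E : Type*} [Field E] (θ : MvPolynomial σ k →+* E) (x : E) : Prop :=
  letI := θ.toAlgebra
  IsAlgebraic (MvPolynomial σ k) x

theorem crit_core {S B : Type u} [CommRing S] [CommRing B]
    [IsRegularLocalRing B] [Algebra (MvPolynomial ι k) S]
    [IsLocalization.AtPrime S (PP V hV z hz)] (ev : S →+* V)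
    (hev : ∀ f, ev (algebraMap _ S f) = evV V hV z hz f)
    (mk : S →+* B) (hmk : Function.Surjective mk) (evB : B →+* V)
    (hevB : ∀ s, evB (mk s) = ev s)
    [Finite ι] (hgen : IntermediateField.adjoin k (Set.range z) = ⊤)
    {σ : Type} (U : σ → MvPolynomial ι k)
    (hU : AlgebraicIndependent k (fun i => MvPolynomial.aeval z (U i)))
    {r : ℕ} (F : Fin r → S) (hF : ∀ j, mk (F j) = 0)
    (halg : ∀ (E : Type u) [Field E] (φ : S →+* E), (∀ j, φ (F j) = 0) →
      (∀ s, φ s = 0 → ev s = 0) → ∀ i,
        AlgOver ((φ.comp (algebraMap (MvPolynomial ι k) S)).comp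
          (MvPolynomial.aeval U : MvPolynomial σ k →ₐ[k] MvPolynomial ι k).toRingHom)
          (φ (algebraMap (MvPolynomial ι k) S (MvPolynomial.X i)))) :
    Uniformizable k V := by
  have hdom : IsDomain B := isDomain
  let E := FractionRing B
  let φ : S →+* E := (algebraMap B E).comp mk
  have hφF : ∀ j, φ (F j) = 0 := by
    intro j
    simp [φ, hF j]
  have hφ0 : ∀ s, φ s = 0 → mk s = 0 := by
    intro s hs
    exact (IsFractionRing.injective B E) (by rw [map_zero]; exact hs)
  have hφ : ∀ s, φ s = 0 → ev s = 0 := by
    intro s hs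
    rw [← hevB, hφ0 s hs, map_zero]
  have halg' := halg E φ hφF hφ
  let U' : MvPolynomial σ k →+* MvPolynomial ι k :=
    (MvPolynomial.aeval U : MvPolynomial σ k →ₐ[k] MvPolynomial ι k).toRingHom
  let θ : MvPolynomial σ k →+* E := (φ.comp (algebraMap (MvPolynomial ι k) S)).comp U'
  -- everything is algebraic
  have hall : ∀ s : S, AlgOver θ (φ s) := by
    let _ := θ.toAlgebra
    intro s
    obtain ⟨f, g, rfl⟩ := IsLocalization.exists_mk'_eq (PP V hV z hz).primeCompl s
    have hpoly : ∀ f : MvPolynomial ι k,
        IsAlgebraic (MvPolynomial σ k) (φ (algebraMap _ S f)) := by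
      intro f
      induction f using MvPolynomial.induction_on with
      | C c =>
        have : φ (algebraMap (MvPolynomial ι k) S (MvPolynomial.C c)) =
            algebraMap (MvPolynomial σ k) E (MvPolynomial.C c) := by
          change _ = θ _
          simp [θ, U']
        rw [this]
        exact isAlgebraic_algebraMap _
      | add p q hp hq =>
        rw [map_add, map_add]
        exact hp.add hq
      | mul_X p i hp =>
        rw [map_mul, map_mul]
        exact hp.mul (halg' i)
    have h1 : IsUnit (algebraMap _ S (g : MvPolynomial ι k)) :=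
      IsLocalization.map_units _ g
    have h2 : IsLocalization.mk' S f g * algebraMap _ S (g : MvPolynomial ι k) =
      algebraMap _ S f := IsLocalization.mk'_spec _ _ _
    have h3 : φ (algebraMap _ S (g : MvPolynomial ι k)) ≠ 0 := (h1.map φ).ne_zero
    have h4 : φ (IsLocalization.mk' S f g) =
        φ (algebraMap _ S f) * (φ (algebraMap _ S (g : MvPolynomial ι k)))⁻¹ := by
      rw [eq_mul_inv_iff_mul_eq₀ h3, ← map_mul, h2]
    rw [h4]
    exact (hpoly f).mul (hpoly g).inv
  have hinj : Function.Injective evB := by
    rw [injective_iff_map_eq_zero]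
    intro b hb
    by_contra hne
    obtain ⟨s, rfl⟩ := hmk b
    have hne' : φ s ≠ 0 := fun h => hne (hφ0 s h)
    let _ := θ.toAlgebra
    obtain ⟨q, hq0, hq⟩ := IsAlgebraic.exists_nonzero_coeff_and_aeval_eq_zero (hall s)
      (mem_nonZeroDivisors_of_ne_zero hne')
    let θB : MvPolynomial σ k →+* B := (mk.comp (algebraMap (MvPolynomial ι k) S)).comp U'
    have e1 : (algebraMap B E) (Polynomial.eval₂ θB (mk s) q) = 0 := by
      rw [Polynomial.hom_eval₂]
      exact hq
    have e2 : Polynomial.eval₂ θB (mk s) q = 0 :=
      (IsFractionRing.injective B E) (by rw [map_zero]; exact e1)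
    have e3 := congrArg evB e2
    rw [Polynomial.hom_eval₂, map_zero, show evB (mk s) = 0 from hb, Polynomial.eval₂_at_zero] at e3
    have e4 : (evB.comp θB) (q.coeff 0) = evV V hV z hz (U' (q.coeff 0)) := by
      change evB (mk (algebraMap _ _ (U' (q.coeff 0)))) = _
      rw [hevB, hev]
    rw [e4] at e3
    have e5 := congrArg (fun v : V => (v : K)) e3
    simp only [coe_evV] at e5
    have e6 : MvPolynomial.aeval (fun i => MvPolynomial.aeval z (U i)) (q.coeff 0) =
        MvPolynomial.aeval z (U' (q.coeff 0)) := by
      have : (MvPolynomial.aeval (fun i => MvPolynomial.aeval z (U i)) :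
        MvPolynomial σ k →ₐ[k] K) = (MvPolynomial.aeval z).comp (MvPolynomial.aeval U) := by
        apply MvPolynomial.algHom_ext
        intro i
        simp
      rw [this]
      rfl
    rw [← e6] at e5
    apply hq0
    apply hU
    rw [map_zero]
    exact e5
  -- the chart
  let A : Subalgebra k K := Algebra.adjoin k (Set.range z)
  have hAr : A = (MvPolynomial.aeval z : MvPolynomial ι k →ₐ[k] K).range :=
    Algebra.adjoin_range_eq_range_aeval k z
  have hAV : ∀ a ∈ A, a ∈ V := by
    intro a ha
    rw [hAr] at ha
    obtain ⟨f, rfl⟩ := ha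
    have := (evV V hV z hz f).2
    rw [coe_evV] at this
    exact this
  refine ⟨A, hAV, ?_, ?_, ?_⟩
  · exact ⟨(Set.finite_range z).toFinset, by simp [A]⟩
  · refine IsFractionRing.of_field _ _ ?_
    intro x
    have hx : x ∈ IntermediateField.adjoin k (Set.range z) := by rw [hgen]; trivial
    obtain ⟨a, ha, b, hb, hab⟩ := IntermediateField.mem_adjoin_iff_div.1 hx
    exact ⟨⟨a, ha⟩, ⟨b, hb⟩, hab⟩
  · let C : Subring V := evB.range
    have eBC : B ≃+* C := RingEquiv.ofBijective evB.rangeRestrict
      ⟨fun a b h => hinj (congrArg Subtype.val h), evB.rangeRestrict_surjective⟩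
    have hmem : ∀ a : A, toV V A hAV a ∈ C := by
      rintro ⟨a, ha⟩
      have ha' := ha
      rw [hAr] at ha'
      obtain ⟨f, hf⟩ := ha'
      refine ⟨mk (algebraMap _ _ f), ?_⟩
      rw [hevB, hev]
      apply Subtype.ext
      rw [coe_evV]
      exact hf
    let _ : Algebra A C := ((toV V A hAV).codRestrict C hmem).toAlgebra
    have halgAC : ∀ a : A, ((algebraMap A C a : C) : V) = toV V A hAV a := fun a => rfl
    have hlift : ∀ a : A, ∃ f : MvPolynomial ι k, evV V hV z hz f = toV V A hAV a := by
      rintro ⟨a, ha⟩
      have ha' := ha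
      rw [hAr] at ha'
      obtain ⟨f, hf⟩ := ha'
      refine ⟨f, ?_⟩
      apply Subtype.ext
      rw [coe_evV]
      exact hf
    have hloc : IsLocalization (center V A hAV).primeCompl C := by
      refine ⟨⟨?_, ?_, ?_⟩⟩
      · rintro ⟨a, ha⟩
        obtain ⟨f, hf⟩ := hlift a
        have hfP : f ∈ (PP V hV z hz).primeCompl := by
          intro h
          apply ha
          change toV V A hAV a ∈ maximalIdeal V
          rw [← hf]
          exact h
        have h1 : IsUnit (algebraMap _ S f) := IsLocalization.map_units S ⟨f, hfP⟩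
        have h2 := (h1.map mk).map evB.rangeRestrict
        have h3 : algebraMap A C a = evB.rangeRestrict (mk (algebraMap _ S f)) := by
          apply Subtype.ext
          change toV V A hAV a = evB (mk (algebraMap _ S f))
          rw [hevB, hev, hf]
        rw [h3]
        exact h2
      · rintro ⟨c, b, rfl⟩
        obtain ⟨s, rfl⟩ := hmk b
        obtain ⟨f, g, rfl⟩ := IsLocalization.exists_mk'_eq (PP V hV z hz).primeCompl s
        have hfA : ∀ f : MvPolynomial ι k, MvPolynomial.aeval z f ∈ A := by
          intro f; rw [hAr]; exact ⟨f, rfl⟩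
        have hgc : (⟨_, hfA g⟩ : A) ∈ (center V A hAV).primeCompl := by
          intro h
          apply g.2
          change evV V hV z hz g ∈ maximalIdeal V
          have : evV V hV z hz g = toV V A hAV ⟨_, hfA g⟩ := by
            apply Subtype.ext
            rw [coe_evV]; rfl
          rw [this]
          exact h
        refine ⟨(⟨_, hfA f⟩, ⟨_, hgc⟩), ?_⟩
        apply Subtype.ext
        apply Subtype.ext
        change ((evB (mk (IsLocalization.mk' S f g)) : V) : K) * MvPolynomial.aeval z (g : MvPolynomial ι k) =
          MvPolynomial.aeval z f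
        rw [hevB, ← coe_evV V hV z hz, ← coe_evV V hV z hz, ← hev, ← hev]
        have h2 : IsLocalization.mk' S f g * algebraMap _ S (g : MvPolynomial ι k) =
          algebraMap _ S f := IsLocalization.mk'_spec _ _ _
        rw [← h2, map_mul]
        rfl
      · intro a b hab
        refine ⟨1, ?_⟩
        have h1 : toV V A hAV a = toV V A hAV b := congrArg Subtype.val hab
        have h2 : ((toV V A hAV a : V) : K) = (toV V A hAV b : V) := by rw [h1]
        have h3 : a = b := Subtype.ext h2
        rw [h3]
    have : IsRegularLocalRing C := IsRegularLocalRing.of_ringEquiv eBC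
    exact IsRegularLocalRing.of_ringEquiv
      (IsLocalization.algEquiv (center V A hAV).primeCompl C
        (Localization.AtPrime (center V A hAV))).toRingEquiv

/-- Criterion: relations with independent tangent functionals and the right transcendence degree
give a regular center. -/
theorem crit [Finite ι] (hgen : IntermediateField.adjoin k (Set.range z) = ⊤)
    {σ : Type} (U : σ → MvPolynomial ι k)
    (hU : AlgebraicIndependent k (fun i => MvPolynomial.aeval z (U i)))
    {r : ℕ} (F : Fin r → SS V hV z hz) (hF : ∀ j, evS V hV z hz (F j) = 0)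
    (κ : Type*) [Field κ] (ψ : Fin r → SS V hV z hz →+* DualNumber κ)
    (hψ : ∀ i, ∀ s, evS V hV z hz s ∈ maximalIdeal V → (ψ i s).fst = 0)
    (h0 : ∀ i j, j < i → (ψ i (F j)).snd = 0)
    (h1 : ∀ i, (ψ i (F i)).snd ≠ 0)
    (halg : ∀ (E : Type u) [Field E] (φ : SS V hV z hz →+* E), (∀ j, φ (F j) = 0) →
      (∀ s, φ s = 0 → evS V hV z hz s = 0) → ∀ i,
        AlgOver ((φ.comp (algebraMap (MvPolynomial ι k) (SS V hV z hz))).comp
          (MvPolynomial.aeval U : MvPolynomial σ k →ₐ[k] MvPolynomial ι k).toRingHom)
          (φ (algebraMap (MvPolynomial ι k) (SS V hV z hz) (MvPolynomial.X i)))) :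
    Uniformizable k V := by
  have hreg : IsRegularLocalRing (SS V hV z hz ⧸ Ideal.span (Set.range F)) := by
    refine reg_quot r (SS V hV z hz) κ F ψ ?_ ?_ h0 h1
    · intro i s hs
      exact hψ i s ((mem_max_iff V hV z hz s).1 hs)
    · intro j
      rw [mem_max_iff, hF]
      exact Ideal.zero_mem _
  refine crit_core V hV z hz (S := SS V hV z hz) (B := SS V hV z hz ⧸ Ideal.span (Set.range F))
    (evS V hV z hz) (evS_algebraMap V hV z hz) (Ideal.Quotient.mk _)
    Ideal.Quotient.mk_surjective (Ideal.Quotient.lift _ (evS V hV z hz) ?_) (fun s => rfl)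
    hgen U hU F ?_ halg
  · intro a ha
    have : Ideal.span (Set.range F) ≤ RingHom.ker (evS V hV z hz) := by
      rw [Ideal.span_le]
      rintro _ ⟨j, rfl⟩
      exact hF j
    exact this ha
  · intro j
    exact Ideal.Quotient.eq_zero_iff_mem.2 (Ideal.subset_span ⟨j, rfl⟩)

end crit

end LU
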