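import Pool.Agent.helper90.LU.Res

/-!
Etale coordinates at the center of a valuation ring of a function field of one variable over a
perfect field. Written by helper34 (algebraically closed case), adapted to perfect fields by
helper90.
-/

open Polynomial
open scoped IntermediateField
open scoped IntermediateField.algebraAdjoinAdjoin

namespace LU.Curve

universe u

lemma aeval_equiv {k F : Type*} [Field k] [Field F] [Algebra k F] [Algebra k[X] F]
    [IsScalarTower k k[X] F] (w : F) (p : k[X][X]) :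
    MvPolynomial.aeval ![algebraMap k[X] F X, w] (Bivariate.equivMvPolynomial k p) =
      aeval w p := by
  have h : (((MvPolynomial.aeval ![algebraMap k[X] F X, w] : MvPolynomial (Fin 2) k →ₐ[k] F).comp
      (Bivariate.equivMvPolynomial k).toAlgHom) : k[X][X] →ₐ[k] F) =
      ((aeval w : k[X][X] →ₐ[k[X]] F).restrictScalars k) := by
    ext
    · simp
    · simp
  exact congrArg (fun φ : k[X][X] →ₐ[k] F => φ p) h

theorem germ_core {k F : Type u} [Field k] [Field F] [Algebra k F] [Algebra k[X] F]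
    [IsScalarTower k k[X] F] (O : ValuationSubring F) [Algebra k[X] O] [IsScalarTower k[X] O F]
    (B : Subalgebra k[X] F) [Algebra.FiniteType k[X] B] (hBO : ∀ b ∈ B, b ∈ O)
    (hloc : ∀ g ∈ O, ∃ a ∈ B, ∃ s ∈ B, s ≠ 0 ∧ s⁻¹ ∈ O ∧ g = a / s)
    (hur : Algebra.EssFiniteType k[X] O → Algebra.FormallyUnramified k[X] O) :
    ∃ (w : F) (Φ : MvPolynomial (Fin 2) k), w ∈ O ∧
      MvPolynomial.aeval ![algebraMap k[X] F X, w] Φ = 0 ∧
      MvPolynomial.aeval ![algebraMap k[X] F X, w] (MvPolynomial.pderiv 1 Φ) ≠ 0 ∧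
      (MvPolynomial.aeval ![algebraMap k[X] F X, w] (MvPolynomial.pderiv 1 Φ))⁻¹ ∈ O ∧
      ∀ g ∈ O, ∃ N D : MvPolynomial (Fin 2) k,
        MvPolynomial.aeval ![algebraMap k[X] F X, w] D ≠ 0 ∧
        (MvPolynomial.aeval ![algebraMap k[X] F X, w] D)⁻¹ ∈ O ∧
        g = MvPolynomial.aeval ![algebraMap k[X] F X, w] N /
          MvPolynomial.aeval ![algebraMap k[X] F X, w] D := by
  classical
  -- the inclusion `B → O`
  let ι : B →+* O := (algebraMap B F).codRestrict O.toSubring fun b => hBO b b.2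
  let _ : Algebra B O := ι.toAlgebra
  have hι : ∀ b : B, ((algebraMap B O b : O) : F) = b := fun b => rfl
  have : IsScalarTower k[X] B O := IsScalarTower.of_algebraMap_eq fun r => by
    apply Subtype.ext
    rw [hι]
    show algebraMap O F (algebraMap k[X] O r) = algebraMap B F (algebraMap k[X] B r)
    rw [← IsScalarTower.algebraMap_apply, ← IsScalarTower.algebraMap_apply]
  let Q : Ideal B := (IsLocalRing.maximalIdeal O).comap ι
  have : Q.IsPrime := Ideal.comap_isPrime _ _
  have hunit : ∀ b : B, b ∉ Q → IsUnit (algebraMap B O b) := fun b hb => by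
    have : ι b ∉ IsLocalRing.maximalIdeal O := hb
    exact not_not.1 (mt (IsLocalRing.mem_maximalIdeal _).2 this)
  have hinv : ∀ y : O, IsUnit y → (y : F) ≠ 0 ∧ (y : F)⁻¹ ∈ O := by
    rintro _ ⟨y, rfl⟩
    have h1 : ((y : O) : F) * ((y⁻¹ : Oˣ) : O) = 1 := by
      rw [← MulMemClass.coe_mul, Units.mul_inv, OneMemClass.coe_one]
    refine ⟨fun h => by simp [h] at h1, ?_⟩
    rw [← eq_inv_of_mul_eq_one_right h1]
    exact SetLike.coe_mem _
  have : IsLocalization.AtPrime O Q := by
    refine ⟨⟨fun y => hunit y y.2, fun g => ?_, fun {a b} h => ?_⟩⟩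
    · obtain ⟨a, ha, s, hs, hs0, hsO, hg⟩ := hloc g g.2
      refine ⟨(⟨a, ha⟩, ⟨⟨s, hs⟩, fun hQ => ?_⟩), ?_⟩
      · have h1 : ι ⟨s, hs⟩ ∈ IsLocalRing.maximalIdeal O := hQ
        refine (IsLocalRing.mem_maximalIdeal _).1 h1 (IsUnit.of_mul_eq_one (⟨s⁻¹, hsO⟩ : O) ?_)
        apply Subtype.ext
        show s * s⁻¹ = 1
        exact mul_inv_cancel₀ hs0
      · apply Subtype.ext
        show (g : F) * s = a
        rw [hg, div_mul_cancel₀ _ hs0]
    · refine ⟨1, ?_⟩
      have h1 : ((a : B) : F) = b := by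
        have := congrArg (fun y : O => (y : F)) h
        simpa [hι] using this
      rw [Subtype.ext h1]
  have hess : Algebra.EssFiniteType k[X] O := by
    have : Algebra.EssFiniteType B O := Algebra.EssFiniteType.of_isLocalization O Q.primeCompl
    exact Algebra.EssFiniteType.comp k[X] B O
  have := hur hess
  have : Algebra.IsUnramifiedAt k[X] Q :=
    Algebra.FormallyUnramified.of_equiv
      ((IsLocalization.algEquiv Q.primeCompl O (Localization.AtPrime Q)).restrictScalars k[X])
  obtain ⟨f, hfQ, P, φ, hφ⟩ := Algebra.IsUnramifiedAt.exists_hasStandardEtaleSurjectionOn (R := k[X]) Q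
  let ψ : Localization.Away f →ₐ[k[X]] O :=
    IsLocalization.Away.liftAlgHom f (f := IsScalarTower.toAlgHom k[X] B O) (hunit f hfQ)
  have hψ : ∀ b : B, ψ (algebraMap B _ b) = algebraMap B O b := fun b => by
    exact IsLocalization.Away.lift_eq (S := Localization.Away f) f (g := (IsScalarTower.toAlgHom k[X] B O : B →+* O)) (hunit f hfQ) b
  let θ : P.Ring →ₐ[k[X]] O := ψ.comp φ
  let w : O := θ P.X
  have hw : P.HasMap w := P.hasMap_X.map θ
  have hB : ∀ b : B, ∃ (p : k[X][X]) (n : ℕ), (algebraMap B O b) * (aeval w P.g) ^ n = aeval w p := by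
    intro b
    obtain ⟨y, hy⟩ := hφ (algebraMap B _ b)
    obtain ⟨p, n, h⟩ := (⟨P, P.X, P.hasMap_X, by rw [P.lift_X_left]; exact Function.bijective_id⟩ :
      StandardEtalePresentation k[X] P.Ring).exists_mul_aeval_x_g_pow_eq_aeval_x y
    refine ⟨p, n, ?_⟩
    have h1 := congrArg θ h
    simp only [map_mul, map_pow, ← aeval_algHom_apply] at h1
    rw [← h1]
    congr 1
    show _ = ψ (φ y)
    rw [hy, hψ]
  have hF : ∀ p : k[X][X], ((aeval w p : O) : F) = aeval (w : F) p := fun p => by
    exact (aeval_algebraMap_apply F w p).symm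
  refine ⟨w, Bivariate.equivMvPolynomial k P.f, w.2, ?_, ?_, ?_, fun g hg => ?_⟩
  · rw [aeval_equiv, ← hF, hw.1]; rfl
  · rw [Bivariate.pderiv_one_equivMvPolynomial, aeval_equiv, ← hF]
    exact (hinv _ hw.isUnit_derivative_f).1
  · rw [Bivariate.pderiv_one_equivMvPolynomial, aeval_equiv, ← hF]
    exact (hinv _ hw.isUnit_derivative_f).2
  · obtain ⟨a, ha, s, hs, hs0, hsO, hg'⟩ := hloc g hg
    obtain ⟨p, n, hp⟩ := hB ⟨a, ha⟩
    obtain ⟨q, m, hq⟩ := hB ⟨s, hs⟩
    have hG := hinv _ hw.2
    rw [hF] at hG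
    have hp' : a * (aeval (w : F) P.g) ^ n = aeval (w : F) p := by
      rw [← hF p, ← hp, ← hF]; rfl
    have hq' : s * (aeval (w : F) P.g) ^ m = aeval (w : F) q := by
      rw [← hF q, ← hq, ← hF]; rfl
    set G : F := aeval (w : F) P.g with hGdef
    refine ⟨Bivariate.equivMvPolynomial k (p * P.g ^ m), Bivariate.equivMvPolynomial k (q * P.g ^ n), ?_, ?_, ?_⟩
    · rw [aeval_equiv, map_mul, map_pow, ← hq', ← hGdef]
      exact mul_ne_zero (mul_ne_zero hs0 (pow_ne_zero _ hG.1)) (pow_ne_zero _ hG.1)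
    · rw [aeval_equiv, map_mul, map_pow, ← hq', ← hGdef, mul_inv, mul_inv, ← inv_pow, ← inv_pow]
      exact mul_mem (mul_mem hsO (pow_mem hG.2 _)) (pow_mem hG.2 _)
    · rw [aeval_equiv, aeval_equiv, map_mul, map_pow, map_mul, map_pow, ← hq', ← hp', ← hGdef, hg']
      have := hG.1
      field_simp

theorem unram_of_unif {k F : Type u} [Field k] [Field F] [Algebra k F] [Algebra k[X] F]
    (O : ValuationSubring F) [Algebra k[X] O] [Algebra.EssFiniteType k[X] O]
    (hu : algebraMap k[X] O X ∈ IsLocalRing.maximalIdeal O)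
    (hstep : ∀ g : O, ∃ (f : k[X][X]) (g' : O), aeval g f = algebraMap k[X] O X * g' ∧
      IsUnit (aeval g (derivative f))) :
    Algebra.FormallyUnramified k[X] O := by
  have hfin : Module.Finite O (Ω[O⁄k[X]]) := inferInstance
  have h1 : (⊤ : Submodule O (Ω[O⁄k[X]])) ≤ IsLocalRing.maximalIdeal O • ⊤ := by
    rw [← KaehlerDifferential.span_range_derivation, Submodule.span_le]
    rintro _ ⟨g, rfl⟩
    obtain ⟨f, g', hg, hunit⟩ := hstep g
    obtain ⟨b, hb⟩ := hunit.exists_left_inv
    have h2 : (aeval g (derivative f)) • KaehlerDifferential.D k[X] O g =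
        algebraMap k[X] O X • KaehlerDifferential.D k[X] O g' := by
      rw [← Derivation.map_aeval, hg, Derivation.leibniz, Derivation.map_algebraMap,
        smul_zero, add_zero]
    have h3 : KaehlerDifferential.D k[X] O g =
        b • (algebraMap k[X] O X • KaehlerDifferential.D k[X] O g') := by
      rw [← h2, smul_smul, hb, one_smul]
    rw [h3, SetLike.mem_coe, KaehlerDifferential.span_range_derivation]
    exact Submodule.smul_mem _ _ (Submodule.smul_mem_smul hu trivial)
  have h2 : (⊤ : Submodule O (Ω[O⁄k[X]])) = ⊥ :=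
    Submodule.eq_bot_of_le_smul_of_le_jacobson_bot _ _ hfin.fg_top h1
      (IsLocalRing.jacobson_eq_maximalIdeal _ bot_ne_top).ge
  rw [Algebra.formallyUnramified_iff]
  exact (Submodule.subsingleton_iff O).1 (subsingleton_of_bot_eq_top h2.symm)

theorem exists_sep (k F : Type u) [Field k] [PerfectField k] [Field F] [Algebra k F]
    [Algebra.EssFiniteType k F] (htr : Algebra.trdeg k F = 1) :
    ∃ x : F, Transcendental k x ∧ Algebra.IsSeparable k⟮x⟯ F := by
  obtain ⟨s, hs, hsep⟩ := exists_isTranscendenceBasis_and_isSeparable_of_perfectField k F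
  have h1 : Cardinal.mk s = 1 := by rw [hs.cardinalMk_eq_trdeg, htr]
  rw [Cardinal.mk_coe_finset] at h1
  have h2 : s.card = 1 := by exact_mod_cast h1
  obtain ⟨x, rfl⟩ := Finset.card_eq_one.1 h2
  refine ⟨x, ?_, ?_⟩
  · have := hs.1.transcendental ⟨x, by simp⟩
    simpa using this
  · rw [Finset.coe_singleton] at hsep
    exact hsep

/-- integral elements lie in the valuation ring -/
lemma mem_of_integral {k F : Type u} [Field k] [Field F] [Algebra k F] (A : Subalgebra k F)
    (O : ValuationSubring F) (hA : ∀ a ∈ A, a ∈ O) {b : F} (hb : IsIntegral A b) : b ∈ O := by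
  let i : A →+* O := (algebraMap A F).codRestrict O.toSubring fun a => hA a a.2
  let _ : Algebra A O := i.toAlgebra
  have : IsScalarTower A O F := IsScalarTower.of_algebraMap_eq fun r => rfl
  have h1 : IsIntegral O b := hb.tower_top
  obtain ⟨y, hy⟩ := IsIntegrallyClosed.isIntegral_iff.1 h1
  rw [← hy]
  exact y.2

theorem ded {k F : Type u} [Field k] [Field F] [Algebra k F] [Algebra.EssFiniteType k F] (x : F)
    (htr : Transcendental k x) (hsep : Algebra.IsSeparable k⟮x⟯ F) :
    IsDedekindDomain (integralClosure (Algebra.adjoin k {x}) F) ∧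
    Module.Finite (Algebra.adjoin k {x}) (integralClosure (Algebra.adjoin k {x}) F) ∧
    IsFractionRing (integralClosure (Algebra.adjoin k {x}) F) F := by
  let e := Polynomial.algEquivOfTranscendental k x htr
  have : IsPrincipalIdealRing (Algebra.adjoin k {x}) :=
    IsPrincipalIdealRing.of_surjective e.toRingEquiv.toRingHom e.surjective
  have : Algebra.EssFiniteType k⟮x⟯ F := Algebra.EssFiniteType.of_comp k _ _
  have : Algebra.FormallyUnramified k⟮x⟯ F := Algebra.FormallyUnramified.of_isSeparable _ _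
  have : FiniteDimensional k⟮x⟯ F := Algebra.FormallyUnramified.finite_of_free _ _
  exact ⟨integralClosure.isDedekindDomain _ k⟮x⟯ F,
    IsIntegralClosure.finite _ k⟮x⟯ F _,
    integralClosure.isFractionRing_of_finite_extension k⟮x⟯ F⟩

/-- structure of the valuation ring -/
theorem struct_ne_top {k F : Type u} [Field k] [PerfectField k] [Field F] [Algebra k F]
    [Algebra.EssFiniteType k F] (x : F) (htr : Transcendental k x)
    (hsep : Algebra.IsSeparable k⟮x⟯ F) (O : ValuationSubring F)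
    (hO : ∀ c : k, algebraMap k F c ∈ O) (hx : x ∈ O) (hx' : x⁻¹ ∉ O) :
    ∃ (B : Subalgebra k F) (v : F), B.FG ∧ v ∈ B ∧ (∀ b ∈ B, b ∈ O) ∧
      (∀ g ∈ O, ∃ a ∈ B, ∃ s ∈ B, s ≠ 0 ∧ s⁻¹ ∈ O ∧ g = a / s) ∧ v ≠ 0 ∧ v⁻¹ ∉ O ∧
      (∀ g : F, g ≠ 0 → ∃ (m : ℤ) (e : F), e ≠ 0 ∧ e ∈ O ∧ e⁻¹ ∈ O ∧ g = v ^ m * e) ∧
      ResAlg k O := by
  classical
  obtain ⟨hded, hfin, hfr⟩ := ded x htr hsep
  have hAO : ∀ a ∈ Algebra.adjoin k {x}, a ∈ O := by
    intro a ha
    let S : Subalgebra k F := { O.toSubring with algebraMap_mem' := hO }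
    have : Algebra.adjoin k {x} ≤ S := Algebra.adjoin_le (Set.singleton_subset_iff.2 (show x ∈ S from hx))
    exact this ha
  set A := Algebra.adjoin k {x} with hA
  set C := integralClosure A F with hC
  have hCO : ∀ b ∈ C, b ∈ O := fun b hb => mem_of_integral A O hAO hb
  let ι : C →+* O := (algebraMap C F).codRestrict O.toSubring fun b => hCO b b.2
  let _ : Algebra C O := ι.toAlgebra
  have hι : ∀ b : C, ((algebraMap C O b : O) : F) = b := fun b => rfl
  have : IsScalarTower C O F := IsScalarTower.of_algebraMap_eq fun r => rfl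
  let Q : Ideal C := (IsLocalRing.maximalIdeal O).comap ι
  have : Q.IsPrime := Ideal.comap_isPrime _ _
  have hunit : ∀ b : C, b ∉ Q → IsUnit (algebraMap C O b) := fun b hb => by
    have : ι b ∉ IsLocalRing.maximalIdeal O := hb
    exact not_not.1 (mt (IsLocalRing.mem_maximalIdeal _).2 this)
  have hinv : ∀ y : O, IsUnit y → (y : F) ≠ 0 ∧ (y : F)⁻¹ ∈ O := by
    rintro _ ⟨y, rfl⟩
    have h1 : ((y : O) : F) * ((y⁻¹ : Oˣ) : O) = 1 := by
      rw [← MulMemClass.coe_mul, Units.mul_inv, OneMemClass.coe_one]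
    refine ⟨fun h => by simp [h] at h1, ?_⟩
    rw [← eq_inv_of_mul_eq_one_right h1]
    exact SetLike.coe_mem _
  have hinv' : ∀ y : O, (y : F) ≠ 0 → (y : F)⁻¹ ∈ O → IsUnit y := fun y h0 h1 =>
    IsUnit.of_mul_eq_one (⟨(y : F)⁻¹, h1⟩ : O) (Subtype.ext (mul_inv_cancel₀ h0))
  have hx0 : x ≠ 0 := fun h => htr (h ▸ isAlgebraic_zero)
  have hxA : x ∈ A := Algebra.self_mem_adjoin_singleton k x
  have hxC : x ∈ C := (isIntegral_algebraMap (x := (⟨x, hxA⟩ : A)))
  have hQ : Q ≠ ⊥ := fun h => by
    have h1 : (⟨x, hxC⟩ : C) ∈ Q := (IsLocalRing.mem_maximalIdeal _).2 fun h2 => hx' (hinv _ h2).2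
    rw [h, Ideal.mem_bot] at h1
    exact hx0 (congrArg Subtype.val h1)
  have hdomL : IsDomain (Localization.AtPrime Q) :=
    IsLocalization.isDomain_localization Q.primeCompl_le_nonZeroDivisors
  have hdvr : IsDiscreteValuationRing (Localization.AtPrime Q) :=
    IsLocalization.AtPrime.isDiscreteValuationRing_of_dedekind_domain C hQ _
  have hval : ValuationRing (Localization.AtPrime Q) := inferInstance
  have hinjL : Function.Injective (algebraMap C (Localization.AtPrime Q)) :=
    IsLocalization.injective (M := Q.primeCompl) (Localization.AtPrime Q) Q.primeCompl_le_nonZeroDivisors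
  have hloc : ∀ g ∈ O, ∃ a ∈ C, ∃ s ∈ C, s ≠ 0 ∧ s⁻¹ ∈ O ∧ g = a / s := by
    intro g hg
    obtain ⟨a, b, hb, hgab⟩ := IsFractionRing.div_surjective (A := C) g
    have hb0 : b ≠ 0 := nonZeroDivisors.ne_zero hb
    have hbF : (b : F) ≠ 0 := fun h => hb0 (Subtype.ext h)
    have hgab' : g = (a : F) / b := hgab.symm
    rcases (ValuationRing.iff_dvd_total.1 hval).total (algebraMap C (Localization.AtPrime Q) a)
      (algebraMap C (Localization.AtPrime Q) b) with ⟨y, hy⟩ | ⟨y, hy⟩
    · -- b = a y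
      obtain ⟨c, s, rfl⟩ := IsLocalization.exists_mk'_eq Q.primeCompl y
      have h1 : b * s = a * c := hinjL (by
        rw [map_mul, map_mul, hy, mul_assoc, IsLocalization.mk'_spec])
      have h1F : (b : F) * (s : C) = a * c := congrArg Subtype.val h1
      have hs := hinv _ (hunit s s.2)
      rw [hι] at hs
      by_cases hc : c ∈ Q
      · exfalso
        have ha0 : (a : F) ≠ 0 := fun h => by
          rw [h, zero_mul] at h1F
          exact (mul_ne_zero hbF hs.1) h1F
        have hc0 : (c : F) ≠ 0 := fun h => by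
          rw [h, mul_zero] at h1F
          exact (mul_ne_zero hbF hs.1) h1F
        have h2 : ¬ IsUnit (algebraMap C O c) := (IsLocalRing.mem_maximalIdeal _).1 hc
        refine h2 (hinv' _ (by rw [hι]; exact hc0) ?_)
        rw [hι]
        have h3 : (c : F)⁻¹ = g * ((s : C) : F)⁻¹ := by
          rw [hgab', ← div_eq_mul_inv, div_div, h1F, div_mul_cancel_left₀ ha0]
        rw [h3]
        exact mul_mem hg hs.2
      · have hc' := hinv _ (hunit c hc)
        rw [hι] at hc'
        refine ⟨(s : C), (s : C).2, c, c.2, hc'.1, hc'.2, ?_⟩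
        rw [hgab', div_eq_div_iff hbF hc'.1, ← h1F, mul_comm]
    · obtain ⟨c, s, rfl⟩ := IsLocalization.exists_mk'_eq Q.primeCompl y
      have h1 : a * s = b * c := hinjL (by
        rw [map_mul, map_mul, hy, mul_assoc, IsLocalization.mk'_spec])
      have h1F : (a : F) * (s : C) = b * c := congrArg Subtype.val h1
      have hs := hinv _ (hunit s s.2)
      rw [hι] at hs
      refine ⟨c, c.2, (s : C), (s : C).2, hs.1, hs.2, ?_⟩
      rw [hgab', div_eq_div_iff hbF hs.1, h1F, mul_comm]
  have hlocO : IsLocalization.AtPrime O Q := by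
    refine ⟨⟨fun y => hunit y y.2, fun g => ?_, fun {a b} h => ?_⟩⟩
    · obtain ⟨a, ha, s, hs, hs0, hsO, hg⟩ := hloc g g.2
      refine ⟨(⟨a, ha⟩, ⟨⟨s, hs⟩, fun hQ => ?_⟩), ?_⟩
      · have h1 : ι ⟨s, hs⟩ ∈ IsLocalRing.maximalIdeal O := hQ
        exact (IsLocalRing.mem_maximalIdeal _).1 h1 (hinv' _ hs0 hsO)
      · apply Subtype.ext
        show (g : F) * s = a
        rw [hg, div_mul_cancel₀ _ hs0]
    · refine ⟨1, ?_⟩
      have h1 : ((a : C) : F) = b := by
        have := congrArg (fun y : O => (y : F)) h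
        simpa [hι] using this
      rw [Subtype.ext h1]
  have hdO : IsDiscreteValuationRing O :=
    IsLocalization.AtPrime.isDiscreteValuationRing_of_dedekind_domain C hQ _
  obtain ⟨ϖ, hϖ⟩ := IsDiscreteValuationRing.exists_irreducible O
  obtain ⟨a, ha, s, hs, hs0, hsO, hϖ'⟩ := hloc ϖ ϖ.2
  -- the uniformizer `a`
  set v : O := ⟨a, hCO a ha⟩ with hv
  have hvs : v = ϖ * ⟨s, hCO s hs⟩ := Subtype.ext (by
    show a = (ϖ : F) * s
    rw [hϖ', div_mul_cancel₀ _ hs0])
  have hvirr : Irreducible v := by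
    have h1 : Associated ϖ v := ⟨(hinv' ⟨s, hCO s hs⟩ hs0 hsO).unit, hvs.symm⟩
    exact h1.irreducible hϖ
  have hv0 : (v : F) ≠ 0 := fun h => hvirr.ne_zero (Subtype.ext h)
  have hfac : ∀ g : O, g ≠ 0 → ∃ (n : ℕ) (e : F), e ≠ 0 ∧ e ∈ O ∧ e⁻¹ ∈ O ∧ (g : F) = (v : F) ^ n * e := by
    intro g hg
    obtain ⟨n, e, he⟩ := IsDiscreteValuationRing.eq_unit_mul_pow_irreducible hg hvirr
    refine ⟨n, (e : O), (hinv _ e.isUnit).1, (e : O).2, (hinv _ e.isUnit).2, ?_⟩
    rw [he]
    push_cast
    ring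
  -- residue field
  let ik : k →+* O := (algebraMap k F).codRestrict O.toSubring hO
  let ρ : O →+* IsLocalRing.ResidueField O := IsLocalRing.residue O
  let _ : Algebra k (IsLocalRing.ResidueField O) := (ρ.comp ik).toAlgebra
  have hk : ∀ c : k, algebraMap k (IsLocalRing.ResidueField O) c = ρ (ik c) := fun c => rfl
  let iA : A →+* O := (algebraMap A F).codRestrict O.toSubring fun a => hAO a a.2
  let e := Polynomial.algEquivOfTranscendental k x htr
  let ev : A →+* k := (Polynomial.evalRingHom 0).comp e.symm.toRingEquiv.toRingHom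
  have hev : (ρ.comp iA) = (algebraMap k (IsLocalRing.ResidueField O)).comp ev := by
    have h1 : (ρ.comp iA).comp e.toRingEquiv.toRingHom =
        ((algebraMap k (IsLocalRing.ResidueField O)).comp ev).comp e.toRingEquiv.toRingHom := by
      refine Polynomial.ringHom_ext (fun c => ?_) ?_
      · have h2 : e (Polynomial.C c) = algebraMap k A c := e.commutes c
        have h3 : iA (algebraMap k A c) = ik c := Subtype.ext rfl
        show ρ (iA (e (Polynomial.C c))) = ρ (ik (Polynomial.eval 0 (e.symm (e (Polynomial.C c)))))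
        rw [AlgEquiv.symm_apply_apply, Polynomial.eval_C, h2, h3]
      · have h2 : ((e Polynomial.X : A) : F) = x := by simp [e]
        show ρ (iA (e Polynomial.X)) = ρ (ik (Polynomial.eval 0 (e.symm (e Polynomial.X))))
        rw [AlgEquiv.symm_apply_apply, Polynomial.eval_X, map_zero, map_zero]
        refine (IsLocalRing.residue_eq_zero_iff _).2 ((IsLocalRing.mem_maximalIdeal _).2 fun h => hx' ?_)
        have h3 := (hinv _ h).2
        rwa [show ((iA (e Polynomial.X) : O) : F) = x from h2] at h3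
    refine RingHom.ext fun a => ?_
    obtain ⟨p, rfl⟩ := e.surjective a
    exact congrArg (fun φ : k[X] →+* IsLocalRing.ResidueField O => φ p) h1
  have hresC : ∀ b : C, IsAlgebraic k (ρ (algebraMap C O b)) := by
    intro b
    obtain ⟨p, hp, hp0⟩ := (b.2 : IsIntegral A (b : F))
    have h1 : Polynomial.eval₂ iA (algebraMap C O b) p = 0 := by
      apply Subtype.ext
      have h2 := Polynomial.hom_eval₂ p iA (algebraMap O F) (algebraMap C O b)
      have h3 : (algebraMap O F).comp iA = algebraMap A F := rfl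
      rw [h3] at h2
      exact h2.trans hp0
    have h2 : IsIntegral k (ρ (algebraMap C O b)) := by
      refine ⟨p.map ev, hp.map _, ?_⟩
      rw [Polynomial.eval₂_map, ← hev, ← Polynomial.hom_eval₂, h1, map_zero]
    exact h2.isAlgebraic
  have hres : ResAlg k O := by
    intro g hg
    obtain ⟨a, ha, s, hs, hs0, hsO, hg'⟩ := hloc g hg
    have hc1 := hresC ⟨a, ha⟩
    have hc2 := hresC ⟨s, hs⟩
    have hsu : IsUnit (algebraMap C O ⟨s, hs⟩) := hinv' _ hs0 hsO
    have hρs : ρ (algebraMap C O ⟨s, hs⟩) ≠ 0 := (hsu.map ρ).ne_zero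
    have h2 : (⟨g, hg⟩ : O) * algebraMap C O ⟨s, hs⟩ = algebraMap C O ⟨a, ha⟩ := Subtype.ext (by
      show g * s = a
      rw [hg', div_mul_cancel₀ _ hs0])
    have h3 := congrArg ρ h2
    rw [map_mul] at h3
    have h4 : ρ ⟨g, hg⟩ = ρ (algebraMap C O ⟨a, ha⟩) * (ρ (algebraMap C O ⟨s, hs⟩))⁻¹ := by
      rw [eq_mul_inv_iff_mul_eq₀ hρs, h3]
    have h5 : IsAlgebraic k (ρ ⟨g, hg⟩) := by
      rw [h4]
      exact hc1.mul hc2.inv
    obtain ⟨f, hf0, hf⟩ := h5
    refine ⟨f, hf0, ?_⟩
    have h6 : Polynomial.eval₂ ((IsLocalRing.residue O).comp (kO hO)) (IsLocalRing.residue O ⟨g, hg⟩) f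
      = 0 := hf
    rw [← Polynomial.hom_eval₂, residue_zero_iff, eval_kO] at h6
    exact h6
  refine ⟨C.restrictScalars k, v, ?_, ha, hCO, hloc, hv0, ?_, ?_, hres⟩
  · rw [Subalgebra.fg_iff_finiteType]
    have h1 : Algebra.FiniteType k A :=
      (Subalgebra.fg_iff_finiteType _).1 (Subalgebra.fg_adjoin_finset {x} |> fun h => by
        rwa [Finset.coe_singleton] at h)
    have h2 : Algebra.FiniteType A C := @Module.Finite.finiteType _ _ _ _ _ hfin
    have h3 : Algebra.FiniteType k C := Algebra.FiniteType.trans h1 h2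
    exact h3
  · exact fun h => hvirr.not_isUnit (hinv' _ hv0 h)
  · intro g hg
    rcases O.mem_or_inv_mem g with h | h
    · obtain ⟨n, e, he0, heO, heO', he⟩ := hfac ⟨g, h⟩ fun h' => hg (congrArg Subtype.val h')
      exact ⟨n, e, he0, heO, heO', by rw [zpow_natCast]; exact he⟩
    · obtain ⟨n, e, he0, heO, heO', he⟩ := hfac ⟨g⁻¹, h⟩ fun h' =>
        inv_ne_zero hg (congrArg Subtype.val h')
      refine ⟨-n, e⁻¹, inv_ne_zero he0, heO', by rwa [inv_inv], ?_⟩
      have he' : g⁻¹ = (v : F) ^ n * e := he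
      rw [← inv_inv g, he', mul_inv, zpow_neg, zpow_natCast]

lemma sep_change {k F : Type u} [Field k] [PerfectField k] [Field F] [Algebra k F]
    (x : F) (hx : Transcendental k x) (hsep : Algebra.IsSeparable k⟮x⟯ F) (p : k[X])
    (hp : Irreducible p) :
    Transcendental k (aeval x p) ∧ Algebra.IsSeparable k⟮(aeval x p : F)⟯ F := by
  have hsp : p.Separable := PerfectField.separable_of_irreducible hp
  have hder : derivative p ≠ 0 := by
    intro h
    have h1 := hsp
    rw [Polynomial.Separable, h, isCoprime_zero_right] at h1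
    exact hp.not_isUnit h1
  have hdeg : p.natDegree ≠ 0 := by
    intro h
    apply hder
    rw [Polynomial.eq_C_of_natDegree_eq_zero h, derivative_C]
  have htr : Transcendental k (aeval x p) :=
    (transcendental_aeval_iff).2 ⟨hx, Polynomial.transcendental p hdeg (by
      apply mem_nonZeroDivisors_of_ne_zero
      rw [Polynomial.leadingCoeff_ne_zero]
      exact hp.ne_zero)⟩
  refine ⟨htr, ?_⟩
  set L := k⟮(aeval x p : F)⟯ with hL
  have hder' : aeval x (derivative p) ≠ 0 := fun h => hx ⟨_, hder, h⟩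
  -- `x` is separable over `L`
  have hxsep : IsSeparable L x := by
    let P : L[X] := p.map (algebraMap k L) - C ⟨aeval x p, IntermediateField.mem_adjoin_simple_self k _⟩
    have hP : aeval x P = 0 := by
      simp only [P, map_sub, aeval_C, aeval_map_algebraMap]
      exact sub_self _
    have hP' : aeval x (derivative P) ≠ 0 := by
      simp only [P, derivative_sub, derivative_C, sub_zero, derivative_map, aeval_map_algebraMap]
      exact hder'
    obtain ⟨q, hq⟩ := minpoly.dvd L x hP
    have hint : IsIntegral L x := by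
      rw [← isAlgebraic_iff_isIntegral]
      exact ⟨P, fun h => hP' (by rw [h]; simp), hP⟩
    rw [IsSeparable, Polynomial.separable_iff_derivative_ne_zero (minpoly.irreducible hint)]
    intro h
    apply hP'
    rw [hq, derivative_mul, h, zero_mul, zero_add, map_mul, minpoly.aeval, zero_mul]
  let E : IntermediateField L F := L⟮x⟯
  have h1 : Algebra.IsSeparable L E := by
    rw [IntermediateField.isSeparable_adjoin_iff_isSeparable]
    rintro y hy
    rw [Set.mem_singleton_iff] at hy
    rw [hy]; exact hxsep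
  have hle : ∀ z : k⟮x⟯, (z : F) ∈ E := by
    intro z
    have h2 : k⟮x⟯ ≤ E.restrictScalars k := by
      rw [IntermediateField.adjoin_simple_le_iff]
      exact IntermediateField.mem_adjoin_simple_self L x
    exact h2 z.2
  let i : k⟮x⟯ →+* E :=
    { toFun := fun z => ⟨z, hle z⟩
      map_one' := rfl
      map_mul' := fun _ _ => rfl
      map_zero' := rfl
      map_add' := fun _ _ => rfl }
  let _ : Algebra k⟮x⟯ E := i.toAlgebra
  have : IsScalarTower k⟮x⟯ E F := IsScalarTower.of_algebraMap_eq fun r => rfl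
  have h2 : Algebra.IsSeparable E F := Algebra.isSeparable_tower_top_of_isSeparable k⟮x⟯ E F
  exact Algebra.IsSeparable.trans L E F

theorem exists_center {k F : Type u} [Field k] [PerfectField k] [Field F] [Algebra k F]
    [Algebra.EssFiniteType k F] (htr : Algebra.trdeg k F = 1) (O : ValuationSubring F)
    (hO : ∀ c : k, algebraMap k F c ∈ O) (hne : O ≠ ⊤) :
    ∃ x : F, Transcendental k x ∧ Algebra.IsSeparable k⟮x⟯ F ∧ x ∈ O ∧ x⁻¹ ∉ O := by
  obtain ⟨x, hx, hsep⟩ := exists_sep k F htr
  by_cases hxO : x ∈ O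
  · have hpol : ∀ p : k[X], aeval x p ∈ O := by
      intro p
      let S : Subalgebra k F := { O.toSubring with algebraMap_mem' := hO }
      have h1 : Algebra.adjoin k {x} ≤ S :=
        Algebra.adjoin_le (Set.singleton_subset_iff.2 (show x ∈ S from hxO))
      exact h1 (by rw [Algebra.adjoin_singleton_eq_range_aeval]; exact ⟨p, rfl⟩)
    by_cases hc : ∃ p : k[X], Irreducible p ∧ (aeval x p)⁻¹ ∉ O
    · obtain ⟨p, hp, hpO⟩ := hc
      obtain ⟨h1, h2⟩ := sep_change x hx hsep p hp
      exact ⟨_, h1, h2, hpol p, hpO⟩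
    · exfalso
      push Not at hc
      apply hne
      have hinv : ∀ p : k[X], (aeval x p)⁻¹ ∈ O := by
        intro p
        induction p using WfDvdMonoid.induction_on_irreducible with
        | zero => simp
        | unit q hq =>
          obtain ⟨c, -, rfl⟩ := Polynomial.isUnit_iff.1 hq
          rw [aeval_C, ← map_inv₀]
          exact hO _
        | mul a i _ hi ih =>
          rw [map_mul, mul_inv]
          exact mul_mem (hc i hi) ih
      have hK : ∀ y ∈ k⟮x⟯, y ∈ O := by
        intro y hy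
        obtain ⟨r, s, rfl⟩ := (IntermediateField.mem_adjoin_simple_iff k y).1 hy
        rw [div_eq_mul_inv]
        exact mul_mem (hpol r) (hinv s)
      refine eq_top_iff.2 fun g _ => mem_of_integral k⟮x⟯.toSubalgebra O hK ?_
      exact (Algebra.IsSeparable.isIntegral k⟮x⟯ g)
  · have h1 : k⟮x⁻¹⟯ = k⟮x⟯ := by
      apply le_antisymm
      · rw [IntermediateField.adjoin_simple_le_iff]
        exact inv_mem (IntermediateField.mem_adjoin_simple_self k x)
      · rw [IntermediateField.adjoin_simple_le_iff]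
        have := inv_mem (IntermediateField.mem_adjoin_simple_self k (x⁻¹))
        simpa using this
    refine ⟨x⁻¹, ?_, ?_, (O.mem_or_inv_mem x).resolve_left hxO, by rwa [inv_inv]⟩
    · intro h
      apply hx
      have := h.inv
      simpa using this
    · rw [h1]; exact hsep

lemma alg_of_tr {k F : Type u} [Field k] [Field F] [Algebra k F] (htr : Algebra.trdeg k F = 1)
    {v : F} (hv : Transcendental k v) : Algebra.IsAlgebraic (IntermediateField.adjoin k {v}) F := by
  have h1 : AlgebraicIndependent k (fun _ : PUnit.{u + 1} => v) :=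
    algebraicIndependent_unique_type_iff.2 hv
  have h2 : IsTranscendenceBasis k (fun _ : PUnit.{u + 1} => v) :=
    h1.isTranscendenceBasis_of_trdeg_le_of_finite (by rw [htr]; simp)
  have h3 := h2.isAlgebraic_field
  rwa [Set.range_const] at h3

lemma mem_adjoin_pair {k F : Type u} [Field k] [Field F] [Algebra k F] (v w : F)
    (N : MvPolynomial (Fin 2) k) : MvPolynomial.aeval ![v, w] N ∈ IntermediateField.adjoin k {v, w} := by
  have h1 : MvPolynomial.aeval ![v, w] N ∈ Algebra.adjoin k (Set.range ![v, w]) := by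
    rw [Algebra.adjoin_range_eq_range_aeval]
    exact ⟨N, rfl⟩
  have h2 : Set.range ![v, w] = {v, w} := by
    simp [Matrix.range_cons, Matrix.range_empty, Set.pair_comm]
  rw [h2] at h1
  exact IntermediateField.algebra_adjoin_le_adjoin k _ h1

/-- common end of both cases -/
theorem finish {k F : Type u} [Field k] [Field F] [Algebra k F] (htr : Algebra.trdeg k F = 1)
    (O : ValuationSubring F) (v w : F) (Φ : MvPolynomial (Fin 2) k) (hvO : v ∈ O) (hwO : w ∈ O)
    (hv : Transcendental k v) (h1 : MvPolynomial.aeval ![v, w] Φ = 0)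
    (h2 : MvPolynomial.aeval ![v, w] (MvPolynomial.pderiv 1 Φ) ≠ 0)
    (h3 : (MvPolynomial.aeval ![v, w] (MvPolynomial.pderiv 1 Φ))⁻¹ ∈ O)
    (h4 : ∀ g ∈ O, ∃ N D : MvPolynomial (Fin 2) k,
        MvPolynomial.aeval ![v, w] D ≠ 0 ∧ (MvPolynomial.aeval ![v, w] D)⁻¹ ∈ O ∧
        g = MvPolynomial.aeval ![v, w] N / MvPolynomial.aeval ![v, w] D)
    (h5 : O ≠ ⊤ → v⁻¹ ∉ O)
    (h6 : O ≠ ⊤ → ∀ g : F, g ≠ 0 → ∃ (m : ℤ) (e : F), e ≠ 0 ∧ e ∈ O ∧ e⁻¹ ∈ O ∧ g = v ^ m * e)
    (h7 : O ≠ ⊤ → ResAlg k O) :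
    IsGerm O v w Φ where
  hu0 := fun h => hv (h ▸ isAlgebraic_zero)
  huO := hvO
  hwO := hwO
  hΦ := h1
  hΦ0 := h2
  hΦO := h3
  tr := hv
  alg := alg_of_tr htr hv
  gen := by
    refine eq_top_iff.2 fun g _ => ?_
    have h8 : ∀ g ∈ O, g ∈ IntermediateField.adjoin k {v, w} := by
      intro g hg
      obtain ⟨N, D, -, -, rfl⟩ := h4 g hg
      exact div_mem (mem_adjoin_pair v w N) (mem_adjoin_pair v w D)
    rcases O.mem_or_inv_mem g with h | h
    · exact h8 g h
    · have := inv_mem (h8 _ h)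
      rwa [inv_inv] at this
  nontriv := h5
  fac := by
    intro hne g hg
    obtain ⟨m, e, he0, heO, heO', hge⟩ := h6 hne g hg
    obtain ⟨N, D, hD0, hDO, heND⟩ := h4 e heO
    have hN : MvPolynomial.aeval ![v, w] N = e * MvPolynomial.aeval ![v, w] D := by
      rw [heND, div_mul_cancel₀ _ hD0]
    refine ⟨m, N, D, ?_, ?_, hD0, hDO, by rw [hge, ← heND]⟩
    · rw [hN]; exact mul_ne_zero he0 hD0
    · rw [hN, mul_inv]; exact mul_mem heO' hDO
  res := h7

theorem germ_ne_top {k F : Type u} [Field k] [PerfectField k] [Field F] [Algebra k F]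
    [Algebra.EssFiniteType k F] (htr : Algebra.trdeg k F = 1) (O : ValuationSubring F)
    (hO : ∀ c : k, algebraMap k F c ∈ O) (hne : O ≠ ⊤) :
    ∃ (v w : F) (Φ : MvPolynomial (Fin 2) k), IsGerm O v w Φ := by
  classical
  obtain ⟨x, hx, hsep, hxO, hxO'⟩ := exists_center htr O hO hne
  obtain ⟨B, v, hBfg, hvB, hBO, hloc, hv0, hvO', hfac, hres⟩ := struct_ne_top x hx hsep O hO hxO hxO'
  have hvO : v ∈ O := hBO v hvB
  let iF : k[X] →ₐ[k] F := aeval v
  have hiO : ∀ p : k[X], iF p ∈ O := fun p => by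
    have h1 : Algebra.adjoin k {v} ≤ B := Algebra.adjoin_le (Set.singleton_subset_iff.2 hvB)
    exact hBO _ (h1 (by rw [Algebra.adjoin_singleton_eq_range_aeval]; exact ⟨p, rfl⟩))
  let _ : Algebra k[X] F := iF.toRingHom.toAlgebra
  have halg : ∀ p : k[X], algebraMap k[X] F p = aeval v p := fun p => rfl
  have : IsScalarTower k k[X] F := IsScalarTower.of_algebraMap_eq fun r => by
    rw [halg]; simp
  let iO : k[X] →+* O := (algebraMap k[X] F).codRestrict O.toSubring hiO
  let _ : Algebra k[X] O := iO.toAlgebra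
  have hO' : ∀ p : k[X], ((algebraMap k[X] O p : O) : F) = aeval v p := fun p => rfl
  have : IsScalarTower k[X] O F := IsScalarTower.of_algebraMap_eq fun r => rfl
  let B' : Subalgebra k[X] F :=
    { B with
      algebraMap_mem' := fun p => by
        have h1 : Algebra.adjoin k {v} ≤ B := Algebra.adjoin_le (Set.singleton_subset_iff.2 hvB)
        exact h1 (by rw [Algebra.adjoin_singleton_eq_range_aeval]; exact ⟨p, rfl⟩) }
  have hB' : ∀ b : F, b ∈ B' ↔ b ∈ B := fun b => Iff.rfl
  have hft : Algebra.FiniteType k[X] B' := by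
    have h1 : Algebra.FiniteType k B := (Subalgebra.fg_iff_finiteType _).1 hBfg
    have h2 : Algebra.FiniteType k B' := h1
    exact Algebra.FiniteType.of_restrictScalars_finiteType k k[X] B'
  have hX : algebraMap k[X] F X = v := by rw [halg, aeval_X]
  have hu : algebraMap k[X] O X ∈ IsLocalRing.maximalIdeal O := by
    rw [IsLocalRing.mem_maximalIdeal]
    intro h
    obtain ⟨y, hy⟩ := h.exists_right_inv
    have h1 : v * (y : F) = 1 := by
      have := congrArg (fun z : O => (z : F)) hy
      simpa [hO'] using this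
    rw [← eq_inv_of_mul_eq_one_right h1] at hvO'
    exact hvO' y.2
  have hcoe : ∀ (g : O) (f : k[X]), ((aeval g (f.map (C : k →+* k[X])) : O) : F) =
      aeval (g : F) f := by
    intro g f
    rw [aeval_def, eval₂_map]
    have h1 := Polynomial.hom_eval₂ f ((algebraMap k[X] O).comp C) O.subtype g
    have h2 : O.subtype.comp ((algebraMap k[X] O).comp C) = algebraMap k F := by
      refine RingHom.ext fun c => ?_
      show ((algebraMap k[X] O (C c) : O) : F) = _
      rw [hO', aeval_C]
    rw [h2] at h1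
    exact h1
  have hinv' : ∀ y : O, (y : F) ≠ 0 → (y : F)⁻¹ ∈ O → IsUnit y := fun y h0 h1 =>
    IsUnit.of_mul_eq_one (⟨(y : F)⁻¹, h1⟩ : O) (Subtype.ext (mul_inv_cancel₀ h0))
  have hstep : ∀ g : O, ∃ (f : k[X][X]) (g' : O), aeval g f = algebraMap k[X] O X * g' ∧
      IsUnit (aeval g (derivative f)) := by
    intro g
    obtain ⟨f, hf, hf1, hf2⟩ := sep_relation hO hres g g.2
    have hu' : IsUnit (aeval g (derivative (f.map (C : k →+* k[X])))) := by
      rw [derivative_map]
      refine hinv' _ ?_ ?_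
      · rw [hcoe]; exact hf1
      · rw [hcoe]; exact hf2
    by_cases h0 : aeval (g : F) f = 0
    · refine ⟨f.map C, 0, Subtype.ext ?_, hu'⟩
      rw [hcoe, h0, mul_zero]
      rfl
    · have hf' := hf.resolve_left h0
      obtain ⟨m, e, he0, heO, heO', he⟩ := hfac _ h0
      have hm : 1 ≤ m := by
        by_contra hm
        push Not at hm
        apply hf'
        obtain ⟨j, hj⟩ : ∃ j : ℕ, -m = j := ⟨(-m).toNat, by omega⟩
        rw [he, mul_inv, ← zpow_neg, hj, zpow_natCast]
        exact mul_mem (pow_mem hvO j) heO'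
      obtain ⟨j, rfl⟩ : ∃ j : ℕ, m = j + 1 := ⟨(m - 1).toNat, by omega⟩
      refine ⟨f.map C, ⟨v ^ j * e, mul_mem (pow_mem hvO j) heO⟩, Subtype.ext ?_, hu'⟩
      rw [hcoe]
      show _ = ((algebraMap k[X] O X : O) : F) * (v ^ j * e)
      rw [hO', aeval_X, ← mul_assoc, ← pow_succ', he]
      norm_cast
  obtain ⟨w, Φ, hwO, h1, h2, h3, h4⟩ := germ_core (k := k) O B' (fun b hb => hBO b hb)
    (fun g hg => hloc g hg) (fun _ => unram_of_unif (k := k) O hu hstep)
  rw [hX] at h1 h2 h3 h4
  have htrv : Transcendental k v := by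
    intro h
    apply hvO'
    have h5 : IsIntegral k v⁻¹ := isAlgebraic_iff_isIntegral.1 h.inv
    refine mem_of_integral (⊥ : Subalgebra k F) O ?_ h5.tower_top
    intro a ha
    obtain ⟨c, rfl⟩ := Algebra.mem_bot.1 ha
    exact hO c
  exact ⟨v, w, Φ, finish htr O v w Φ hvO hwO htrv h1 h2 h3 h4 (fun _ => hvO') (fun _ => hfac)
    (fun _ => hres)⟩

theorem germ_top {k F : Type u} [Field k] [PerfectField k] [Field F] [Algebra k F]
    [Algebra.EssFiniteType k F] (htr : Algebra.trdeg k F = 1) :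
    ∃ (v w : F) (Φ : MvPolynomial (Fin 2) k), IsGerm (⊤ : ValuationSubring F) v w Φ := by
  classical
  obtain ⟨v, hv, hsep⟩ := exists_sep k F htr
  set O : ValuationSubring F := ⊤ with hOt
  have hmem : ∀ g : F, g ∈ O := fun g => ValuationSubring.mem_top g
  let iF : k[X] →ₐ[k] F := aeval v
  let _ : Algebra k[X] F := iF.toRingHom.toAlgebra
  have halg : ∀ p : k[X], algebraMap k[X] F p = aeval v p := fun p => rfl
  have : IsScalarTower k k[X] F := IsScalarTower.of_algebraMap_eq fun r => by
    rw [halg]; simp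
  let iO : k[X] →+* O := (algebraMap k[X] F).codRestrict O.toSubring fun p => hmem _
  let _ : Algebra k[X] O := iO.toAlgebra
  have : IsScalarTower k[X] O F := IsScalarTower.of_algebraMap_eq fun r => rfl
  have hX : algebraMap k[X] F X = v := by rw [halg, aeval_X]
  -- a finitely generated subalgebra
  obtain ⟨s, hs⟩ := IntermediateField.fg_top k F
  let B : Subalgebra k F := Algebra.adjoin k (insert v s : Finset F)
  have hvB : v ∈ B := Algebra.subset_adjoin (by simp)
  let B' : Subalgebra k[X] F :=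
    { B with
      algebraMap_mem' := fun p => by
        have h1 : Algebra.adjoin k {v} ≤ B := Algebra.adjoin_le (Set.singleton_subset_iff.2 hvB)
        exact h1 (by rw [Algebra.adjoin_singleton_eq_range_aeval]; exact ⟨p, rfl⟩) }
  have hft : Algebra.FiniteType k[X] B' := by
    have h1 : Algebra.FiniteType k B := (Subalgebra.fg_iff_finiteType _).1 (Subalgebra.fg_adjoin_finset _)
    have h2 : Algebra.FiniteType k B' := h1
    exact Algebra.FiniteType.of_restrictScalars_finiteType k k[X] B'
  have hloc : ∀ g ∈ O, ∃ a ∈ B', ∃ s ∈ B', s ≠ 0 ∧ s⁻¹ ∈ O ∧ g = a / s := by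
    intro g _
    have h1 : g ∈ IntermediateField.adjoin k (insert v s : Finset F) := by
      have h2 : IntermediateField.adjoin k (s : Set F) ≤ IntermediateField.adjoin k (insert v s : Finset F) :=
        IntermediateField.adjoin.mono _ _ _ (by simp)
      exact h2 (by rw [hs]; trivial)
    obtain ⟨a, ha, b, hb, hab⟩ := IntermediateField.mem_adjoin_iff_div.1 h1
    by_cases hb0 : b = 0
    · refine ⟨0, B'.zero_mem, 1, B'.one_mem, one_ne_zero, hmem _, ?_⟩
      rw [hab, hb0, div_zero, zero_div]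
    · exact ⟨a, ha, b, hb, hb0, hmem _, hab⟩
  have hur : Algebra.FormallyUnramified k[X] O := by
    let e := Polynomial.algEquivOfTranscendental k v hv
    let _ : Algebra k[X] (Algebra.adjoin k {v}) := e.toRingEquiv.toRingHom.toAlgebra
    let _ : Algebra k[X] k⟮v⟯ :=
      ((algebraMap (Algebra.adjoin k {v}) k⟮v⟯).comp e.toRingEquiv.toRingHom).toAlgebra
    have t1 : IsScalarTower k[X] (Algebra.adjoin k {v}) k⟮v⟯ := IsScalarTower.of_algebraMap_eq fun r => rfl
    have t2 : IsScalarTower k[X] k⟮v⟯ F := IsScalarTower.of_algebraMap_eq fun r => by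
      show aeval v r = ((e r : Algebra.adjoin k {v}) : F)
      simp [e]
    have u1 : Algebra.FormallyUnramified k[X] (Algebra.adjoin k {v}) :=
      Algebra.FormallyUnramified.of_surjective (Algebra.ofId k[X] (Algebra.adjoin k {v})) e.surjective
    have u2 : Algebra.FormallyUnramified (Algebra.adjoin k {v}) k⟮v⟯ :=
      Algebra.FormallyUnramified.of_isLocalization (nonZeroDivisors (Algebra.adjoin k {v}))
    have u3 : Algebra.FormallyUnramified k[X] k⟮v⟯ := Algebra.FormallyUnramified.comp _ (Algebra.adjoin k {v}) _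
    have u4 : Algebra.FormallyUnramified k⟮v⟯ F := Algebra.FormallyUnramified.of_isSeparable _ _
    have u5 : Algebra.FormallyUnramified k[X] F := Algebra.FormallyUnramified.comp _ k⟮v⟯ _
    exact Algebra.FormallyUnramified.of_equiv (AlgEquiv.ofBijective (IsScalarTower.toAlgHom k[X] O F)
      ⟨Subtype.val_injective, fun g => ⟨⟨g, hmem g⟩, rfl⟩⟩).symm
  obtain ⟨w, Φ, hwO, h1, h2, h3, h4⟩ := germ_core (k := k) O B' (fun b hb => hmem b)
    hloc (fun _ => hur)
  rw [hX] at h1 h2 h3 h4
  exact ⟨v, w, Φ, finish htr O v w Φ (hmem _) hwO hv h1 h2 h3 h4 (fun h => absurd hOt h)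
    (fun h => absurd hOt h) (fun h => absurd hOt h)⟩

end LU.Curve

namespace LU

universe u

open scoped IntermediateField

theorem exists_germ {k F : Type u} [Field k] [PerfectField k] [Field F] [Algebra k F]
    [Algebra.EssFiniteType k F] (htr : Algebra.trdeg k F = 1) (O : ValuationSubring F)
    (hO : ∀ c : k, algebraMap k F c ∈ O) :
    ∃ (v w : F) (Φ : MvPolynomial (Fin 2) k), IsGerm O v w Φ := by
  by_cases h : O = ⊤
  · subst h
    exact Curve.germ_top htr
  · exact Curve.germ_ne_top htr O hO h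

end LU
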