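import Pool.Agent.helper90.LU.Asm

open IsLocalRing

namespace LU

universe u

/-- Data of a wild tower over an etale frame, adapted to the valuation. -/
structure Dat {k K : Type u} [Field k] [Field K] [Algebra k K] (V : ValuationSubring K)
    (p : ℕ) where
  n : ℕ
  r : ℕ
  s : ℕ
  u : Fin n → K
  w : Fin n → K
  Φ : Fin n → MvPolynomial (Fin 2) k
  N : Fin n → MvPolynomial (Fin 2) k
  D : Fin n → MvPolynomial (Fin 2) k
  e : Fin n → ℕ
  t : Fin r → K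
  a : Fin r → Fin n → k
  T : Fin s → K
  b : Fin s → Fin n → k
  π : Fin r → Fin n
  hu0 : ∀ i, u i ≠ 0
  huV : ∀ i, u i ∈ V
  hwV : ∀ i, w i ∈ V
  hΦ : ∀ i, MvPolynomial.aeval ![u i, w i] (Φ i) = 0
  hΦ0 : ∀ i, MvPolynomial.aeval ![u i, w i] (MvPolynomial.pderiv 1 (Φ i)) ≠ 0
  hΦV : ∀ i, (MvPolynomial.aeval ![u i, w i] (MvPolynomial.pderiv 1 (Φ i)))⁻¹ ∈ V
  hD0 : ∀ i, MvPolynomial.aeval ![u i, w i] (D i) ≠ 0
  hDV : ∀ i, (MvPolynomial.aeval ![u i, w i] (D i))⁻¹ ∈ V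
  heu : ∀ i, e i ≠ 0 → (u i)⁻¹ ∉ V
  heN : ∀ i, e i ≠ 0 → MvPolynomial.aeval ![u i, w i] (N i) ≠ 0
  heNV : ∀ i, e i ≠ 0 → (MvPolynomial.aeval ![u i, w i] (N i))⁻¹ ∈ V
  hep : ∀ i, e i ≠ 0 → (e i : k) ≠ 0
  ht0 : ∀ j, t j ≠ 0
  ht : ∀ j, t j ^ p - t j = ∑ i, algebraMap k K (a j i) *
    (MvPolynomial.aeval ![u i, w i] (N i) / MvPolynomial.aeval ![u i, w i] (D i) *
      (u i ^ e i)⁻¹)
  hTV : ∀ l, T l ∈ V
  hT : ∀ l, T l ^ p - T l = ∑ i, algebraMap k K (b l i) *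
    (MvPolynomial.aeval ![u i, w i] (N i) / MvPolynomial.aeval ![u i, w i] (D i))
  hπ1 : ∀ j, a j (π j) ≠ 0
  hπ2 : ∀ j l, l ≠ j → a l (π j) = 0
  hπ3 : ∀ j, e (π j) ≠ 0
  hdom : ∀ j i, a j i ≠ 0 → u (π j) ^ e (π j) * (u i ^ e i)⁻¹ ∈ V
  halg : AlgebraicIndependent k u
  hgen : IntermediateField.adjoin k
    (Set.range u ∪ Set.range w ∪ Set.range t ∪ Set.range T) = ⊤

namespace Dat

variable {k K : Type u} [Field k] [Field K] [Algebra k K] {V : ValuationSubring K} {p : ℕ}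
  (d : Dat (k := k) V p)

/-- evaluation at the germ -/
noncomputable def ev (i : Fin d.n) (q : MvPolynomial (Fin 2) k) : K :=
  MvPolynomial.aeval ![d.u i, d.w i] q

/-- sign making `t` integral -/
noncomputable def sgn (j : Fin d.r) : ℤ := by
  classical exact if d.t j ∈ V then 1 else -1

noncomputable def τ (j : Fin d.r) : K := d.t j ^ d.sgn j

lemma τ_ne (j : Fin d.r) : d.τ j ≠ 0 := zpow_ne_zero _ (d.ht0 j)

lemma τ_mem (j : Fin d.r) : d.τ j ∈ V := by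
  unfold τ sgn
  split_ifs with h
  · simpa using h
  · rw [zpow_neg, zpow_one]
    exact (V.mem_or_inv_mem _).resolve_left h

lemma τ_pow (j : Fin d.r) : d.τ j ^ d.sgn j = d.t j := by
  unfold τ sgn
  split_ifs with h
  · simp
  · simp

/-- the frame -/
noncomputable def c : Fin d.n ⊕ Fin d.r → K := Sum.elim d.u d.τ

lemma c_ne (x : Fin d.n ⊕ Fin d.r) : d.c x ≠ 0 := by
  rcases x with i | j
  · exact d.hu0 i
  · exact d.τ_ne j

lemma c_mem (x : Fin d.n ⊕ Fin d.r) : d.c x ∈ V := by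
  rcases x with i | j
  · exact d.huV i
  · exact d.τ_mem j

/-- exponents -/
noncomputable def exA (m : ℕ) (j : Fin d.r) : Fin d.n ⊕ Fin d.r → ℤ :=
  Pi.single (Sum.inl (d.π j)) (d.e (d.π j) : ℤ) + Pi.single (Sum.inr j) (m * d.sgn j)

noncomputable def exC (j : Fin d.r) (i : Fin d.n) : Fin d.n ⊕ Fin d.r → ℤ :=
  Pi.single (Sum.inl (d.π j)) (d.e (d.π j) : ℤ) - Pi.single (Sum.inl i) (d.e i : ℤ)

noncomputable def exC' (j : Fin d.r) (i : Fin d.n) : Fin d.n ⊕ Fin d.r → ℤ := by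
  classical exact if d.a j i = 0 then 0 else d.exC j i

lemma mon_exA (m : ℕ) (j : Fin d.r) :
    mon d.c (d.exA m j) = d.u (d.π j) ^ d.e (d.π j) * d.t j ^ m := by
  rw [exA, mon_add d.c_ne, mon_single, mon_single]
  congr 1
  · change d.u (d.π j) ^ ((d.e (d.π j) : ℕ) : ℤ) = _
    rw [zpow_natCast]
  · change d.τ j ^ ((m : ℤ) * d.sgn j) = _
    rw [mul_comm, zpow_mul, d.τ_pow, zpow_natCast]

lemma mon_exC (j : Fin d.r) (i : Fin d.n) :
    mon d.c (d.exC j i) = d.u (d.π j) ^ d.e (d.π j) * (d.u i ^ d.e i)⁻¹ := by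
  rw [exC, mon_sub d.c_ne, mon_single, mon_single, div_eq_mul_inv]
  change d.u (d.π j) ^ ((d.e (d.π j) : ℕ) : ℤ) * (d.u i ^ ((d.e i : ℕ) : ℤ))⁻¹ = _
  rw [zpow_natCast, zpow_natCast]

variable (hV : ∀ c : k, algebraMap k K c ∈ V)

include hV in
lemma ev_mem (i : Fin d.n) (q : MvPolynomial (Fin 2) k) :
    MvPolynomial.aeval ![d.u i, d.w i] q ∈ V := by
  apply aeval_mem hV
  intro x
  fin_cases x
  · exact d.huV i
  · exact d.hwV i

include hV in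
lemma bounds (hp : 2 ≤ p) (j : Fin d.r) :
    d.u (d.π j) ^ d.e (d.π j) * d.t j ^ p ∈ V ∧ d.u (d.π j) ^ d.e (d.π j) * d.t j ∈ V := by
  refine as_bound hp (pow_mem (d.huV _) _) (d.ht j) ?_
  rw [Finset.mul_sum]
  refine sum_mem fun i _ => ?_
  by_cases ha : d.a j i = 0
  · rw [ha, map_zero, zero_mul, mul_zero]
    exact zero_mem _
  · have : d.u (d.π j) ^ d.e (d.π j) * (algebraMap k K (d.a j i) *
        (MvPolynomial.aeval ![d.u i, d.w i] (d.N i) / MvPolynomial.aeval ![d.u i, d.w i] (d.D i) *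
        (d.u i ^ d.e i)⁻¹)) = algebraMap k K (d.a j i) *
        MvPolynomial.aeval ![d.u i, d.w i] (d.N i) *
        (MvPolynomial.aeval ![d.u i, d.w i] (d.D i))⁻¹ *
        (d.u (d.π j) ^ d.e (d.π j) * (d.u i ^ d.e i)⁻¹) := by
      rw [div_eq_mul_inv]; ring
    rw [this]
    exact mul_mem (mul_mem (mul_mem (hV _) (d.ev_mem hV _ _)) (d.hDV i)) (d.hdom j i ha)

/-- all exponents used -/
noncomputable def exF (p : ℕ) {V : ValuationSubring K} (d : Dat (k := k) V p) :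
    Fin d.r ⊕ Fin d.r ⊕ (Fin d.r × Fin d.n) → Fin d.n ⊕ Fin d.r → ℤ :=
  Sum.elim (d.exA p) (Sum.elim (d.exA 1) (fun x => d.exC' x.1 x.2))

include hV in
lemma exists_st (hp : 2 ≤ p) :
    ∃ C D : Matrix (Fin d.n ⊕ Fin d.r) (Fin d.n ⊕ Fin d.r) ℤ, IsSt V d.c C D ∧
      (∀ j, Good V d.c C D (d.exA p j)) ∧ (∀ j, Good V d.c C D (d.exA 1 j)) ∧
      (∀ j i, Good V d.c C D (d.exC' j i)) := by
  classical
  obtain ⟨C, D, h1, h2⟩ := perron_fam d.c_ne d.c_mem (exF p d) (by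
    rintro (j | j | ⟨j, i⟩)
    · change mon d.c (d.exA p j) ∈ V
      rw [mon_exA]
      exact (d.bounds hV hp j).1
    · change mon d.c (d.exA 1 j) ∈ V
      rw [mon_exA, pow_one]
      exact (d.bounds hV hp j).2
    · change mon d.c (d.exC' j i) ∈ V
      unfold exC'
      split_ifs with ha
      · have : mon d.c 0 = 1 := by simp [mon]
        rw [this]
        exact one_mem _
      · rw [mon_exC]
        exact d.hdom j i ha)
  exact ⟨C, D, h1, fun j => h2 (Sum.inl j), fun j => h2 (Sum.inr (Sum.inl j)),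
    fun j i => h2 (Sum.inr (Sum.inr (j, i)))⟩

end Dat

end LU
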