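import Pool.Agent.helper90.LU.Build
import Pool.Agent.helper90.LU.Indep
import Pool.Agent.helper90.LU.Amb

namespace LU

universe u

/-- The statement of the local structure of curves. -/
def GermThm (k : Type u) [Field k] (p : ℕ) : Prop :=
  ∀ (F : Type u) [Field F] [Algebra k F], Algebra.EssFiniteType k F → Algebra.trdeg k F = 1 →
    ∀ O : ValuationSubring F, (∀ c : k, algebraMap k F c ∈ O) →
      (∃ (v w : F) (Φ : MvPolynomial (Fin 2) k), IsGerm O v w Φ) ∧ (O ≠ ⊤ → HasRoots O p)

section zero

variable {k K : Type u} [Field k] [Field K] [Algebra k K] (p : ℕ) [Fact p.Prime] [CharP k p]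

include p in
lemma lu_zero (V : ValuationSubring K) (hV : ∀ c : k, algebraMap k K c ∈ V)
    (h : (⊤ : IntermediateField k K) = ⊥) : Uniformizable k V := by
  let d : Dat (k := k) V p :=
    { n := 0, r := 0, s := 0
      u := fun i => i.elim0, w := fun i => i.elim0, Φ := fun i => i.elim0
      N := fun i => i.elim0, D := fun i => i.elim0, e := fun i => i.elim0
      t := fun i => i.elim0, a := fun i => i.elim0, T := fun i => i.elim0
      b := fun i => i.elim0, π := fun i => i.elim0
      hu0 := fun i => i.elim0, huV := fun i => i.elim0, hwV := fun i => i.elim0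
      hΦ := fun i => i.elim0, hΦ0 := fun i => i.elim0, hΦV := fun i => i.elim0
      hD0 := fun i => i.elim0, hDV := fun i => i.elim0, heu := fun i => i.elim0
      heN := fun i => i.elim0, heNV := fun i => i.elim0, hep := fun i => i.elim0
      ht0 := fun i => i.elim0, ht := fun i => i.elim0, hTV := fun i => i.elim0
      hT := fun i => i.elim0, hπ1 := fun i => i.elim0, hπ2 := fun i => i.elim0
      hπ3 := fun i => i.elim0, hdom := fun i => i.elim0
      halg := algebraicIndependent_empty_type_iff.2 (algebraMap k K).injective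
      hgen := le_antisymm le_top (by rw [h]; exact bot_le) }
  exact uniformizable_of_dat d hV

end zero

section final

variable {k L : Type u} [Field k] [Field L] [Algebra k L] (p : ℕ)
  [Fact p.Prime] [CharP k p] {n : ℕ}

theorem lu_main (hgerm : GermThm k p) (F : Fin n → IntermediateField k L)
    (hfg : ∀ i, Algebra.EssFiniteType k (F i)) (hcurve : ∀ i, Algebra.trdeg k (F i) = 1)
    (y : Fin n → L) (hy : ∀ i, y i ^ p - y i ∈ F i) (K : IntermediateField k L)
    (hK0 : ∀ i, F i ≤ K)
    (hK1 : K ≤ (⨆ i, F i) ⊔ IntermediateField.adjoin k (Set.range y))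
    (htr : Algebra.trdeg k K = n) (V : ValuationSubring K)
    (hV : ∀ c : k, algebraMap k K c ∈ V) : Uniformizable k V := by
  classical
  have hp : 2 ≤ p := (Fact.out : p.Prime).two_le
  have hCL : CharP L p := charP_of_injective_algebraMap (algebraMap k L).injective p
  have hCK : CharP K p := charP_of_injective_algebraMap (algebraMap k K).injective p
  have hEL : ExpChar L p := ExpChar.prime Fact.out
  rcases Nat.eq_zero_or_pos n with rfl | hn
  · refine lu_zero p V hV ?_
    have h1 : K ≤ ⊥ := by
      refine hK1.trans ?_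
      rw [iSup_of_empty, bot_sup_eq, IntermediateField.adjoin_le_iff]
      rintro _ ⟨i, rfl⟩
      exact i.elim0
    rw [eq_bot_iff]
    rintro ⟨x, hx⟩ -
    obtain ⟨c, hc⟩ := IntermediateField.mem_bot.1 (h1 hx)
    exact IntermediateField.mem_bot.2 ⟨c, Subtype.ext hc⟩
  have : NeZero n := ⟨by omega⟩
  -- the curves inside `K`
  let F' : Fin n → IntermediateField k K := fun i => IntermediateField.restrict (hK0 i)
  let e : ∀ i, F i ≃ₐ[k] F' i := fun i => IntermediateField.restrictAlgEquiv (hK0 i)
  have hfg' : ∀ i, Algebra.EssFiniteType k (F' i) := fun i =>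
    (Algebra.EssFiniteType.iff_of_algEquiv (e i)).1 (hfg i)
  have hcurve' : ∀ i, Algebra.trdeg k (F' i) = 1 := fun i => by
    rw [← (e i).trdeg_eq]; exact hcurve i
  choose v w Φ hG using fun i =>
    (hgerm (F' i) (hfg' i) (hcurve' i) (tr V (F' i)) (fun c => hV c)).1
  have hroot : ∀ i, tr V (F' i) ≠ ⊤ → HasRoots (tr V (F' i)) p := fun i =>
    (hgerm (F' i) (hfg' i) (hcurve' i) (tr V (F' i)) (fun c => hV c)).2
  -- the generators
  let K0 : IntermediateField k L := ⨆ i, F i
  have hFK0 : ∀ i, F i ≤ K0 := fun i => le_iSup F i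
  have hK0K : K0 ≤ K := iSup_le hK0
  have hgen := gal_ambient (p := p) K0 K hK0K y (fun i => hFK0 i (hy i)) hK1
  let Λ := {a : Fin n → ZMod p // (∑ i, zK p (a i) * y i : L) ∈ K}
  have : Fintype Λ := Fintype.ofFinite _
  let r := Fintype.card Λ
  let eΛ : Fin r ≃ Λ := (Fintype.equivFin Λ).symm
  let y' : Fin r → K := fun j => ⟨_, (eΛ j).2⟩
  let a : Fin r → Fin n → ZMod p := fun j => (eΛ j).1
  let g : ∀ i, F' i := fun i => e i ⟨_, hy i⟩
  have hgval : ∀ i, (((g i : K)) : L) = y i ^ p - y i := fun i => rfl
  have hzK : ∀ c : ZMod p, ((zK p c : K) : L) = zK p c := by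
    intro c
    have : (algebraMap K L).comp (zK p) = zK p := Subsingleton.elim _ _
    exact congrArg (fun g => g c) this
  have hy' : ∀ j, y' j ^ p - y' j = ∑ i, zK p (a j i) * (g i : K) := by
    intro j
    apply Subtype.ext
    have e1 : ((∑ i, zK p (a j i) * (g i : K) : K) : L) =
        ∑ i, zK p (a j i) * (y i ^ p - y i) := by
      change algebraMap K L (∑ i, zK p (a j i) * (g i : K)) = _
      rw [map_sum]
      refine Finset.sum_congr rfl fun i _ => ?_
      rw [map_mul]
      exact congrArg₂ (· * ·) (hzK _) (hgval i)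
    have e2 : ((y' j ^ p - y' j : K) : L) =
        (∑ i, zK p (a j i) * y i) ^ p - ∑ i, zK p (a j i) * y i := rfl
    rw [e1, e2, sum_pow_char, ← Finset.sum_sub_distrib]
    refine Finset.sum_congr rfl fun i _ => ?_
    rw [mul_pow, zK_pow, mul_sub]
  have hgen' : (⨆ i, F' i) ⊔ IntermediateField.adjoin k (Set.range y') = ⊤ := by
    apply IntermediateField.map_injective K.val
    rw [IntermediateField.map_sup, IntermediateField.map_iSup, IntermediateField.adjoin_map,
      ← Set.range_comp, ← AlgHom.fieldRange_eq_map, IntermediateField.fieldRange_val]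
    have e3 : (⨆ i, (F' i).map K.val) = K0 := by
      refine iSup_congr fun i => ?_
      exact IntermediateField.lift_restrict (hK0 i)
    rw [e3]
    have e4 : Set.range (K.val ∘ y') = {x | x ∈ K ∧ ∃ a : Fin n → ZMod p,
        x = ∑ i, zK p (a i) * y i} := by
      ext x
      constructor
      · rintro ⟨j, rfl⟩
        exact ⟨(y' j).2, a j, rfl⟩
      · rintro ⟨hx, b, rfl⟩
        refine ⟨eΛ.symm ⟨b, hx⟩, ?_⟩
        change ∑ i, zK p ((eΛ (eΛ.symm ⟨b, hx⟩)).1 i) * y i = _
        rw [Equiv.apply_symm_apply]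
    rw [e4]
    refine le_antisymm (sup_le hK0K ?_) hgen
    rw [IntermediateField.adjoin_le_iff]
    rintro x ⟨hx, -⟩
    exact hx
  have hind : AlgebraicIndependent k (fun i => (v i : K)) := by
    refine indep_of_trdeg _ ?_ htr
    refine algebraic_of_gen F' v (fun i => (hG i).alg) hp y' (fun j => ?_) hgen'
    rw [hy']
    refine sum_mem fun i _ => mul_mem ?_ ((le_iSup F' i) (g i).2)
    have : (zK p (a j i) : K) = (((a j i).val : ℕ) : K) := by
      rw [zK, ZMod.castHom_apply, ZMod.natCast_val]
    rw [this]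
    exact natCast_mem _ _
  exact lu_of_germs p V hV F' v w Φ hG hroot hind g y' a hy' hgen'

end final

end LU
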