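import Pool.Agent.helper90.LU.Final
import Pool.Agent.helper90.LU.CurveP

namespace LU

universe u

theorem germThm_of_perfect (k : Type u) [Field k] [PerfectField k] (p : ℕ) [Fact p.Prime]
    [CharP k p] : GermThm k p := by
  intro F _ _ hfg htr O hO
  obtain ⟨v, w, Φ, hG⟩ := exists_germ htr O hO
  refine ⟨⟨v, w, Φ, hG⟩, fun hne => ?_⟩
  have : CharP (IsLocalRing.ResidueField O) p :=
    charP_of_injective_ringHom ((IsLocalRing.residue O).comp (kO hO)).injective p
  exact hasRoots_of_perfect p (perfect_residue hO (hG.res hne))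

/-- Local uniformization, perfect ground field. -/
theorem lu_perfect {k L : Type u} [Field k] [PerfectField k] [Field L] [Algebra k L] (p : ℕ)
    [Fact p.Prime] [CharP k p] {n : ℕ} (F : Fin n → IntermediateField k L)
    (hfg : ∀ i, Algebra.EssFiniteType k (F i)) (hcurve : ∀ i, Algebra.trdeg k (F i) = 1)
    (y : Fin n → L) (hy : ∀ i, y i ^ p - y i ∈ F i) (K : IntermediateField k L)
    (hK0 : ∀ i, F i ≤ K)
    (hK1 : K ≤ (⨆ i, F i) ⊔ IntermediateField.adjoin k (Set.range y))
    (htr : Algebra.trdeg k K = n) (V : ValuationSubring K)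
    (hV : ∀ c : k, algebraMap k K c ∈ V) : Uniformizable k V :=
  lu_main p (germThm_of_perfect k p) F hfg hcurve y hy K hK0 hK1 htr V hV

end LU
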