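import Pool.Agent.helper90.LU.Ech

namespace LU

open Polynomial

section

variable {F E : Type*} [Field F] [Field E] [Algebra F E] {p : ℕ} [Fact p.Prime] [CharP E p]

/-- the Artin-Schreier polynomial -/
noncomputable def asP (p : ℕ) (f : F) : F[X] := X ^ p - X - C f

lemma asP_monic (f : F) : (asP p f).Monic := by
  have hp : 1 < p := (Fact.out : p.Prime).one_lt
  unfold asP
  rw [sub_sub]
  apply monic_X_pow_sub
  calc (X + C f : F[X]).degree ≤ max (X : F[X]).degree (C f).degree := degree_add_le _ _
    _ ≤ max 1 0 := max_le_max degree_X_le degree_C_le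
    _ = 1 := by decide
    _ < p := by exact_mod_cast hp

omit [Fact p.Prime] in
lemma asP_sep [CharP F p] (f : F) : (asP p f).Separable := by
  unfold Polynomial.Separable
  have : derivative (asP p f) = -1 := by
    unfold asP
    rw [derivative_sub, derivative_sub, derivative_X_pow, CharP.cast_eq_zero]
    simp
  rw [this]
  exact isCoprime_one_right.neg_right

omit [Fact p.Prime] [CharP E p] in
lemma asP_aeval {y : E} {f : F} (hy : y ^ p - y = algebraMap F E f) :
    aeval y (asP p f) = 0 := by
  unfold asP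
  simp [hy]

lemma asP_splits {y : E} {f : F} (hy : y ^ p - y = algebraMap F E f) :
    ((asP p f).map (algebraMap F E)).Splits := by
  have : ExpChar E p := ExpChar.prime Fact.out
  have h1 : (asP p f).map (algebraMap F E) =
      (((X ^ p - X : (ZMod p)[X]).map (zK p)).comp (X - C y)) := by
    unfold asP
    simp only [Polynomial.map_sub, Polynomial.map_pow, map_X, map_C, sub_comp, pow_comp, X_comp]
    rw [← hy, sub_pow_expChar, ← C_pow]
    simp only [C_sub]
    ring
  rw [h1]
  exact ((GaloisField.splits_zmod_X_pow_sub_X p).map _).comp_of_natDegree_le_one_of_monic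
    (natDegree_X_sub_C_le y) (monic_X_sub_C y)

lemma exists_zK {x : E} (hx : x ^ p = x) : ∃ c : ZMod p, x = zK p c := by
  have h1 := (Subfield.mem_bot_iff_pow_eq_self E p).2 hx
  rw [← ZMod.fieldRange_castHom_eq_bot p] at h1
  obtain ⟨c, hc⟩ := h1
  exact ⟨c, hc.symm⟩

theorem galois_as [CharP F p] {n : ℕ} (y : Fin n → E) (f : Fin n → F)
    (hy : ∀ i, y i ^ p - y i = algebraMap F E (f i))
    (hgen : IntermediateField.adjoin F (Set.range y) = ⊤) (K : IntermediateField F E) :
    K ≤ IntermediateField.adjoin F {x | x ∈ K ∧ ∃ a : Fin n → ZMod p,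
      x = ∑ i, zK p (a i) * y i} := by
  classical
  have : ExpChar E p := ExpChar.prime Fact.out
  have hint : ∀ i, IsIntegral F (y i) := fun i =>
    ⟨asP p (f i), asP_monic _, by rw [← aeval_def]; exact asP_aeval (hy i)⟩
  have hdvd : ∀ i, minpoly F (y i) ∣ asP p (f i) := fun i => minpoly.dvd _ _ (asP_aeval (hy i))
  have hsepE : Algebra.IsSeparable F E := by
    rw [← IntermediateField.isSeparable_top, ← hgen, IntermediateField.isSeparable_adjoin_iff_isSeparable]
    rintro _ ⟨i, rfl⟩
    exact (asP_sep (f i)).of_dvd (hdvd i)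
  have hfin : FiniteDimensional F E := by
    have h1 : FiniteDimensional F (IntermediateField.adjoin F (Set.range y)) := by
      apply IntermediateField.finiteDimensional_adjoin
      rintro _ ⟨i, rfl⟩
      exact hint i
    rw [hgen] at h1
    exact IntermediateField.topEquiv.toLinearEquiv.finiteDimensional
  have hnormal : Normal F E := by
    refine normal_iff.2 fun x => ⟨Algebra.IsIntegral.isIntegral x, ?_⟩
    have hx : x ∈ IntermediateField.adjoin F (Set.range y) := by rw [hgen]; trivial
    refine IntermediateField.splits_of_mem_adjoin F E (S := Set.range y) ?_ hx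
    rintro _ ⟨i, rfl⟩
    refine ⟨hint i, ?_⟩
    refine (asP_splits (hy i)).of_dvd ?_ ?_
    · exact ((asP_monic (f i)).map _).ne_zero
    · exact Polynomial.map_dvd _ (hdvd i)
  have hgal : IsGalois F E := ⟨⟩
  set K1 := IntermediateField.adjoin F {x | x ∈ K ∧ ∃ a : Fin n → ZMod p,
      x = ∑ i, zK p (a i) * y i} with hK1
  -- the additive characters
  have hzfix : ∀ (σ : E ≃ₐ[F] E) (c : ZMod p), σ (zK p c) = zK p c := by
    intro σ c
    have : (zK p c : E) = ((c.val : ℕ) : E) := by
      rw [zK, ZMod.castHom_apply, ZMod.natCast_val]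
    rw [this, map_natCast]
  have hc : ∀ (σ : E ≃ₐ[F] E) (i : Fin n), ∃ c : ZMod p, σ (y i) = y i + zK p c := by
    intro σ i
    have h1 : (σ (y i) - y i) ^ p = σ (y i) - y i := by
      have h2 := congrArg σ (hy i)
      rw [map_sub, map_pow, AlgEquiv.commutes, ← hy i] at h2
      rw [sub_pow_expChar]
      linear_combination h2
    obtain ⟨c, hc⟩ := exists_zK h1
    exact ⟨c, by rw [← hc]; ring⟩
  choose c hc using hc
  have hzinj : Function.Injective (zK p : ZMod p →+* E) := (zK p).injective
  have hcmul : ∀ σ τ : E ≃ₐ[F] E, c (σ * τ) = c σ + c τ := by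
    intro σ τ
    funext i
    apply hzinj
    have h1 := hc (σ * τ) i
    rw [AlgEquiv.mul_apply, hc τ i, map_add, hc σ i, hzfix] at h1
    rw [Pi.add_apply, map_add]
    linear_combination -h1
  have hcone : c 1 = 0 := by
    have := hcmul 1 1
    rw [mul_one] at this
    simpa using this
  have hcinv : ∀ σ : E ≃ₐ[F] E, c σ⁻¹ = - c σ := by
    intro σ
    have := hcmul σ σ⁻¹
    rw [mul_inv_cancel, hcone] at this
    exact (neg_eq_of_add_eq_zero_right this.symm).symm
  have hcinj : Function.Injective c := by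
    intro σ τ h
    have h1 : ∀ x ∈ IntermediateField.adjoin F (Set.range y), σ x = τ x := by
      intro x hx
      have h2 : (σ : E →ₐ[F] E).comp (IntermediateField.adjoin F (Set.range y)).val =
          (τ : E →ₐ[F] E).comp (IntermediateField.adjoin F (Set.range y)).val := by
        apply IntermediateField.algHom_ext_of_eq_adjoin F rfl
        rintro _ ⟨i, rfl⟩
        change σ (y i) = τ (y i)
        rw [hc, hc, h]
      exact congrArg (fun g => g ⟨x, hx⟩) h2
    ext x
    exact h1 x (by rw [hgen]; trivial)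
  let CH : AddSubgroup (Fin n → ZMod p) :=
    { carrier := {v | ∃ τ ∈ K.fixingSubgroup, c τ = v}
      zero_mem' := ⟨1, one_mem _, hcone⟩
      add_mem' := by
        rintro _ _ ⟨σ, hσ, rfl⟩ ⟨τ, hτ, rfl⟩
        exact ⟨σ * τ, mul_mem hσ hτ, hcmul σ τ⟩
      neg_mem' := by
        rintro _ ⟨σ, hσ, rfl⟩
        exact ⟨σ⁻¹, inv_mem hσ, hcinv σ⟩ }
  have hsub : K1.fixingSubgroup ≤ K.fixingSubgroup := by
    intro σ hσ
    by_contra hσK
    have hnot : c σ ∉ AddSubgroup.toZModSubmodule p CH := by
      rw [AddSubgroup.mem_toZModSubmodule]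
      rintro ⟨τ, hτ, h⟩
      rw [← hcinj h] at hσK
      exact hσK hτ
    obtain ⟨g, hg, hker⟩ := Submodule.exists_le_ker_of_notMem hnot
    let a : Fin n → ZMod p := fun i => g (Pi.single i 1)
    have hga : ∀ v, g v = ∑ i, a i * v i := by
      intro v
      rw [LinearMap.pi_apply_eq_sum_univ g v]
      refine Finset.sum_congr rfl fun i _ => ?_
      rw [smul_eq_mul, mul_comm]
      congr 2
      funext j
      simp [Pi.single_apply, eq_comm]
    have hact : ∀ τ : E ≃ₐ[F] E, τ (∑ i, zK p (a i) * y i) =
        (∑ i, zK p (a i) * y i) + zK p (g (c τ)) := by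
      intro τ
      rw [map_sum, hga, map_sum, ← Finset.sum_add_distrib]
      refine Finset.sum_congr rfl fun i _ => ?_
      rw [map_mul, hzfix, hc τ i, map_mul, mul_add]
    have hyK : (∑ i, zK p (a i) * y i) ∈ K := by
      rw [← IsGalois.fixedField_fixingSubgroup K]
      rintro ⟨τ, hτ⟩
      change τ (∑ i, zK p (a i) * y i) = _
      rw [hact]
      have : g (c τ) = 0 := hker ⟨τ, hτ, rfl⟩
      rw [this, map_zero, add_zero]
    have hyK1 : (∑ i, zK p (a i) * y i) ∈ K1 :=
      IntermediateField.subset_adjoin _ _ ⟨hyK, a, rfl⟩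
    have h1 : σ (∑ i, zK p (a i) * y i) = ∑ i, zK p (a i) * y i := hσ ⟨_, hyK1⟩
    rw [hact] at h1
    apply hg
    apply hzinj
    rw [map_zero]
    linear_combination h1
  rw [← IsGalois.fixedField_fixingSubgroup K, ← IsGalois.fixedField_fixingSubgroup K1]
  intro x hx
  rintro ⟨τ, hτ⟩
  exact hx ⟨τ, hsub hτ⟩

end

end LU
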