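import Mathlib

namespace LU

universe u

open MvPolynomial

/-- An etale coordinate description `F = k(u, w)`, `Φ(u, w) = 0`, of a function field of a curve
at the center of the valuation ring `O`: `u` is a local parameter (or `O = F`), and the
`w`-derivative of `Φ` is a unit. -/
structure IsGerm {k F : Type u} [Field k] [Field F] [Algebra k F] (O : ValuationSubring F)
    (u w : F) (Φ : MvPolynomial (Fin 2) k) : Prop where
  hu0 : u ≠ 0
  huO : u ∈ O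
  hwO : w ∈ O
  hΦ : aeval ![u, w] Φ = 0
  hΦ0 : aeval ![u, w] (pderiv 1 Φ) ≠ 0
  hΦO : (aeval ![u, w] (pderiv 1 Φ))⁻¹ ∈ O
  tr : Transcendental k u
  alg : Algebra.IsAlgebraic (IntermediateField.adjoin k {u}) F
  gen : IntermediateField.adjoin k {u, w} = ⊤
  nontriv : O ≠ ⊤ → u⁻¹ ∉ O
  fac : O ≠ ⊤ → ∀ g : F, g ≠ 0 → ∃ (m : ℤ) (N D : MvPolynomial (Fin 2) k),
    aeval ![u, w] N ≠ 0 ∧ (aeval ![u, w] N)⁻¹ ∈ O ∧
    aeval ![u, w] D ≠ 0 ∧ (aeval ![u, w] D)⁻¹ ∈ O ∧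
    g = u ^ m * (aeval ![u, w] N / aeval ![u, w] D)
  res : O ≠ ⊤ → ∀ g ∈ O, ∃ f : Polynomial k, f ≠ 0 ∧
    (Polynomial.aeval g f = 0 ∨ (Polynomial.aeval g f)⁻¹ ∉ O)

end LU
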