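import Pool.Agent.helper90.LU.Dat

open IsLocalRing

namespace LU

universe u

namespace Dat

variable {k K : Type u} [Field k] [Field K] [Algebra k K] {V : ValuationSubring K} {p : ℕ}
  (d : Dat (k := k) V p) (hV : ∀ c : k, algebraMap k K c ∈ V)
  {C D : Matrix (Fin d.n ⊕ Fin d.r) (Fin d.n ⊕ Fin d.r) ℤ} (hst : IsSt V d.c C D)

/-- index set of the variables -/
abbrev Ix := (Fin d.n ⊕ Fin d.r) ⊕ (Fin d.n ⊕ Fin d.s)

/-- values of the variables -/
noncomputable def zz (D : Matrix (Fin d.n ⊕ Fin d.r) (Fin d.n ⊕ Fin d.r) ℤ) : d.Ix → K :=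
  Sum.elim (fun l => mon d.c (D l)) (Sum.elim d.w d.T)

include hst in
lemma zz_mem (x : d.Ix) : d.zz D x ∈ V := by
  rcases x with l | i | l
  · exact hst.mem l
  · exact d.hwV i
  · exact d.hTV l

/-- the local ring of the center on the ambient affine space -/
abbrev SD := SS V hV (d.zz D) (d.zz_mem hst)

noncomputable abbrev st : MvPolynomial d.Ix k →+* d.SD hV hst :=
  toS V hV (d.zz D) (d.zz_mem hst)

/-- the frame elements as polynomials -/
noncomputable def Ct (C : Matrix (Fin d.n ⊕ Fin d.r) (Fin d.n ⊕ Fin d.r) ℤ)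
    (x : Fin d.n ⊕ Fin d.r) : MvPolynomial d.Ix k :=
  ∏ l, MvPolynomial.X (Sum.inl l) ^ (C x l).toNat

noncomputable def Z (l : Fin d.n ⊕ Fin d.r) : d.SD hV hst :=
  d.st hV hst (MvPolynomial.X (Sum.inl l))

noncomputable def evK : d.SD hV hst →+* K :=
  V.subtype.comp (evS V hV (d.zz D) (d.zz_mem hst))

lemma evK_st (f : MvPolynomial d.Ix k) :
    d.evK hV hst (d.st hV hst f) = MvPolynomial.aeval (d.zz D) f := by
  change ((evS V hV (d.zz D) (d.zz_mem hst) (d.st hV hst f) : V) : K) = _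
  rw [evS_algebraMap, coe_evV]

lemma evK_Z (l) : d.evK hV hst (d.Z hV hst l) = mon d.c (D l) := by
  rw [Z, evK_st, MvPolynomial.aeval_X]
  rfl

/-- monomials of the frame in the local ring -/
noncomputable def MS (a : Fin d.n ⊕ Fin d.r → ℤ) : d.SD hV hst :=
  monS (d.Z hV hst) (Matrix.vecMul a C)

lemma good_unit {a : Fin d.n ⊕ Fin d.r → ℤ} (h : Good V d.c C D a) (l) :
    0 ≤ (Matrix.vecMul a C) l ∨ IsUnit (d.Z hV hst l) := by
  rcases h l with h | h
  · exact Or.inl h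
  · right
    rw [Z, isUnit_toS_iff, MvPolynomial.aeval_X]
    exact ⟨mon_ne_zero d.c_ne _, h⟩

lemma map_Ct {E : Type*} [Field E] (φ : d.SD hV hst →+* E) (x) :
    φ (d.st hV hst (d.Ct C x)) = mon (fun l => φ (d.Z hV hst l)) (C x) := by
  rw [Ct, map_prod, map_prod, mon]
  refine Finset.prod_congr rfl fun l _ => ?_
  rw [map_pow, map_pow, ← zpow_natCast, Int.toNat_of_nonneg (hst.nonneg x l)]
  rfl

lemma map_MS {E : Type*} [Field E] (φ : d.SD hV hst →+* E)
    (hφ : ∀ l, φ (d.Z hV hst l) ≠ 0) {a : Fin d.n ⊕ Fin d.r → ℤ} (h : Good V d.c C D a) :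
    φ (d.MS hV hst a) = mon (fun x => φ (d.st hV hst (d.Ct C x))) a := by
  rw [MS, monS_map φ hφ (d.good_unit hV hst h), ← mon_vecMul hφ]
  congr 1
  funext x
  exact (d.map_Ct hV hst φ x).symm

lemma evK_Z_ne (l) : d.evK hV hst (d.Z hV hst l) ≠ 0 := by
  rw [evK_Z]
  exact mon_ne_zero d.c_ne _

include hV hst in
lemma aeval_Ct (x) : MvPolynomial.aeval (d.zz D) (d.Ct C x) = d.c x := by
  rw [← d.evK_st hV hst, map_Ct]
  simp only [evK_Z]
  rw [mon_vecMul d.c_ne]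
  have : Matrix.vecMul (C x) D = (C * D) x := by
    rfl
  rw [this, hst.CD, mon_one]

lemma evK_MS {a : Fin d.n ⊕ Fin d.r → ℤ} (h : Good V d.c C D a) :
    d.evK hV hst (d.MS hV hst a) = mon d.c a := by
  rw [map_MS d hV hst _ (d.evK_Z_ne hV hst) h]
  congr 1
  funext x
  rw [evK_st, d.aeval_Ct hV hst]

/-- a polynomial at the germ `i` -/
noncomputable def gp (C : Matrix (Fin d.n ⊕ Fin d.r) (Fin d.n ⊕ Fin d.r) ℤ)
    (i : Fin d.n) (q : MvPolynomial (Fin 2) k) : MvPolynomial d.Ix k :=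
  MvPolynomial.aeval ![d.Ct C (Sum.inl i), MvPolynomial.X (Sum.inr (Sum.inl i))] q

include hV hst in
lemma aeval_gp (i : Fin d.n) (q : MvPolynomial (Fin 2) k) :
    MvPolynomial.aeval (d.zz D) (d.gp C i q) = MvPolynomial.aeval ![d.u i, d.w i] q := by
  rw [gp, aeval_two, d.aeval_Ct hV hst, MvPolynomial.aeval_X]
  rfl

noncomputable def GG (i : Fin d.n) : d.SD hV hst :=
  d.st hV hst (d.gp C i (d.N i)) * Ring.inverse (d.st hV hst (d.gp C i (d.D i)))

lemma unit_D (i : Fin d.n) : IsUnit (d.st hV hst (d.gp C i (d.D i))) := by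
  rw [isUnit_toS_iff, d.aeval_gp hV hst]
  exact ⟨d.hD0 i, d.hDV i⟩

lemma map_GG {E : Type*} [Field E] (φ : d.SD hV hst →+* E) (i : Fin d.n) :
    φ (d.GG hV hst i) = φ (d.st hV hst (d.gp C i (d.N i))) /
      φ (d.st hV hst (d.gp C i (d.D i))) := by
  have h := d.unit_D hV hst i
  have h1 : φ (Ring.inverse (d.st hV hst (d.gp C i (d.D i)))) =
      (φ (d.st hV hst (d.gp C i (d.D i))))⁻¹ := by
    apply eq_inv_of_mul_eq_one_left
    rw [← map_mul, Ring.inverse_mul_cancel _ h, map_one]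
  rw [GG, map_mul, h1, div_eq_mul_inv]

lemma evK_GG (i : Fin d.n) : d.evK hV hst (d.GG hV hst i) =
    MvPolynomial.aeval ![d.u i, d.w i] (d.N i) / MvPolynomial.aeval ![d.u i, d.w i] (d.D i) := by
  rw [map_GG, evK_st, evK_st, d.aeval_gp hV hst, d.aeval_gp hV hst]

/-- etale rows of the germs -/
noncomputable def FA (i : Fin d.n) : d.SD hV hst := d.st hV hst (d.gp C i (d.Φ i))

/-- etale Artin-Schreier rows -/
noncomputable def FB (p : ℕ) {V : ValuationSubring K} (d : Dat (k := k) V p)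
    (hV : ∀ c : k, algebraMap k K c ∈ V)
    {C D : Matrix (Fin d.n ⊕ Fin d.r) (Fin d.n ⊕ Fin d.r) ℤ} (hst : IsSt V d.c C D)
    (l : Fin d.s) : d.SD hV hst :=
  d.st hV hst (MvPolynomial.X (Sum.inr (Sum.inr l)) ^ p - MvPolynomial.X (Sum.inr (Sum.inr l))) -
    ∑ i, d.st hV hst (MvPolynomial.C (d.b l i)) * d.GG hV hst i

/-- wild rows -/
noncomputable def FW (p : ℕ) {V : ValuationSubring K} (d : Dat (k := k) V p)
    (hV : ∀ c : k, algebraMap k K c ∈ V)
    {C D : Matrix (Fin d.n ⊕ Fin d.r) (Fin d.n ⊕ Fin d.r) ℤ} (hst : IsSt V d.c C D)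
    (j : Fin d.r) : d.SD hV hst :=
  d.MS hV hst (d.exA p j) - d.MS hV hst (d.exA 1 j) -
    ∑ i, d.st hV hst (MvPolynomial.C (d.a j i)) * (d.MS hV hst (d.exC' j i) * d.GG hV hst i)

lemma evK_inj {s : d.SD hV hst} : d.evK hV hst s = 0 ↔
    evS V hV (d.zz D) (d.zz_mem hst) s = 0 := by
  constructor
  · intro h
    exact Subtype.ext h
  · intro h
    change ((evS V hV (d.zz D) (d.zz_mem hst) s : V) : K) = 0
    rw [h]
    rfl

lemma evK_FA (i) : d.evK hV hst (d.FA hV hst i) = 0 := by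
  rw [FA, evK_st, d.aeval_gp hV hst, d.hΦ]

lemma evK_FB (l) : d.evK hV hst (FB p d hV hst l) = 0 := by
  rw [FB, map_sub, evK_st, map_sub, map_pow, MvPolynomial.aeval_X, map_sum]
  change d.T l ^ p - d.T l - _ = 0
  rw [d.hT, sub_eq_zero]
  refine Finset.sum_congr rfl fun i _ => ?_
  rw [map_mul, evK_GG, evK_st, MvPolynomial.aeval_C]

lemma evK_FW (hA : ∀ j, Good V d.c C D (d.exA p j)) (hB : ∀ j, Good V d.c C D (d.exA 1 j))
    (hC : ∀ j i, Good V d.c C D (d.exC' j i)) (j) : d.evK hV hst (FW p d hV hst j) = 0 := by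
  classical
  rw [FW, map_sub, map_sub, map_sum, d.evK_MS hV hst (hA j), d.evK_MS hV hst (hB j),
    d.mon_exA, d.mon_exA, pow_one, ← mul_sub, d.ht, Finset.mul_sum, sub_eq_zero]
  refine Finset.sum_congr rfl fun i _ => ?_
  rw [map_mul, map_mul, evK_GG, evK_st, MvPolynomial.aeval_C, d.evK_MS hV hst (hC j i)]
  unfold exC'
  split_ifs with ha
  · rw [ha]; simp
  · rw [mon_exC]
    ring

end Dat

end LU
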