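import Pool.Agent.helper90.LU.Main

open IsLocalRing

namespace LU

universe u

namespace Dat

variable {k K : Type u} [Field k] [Field K] [Algebra k K] {V : ValuationSubring K} {p : ℕ}
  (d : Dat (k := k) V p) (hV : ∀ c : k, algebraMap k K c ∈ V)
  {C D : Matrix (Fin d.n ⊕ Fin d.r) (Fin d.n ⊕ Fin d.r) ℤ} (hst : IsSt V d.c C D)

noncomputable abbrev ps (v : d.Ix → ResidueField V) :
    d.SD hV hst →+* DualNumber (ResidueField V) :=
  psi V hV (d.zz D) (d.zz_mem hst) v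

noncomputable def rz (x : d.Ix) : ResidueField V := residue V ⟨d.zz D x, d.zz_mem hst x⟩

lemma fst_ps (v : d.Ix → ResidueField V) (s : d.SD hV hst) :
    (d.ps hV hst v s).fst = residue V (evS V hV (d.zz D) (d.zz_mem hst) s) := fst_psi _ _ _ _ _ _

lemma evS_X (x : d.Ix) : evS V hV (d.zz D) (d.zz_mem hst) (d.st hV hst (MvPolynomial.X x)) =
    ⟨d.zz D x, d.zz_mem hst x⟩ := by
  rw [evS_algebraMap]
  apply Subtype.ext
  rw [coe_evV, MvPolynomial.aeval_X]

lemma LD_Z (v : d.Ix → ResidueField V) (ρ : Fin d.n ⊕ Fin d.r → ResidueField V)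
    (hρ : ∀ l, v (Sum.inl l) = ρ l * d.rz hst (Sum.inl l)) (l) :
    LD (d.ps hV hst v) (d.Z hV hst l) (ρ l) := by
  unfold LD
  rw [fst_ps, Z, evS_X, snd_psi_X]
  exact hρ l

lemma LD_MS (v : d.Ix → ResidueField V) (ρ : Fin d.n ⊕ Fin d.r → ResidueField V)
    (hρ : ∀ l, v (Sum.inl l) = ρ l * d.rz hst (Sum.inl l))
    {a : Fin d.n ⊕ Fin d.r → ℤ} (h : Good V d.c C D a) :
    LD (d.ps hV hst v) (d.MS hV hst a) (∑ l, ((Matrix.vecMul a C) l : ResidueField V) * ρ l) :=
  LD.monS (d.LD_Z hV hst v ρ hρ) (d.good_unit hV hst h)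

lemma st_Ct (x) : d.st hV hst (d.Ct C x) = monS (d.Z hV hst) (C x) := by
  rw [Ct, map_prod, monS]
  refine Finset.prod_congr rfl fun l _ => ?_
  rw [map_pow, zp, if_pos (hst.nonneg x l)]
  rfl

lemma LD_Ct (v : d.Ix → ResidueField V) (ρ : Fin d.n ⊕ Fin d.r → ResidueField V)
    (hρ : ∀ l, v (Sum.inl l) = ρ l * d.rz hst (Sum.inl l)) (x) :
    LD (d.ps hV hst v) (d.st hV hst (d.Ct C x)) (∑ l, (C x l : ResidueField V) * ρ l) := by
  rw [st_Ct]
  exact LD.monS (d.LD_Z hV hst v ρ hρ) (fun l => Or.inl (hst.nonneg x l))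

/-- residue of a polynomial at the germ -/
noncomputable def rg (i : Fin d.n) (q : MvPolynomial (Fin 2) k) : ResidueField V :=
  residue V ⟨MvPolynomial.aeval ![d.u i, d.w i] q, d.ev_mem hV i q⟩

lemma evS_gp (i : Fin d.n) (q : MvPolynomial (Fin 2) k) :
    evS V hV (d.zz D) (d.zz_mem hst) (d.st hV hst (d.gp C i q)) =
      ⟨MvPolynomial.aeval ![d.u i, d.w i] q, d.ev_mem hV i q⟩ := by
  rw [evS_algebraMap]
  apply Subtype.ext
  rw [coe_evV, d.aeval_gp hV hst]

lemma snd_gp (v : d.Ix → ResidueField V) (i : Fin d.n)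
    (h0 : (d.ps hV hst v (d.st hV hst (d.Ct C (Sum.inl i)))).snd = 0)
    (q : MvPolynomial (Fin 2) k) :
    (d.ps hV hst v (d.st hV hst (d.gp C i q))).snd =
      v (Sum.inr (Sum.inl i)) * d.rg hV i (MvPolynomial.pderiv 1 q) := by
  unfold gp ps
  rw [snd_psi_eval, h0, zero_mul, zero_add, snd_psi_X, ← evS_algebraMap]
  congr 1
  change residue V (evS V hV (d.zz D) (d.zz_mem hst) (d.st hV hst (d.gp C i _))) = _
  rw [evS_gp]
  rfl

lemma snd_GG (v : d.Ix → ResidueField V) (i : Fin d.n)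
    (h0 : (d.ps hV hst v (d.st hV hst (d.Ct C (Sum.inl i)))).snd = 0)
    (h1 : v (Sum.inr (Sum.inl i)) = 0) :
    (d.ps hV hst v (d.GG hV hst i)).snd = 0 := by
  have hN : LD (d.ps hV hst v) (d.st hV hst (d.gp C i (d.N i))) 0 := by
    unfold LD
    rw [snd_gp d hV hst v i h0, h1, zero_mul, zero_mul]
  have hD : LD (d.ps hV hst v) (d.st hV hst (d.gp C i (d.D i))) 0 := by
    unfold LD
    rw [snd_gp d hV hst v i h0, h1, zero_mul, zero_mul]
  have := hN.mul (hD.inv (d.unit_D hV hst i))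
  unfold LD at this
  rw [GG, this]
  simp

/-- tangent vectors -/
noncomputable def vA (V : ValuationSubring K) (d : Dat (k := k) V p) (i : Fin d.n) :
    d.Ix → ResidueField V := Sum.elim 0 (Sum.elim (Pi.single i 1) 0)

noncomputable def vB (V : ValuationSubring K) (d : Dat (k := k) V p) (l : Fin d.s) :
    d.Ix → ResidueField V := Sum.elim 0 (Sum.elim 0 (Pi.single l 1))

noncomputable def vW (j : Fin d.r) : d.Ix → ResidueField V :=
  Sum.elim (fun l => ((D l (Sum.inl (d.π j)) : ℤ) : ResidueField V) * d.rz hst (Sum.inl l)) 0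

lemma snd_Ct_zero (v : d.Ix → ResidueField V) (hv : ∀ l, v (Sum.inl l) = 0) (x) :
    (d.ps hV hst v (d.st hV hst (d.Ct C x))).snd = 0 := by
  have := d.LD_Ct hV hst v 0 (by intro l; simp [hv]) x
  unfold LD at this
  rw [this]
  simp

lemma res_u (j : Fin d.r) : residue V ⟨d.u (d.π j), d.huV _⟩ = 0 := by
  rw [residue_eq_zero_iff, mem_maximalIdeal, mem_nonunits_iff, isUnit_iff_inv]
  rintro ⟨-, h⟩
  exact d.heu _ (d.hπ3 j) h

lemma snd_Ct_W (j : Fin d.r) (i : Fin d.n) :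
    (d.ps hV hst (d.vW hst j) (d.st hV hst (d.Ct C (Sum.inl i)))).snd = 0 := by
  have := d.LD_Ct hV hst (d.vW hst j) (fun l => ((D l (Sum.inl (d.π j)) : ℤ) : ResidueField V))
    (fun l => rfl) (Sum.inl i)
  unfold LD at this
  rw [this]
  have e1 : ∑ l, (C (Sum.inl i) l : ResidueField V) *
      ((D l (Sum.inl (d.π j)) : ℤ) : ResidueField V) =
      (((C * D) (Sum.inl i) (Sum.inl (d.π j)) : ℤ) : ResidueField V) := by
    rw [Matrix.mul_apply]
    push_cast
    rfl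
  rw [e1, hst.CD]
  by_cases hi : i = d.π j
  · subst hi
    have e2 : (d.ps hV hst (d.vW hst j) (d.st hV hst (d.Ct C (Sum.inl (d.π j))))).fst = 0 := by
      rw [fst_ps, evS_algebraMap]
      have : evV V hV (d.zz D) (d.zz_mem hst) (d.Ct C (Sum.inl (d.π j))) =
          ⟨d.u (d.π j), d.huV _⟩ := by
        apply Subtype.ext
        rw [coe_evV, d.aeval_Ct hV hst]
        rfl
      rw [this, res_u]
    rw [e2, mul_zero]
  · rw [Matrix.one_apply_ne (by simpa using hi)]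
    simp

end Dat

end LU
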