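import Pool.Agent.helper90.LU.Main2

open IsLocalRing

namespace LU

universe u

namespace Dat

variable {k K : Type u} [Field k] [Field K] [Algebra k K] {V : ValuationSubring K} {p : ℕ}
  (d : Dat (k := k) V p) (hV : ∀ c : k, algebraMap k K c ∈ V)
  {C D : Matrix (Fin d.n ⊕ Fin d.r) (Fin d.n ⊕ Fin d.r) ℤ} (hst : IsSt V d.c C D)

lemma vA_inl (i : Fin d.n) (l) : vA V d i (Sum.inl l) = 0 := rfl
lemma vB_inl (i : Fin d.s) (l) : vB V d i (Sum.inl l) = 0 := rfl
lemma vB_w (i : Fin d.s) (l) : vB V d i (Sum.inr (Sum.inl l)) = 0 := rfl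
lemma vW_w (j : Fin d.r) (l) : d.vW hst j (Sum.inr l) = 0 := rfl

lemma vA_w (i l : Fin d.n) : vA V d i (Sum.inr (Sum.inl l)) = if l = i then 1 else 0 := by
  change (Pi.single i 1 : Fin d.n → ResidueField V) l = _
  rw [Pi.single_apply]

lemma vB_T (i l : Fin d.s) : vB V d i (Sum.inr (Sum.inr l)) = if l = i then 1 else 0 := by
  change (Pi.single i 1 : Fin d.s → ResidueField V) l = _
  rw [Pi.single_apply]

lemma psA_FA_ne (i i' : Fin d.n) (h : i ≠ i') :
    (d.ps hV hst (vA V d i) (d.FA hV hst i')).snd = 0 := by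
  rw [FA, snd_gp d hV hst _ _ (d.snd_Ct_zero hV hst _ (d.vA_inl i) _), vA_w, if_neg h.symm,
    zero_mul]

lemma rg_ne (i : Fin d.n) (q : MvPolynomial (Fin 2) k)
    (h0 : MvPolynomial.aeval ![d.u i, d.w i] q ≠ 0)
    (h1 : (MvPolynomial.aeval ![d.u i, d.w i] q)⁻¹ ∈ V) : d.rg hV i q ≠ 0 := by
  rw [rg, Ne, residue_eq_zero_iff, mem_maximalIdeal, mem_nonunits_iff, not_not, isUnit_iff_inv]
  exact ⟨h0, h1⟩

lemma psA_FA_self (i : Fin d.n) :
    (d.ps hV hst (vA V d i) (d.FA hV hst i)).snd ≠ 0 := by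
  rw [FA, snd_gp d hV hst _ _ (d.snd_Ct_zero hV hst _ (d.vA_inl i) _), vA_w, if_pos rfl,
    one_mul]
  exact d.rg_ne hV i _ (d.hΦ0 i) (d.hΦV i)

lemma psB_FA (l : Fin d.s) (i : Fin d.n) :
    (d.ps hV hst (vB V d l) (d.FA hV hst i)).snd = 0 := by
  rw [FA, snd_gp d hV hst _ _ (d.snd_Ct_zero hV hst _ (d.vB_inl l) _), vB_w, zero_mul]

lemma psW_FA (j : Fin d.r) (i : Fin d.n) :
    (d.ps hV hst (d.vW hst j) (d.FA hV hst i)).snd = 0 := by
  rw [FA, snd_gp d hV hst _ _ (d.snd_Ct_W hV hst j i), vW_w, zero_mul]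

lemma snd_mul_zero {κ : Type*} [Field κ] {x y : DualNumber κ} (hx : x.snd = 0)
    (hy : y.snd = 0) : (x * y).snd = 0 := by
  rw [TrivSqZeroExt.snd_mul, hx, hy]
  simp

section charp

variable [CharP (ResidueField V) p]

lemma snd_pow_p (x : DualNumber (ResidueField V)) : (x ^ p).snd = 0 := by
  rw [TrivSqZeroExt.snd_pow, nsmul_eq_mul, CharP.cast_eq_zero, zero_mul]

lemma snd_FB (v : d.Ix → ResidueField V)
    (h0 : ∀ i, (d.ps hV hst v (d.st hV hst (d.Ct C (Sum.inl i)))).snd = 0)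
    (h1 : ∀ i, v (Sum.inr (Sum.inl i)) = 0) (l : Fin d.s) :
    (d.ps hV hst v (FB p d hV hst l)).snd = - v (Sum.inr (Sum.inr l)) := by
  rw [FB, map_sub, TrivSqZeroExt.snd_sub, map_sub, map_sub, TrivSqZeroExt.snd_sub, map_pow, map_pow,
    snd_pow_p, snd_psi_X, map_sum, TrivSqZeroExt.snd_sum, Finset.sum_eq_zero]
  · ring
  · intro i _
    rw [map_mul]
    exact snd_mul_zero (snd_psi_C _ _ _ _ _ _) (d.snd_GG hV hst v i (h0 i) (h1 i))

lemma psB_FB_ne (i l : Fin d.s) (h : i ≠ l) :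
    (d.ps hV hst (vB V d i) (FB p d hV hst l)).snd = 0 := by
  rw [snd_FB d hV hst _ (fun i' => d.snd_Ct_zero hV hst _ (d.vB_inl i) _) (fun _ => rfl), vB_T,
    if_neg h.symm, neg_zero]

lemma psB_FB_self (i : Fin d.s) :
    (d.ps hV hst (vB V d i) (FB p d hV hst i)).snd ≠ 0 := by
  rw [snd_FB d hV hst _ (fun i' => d.snd_Ct_zero hV hst _ (d.vB_inl i) _) (fun _ => rfl), vB_T,
    if_pos rfl]
  simp

lemma psW_FB (j : Fin d.r) (l : Fin d.s) :
    (d.ps hV hst (d.vW hst j) (FB p d hV hst l)).snd = 0 := by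
  rw [snd_FB d hV hst _ (fun i' => d.snd_Ct_W hV hst j i') (fun _ => rfl), vW_w, neg_zero]

end charp

lemma vecMul_sum (a : Fin d.n ⊕ Fin d.r → ℤ) (y : Fin d.n ⊕ Fin d.r) (hCD : C * D = 1) :
    ∑ l, ((Matrix.vecMul a C) l : ResidueField V) * ((D l y : ℤ) : ResidueField V) =
      ((a y : ℤ) : ResidueField V) := by
  have h1 : Matrix.vecMul (Matrix.vecMul a C) D = a := by
    rw [Matrix.vecMul_vecMul, hCD, Matrix.vecMul_one]
  have h2 := congrFun h1 y
  rw [← h2]
  simp only [Matrix.vecMul, dotProduct]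
  push_cast
  rfl

lemma LD_W (j : Fin d.r) {a : Fin d.n ⊕ Fin d.r → ℤ} (h : Good V d.c C D a) :
    LD (d.ps hV hst (d.vW hst j)) (d.MS hV hst a) ((a (Sum.inl (d.π j)) : ℤ) : ResidueField V) := by
  have := d.LD_MS hV hst (d.vW hst j)
    (fun l => ((D l (Sum.inl (d.π j)) : ℤ) : ResidueField V)) (fun l => rfl) h
  rwa [vecMul_sum d a _ hst.CD] at this

/-- the `i`-th term of the wild row -/
noncomputable def tm (l : Fin d.r) (i : Fin d.n) : d.SD hV hst :=
  d.st hV hst (MvPolynomial.C (d.a l i)) * (d.MS hV hst (d.exC' l i) * d.GG hV hst i)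

lemma psW_FW (hA : ∀ j, Good V d.c C D (d.exA p j)) (hB : ∀ j, Good V d.c C D (d.exA 1 j))
    (hC : ∀ j i, Good V d.c C D (d.exC' j i)) (j l : Fin d.r) :
    (d.ps hV hst (d.vW hst j) (FW p d hV hst l)).snd =
      (d.e (d.π j) : ResidueField V) *
        (d.ps hV hst (d.vW hst j) (d.tm hV hst l (d.π j))).fst := by
  classical
  set ψ := d.ps hV hst (d.vW hst j) with hψ
  have hz : (ψ (FW p d hV hst l)).fst = 0 := by
    rw [hψ, fst_ps, (d.evK_inj hV hst).1 (d.evK_FW hV hst hA hB hC l), map_zero]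
  have e1 : FW p d hV hst l = d.MS hV hst (d.exA p l) - d.MS hV hst (d.exA 1 l) -
    ∑ i, d.tm hV hst l i := rfl
  rw [e1] at hz ⊢
  rw [map_sub, map_sub, map_sum, TrivSqZeroExt.fst_sub, TrivSqZeroExt.fst_sub,
    TrivSqZeroExt.fst_sum] at hz
  rw [map_sub, map_sub, map_sum, TrivSqZeroExt.snd_sub, TrivSqZeroExt.snd_sub,
    TrivSqZeroExt.snd_sum]
  set ε : ResidueField V := if d.π j = d.π l then (d.e (d.π l) : ResidueField V) else 0 with hε
  have hexA : ∀ m : ℕ, ((d.exA m l (Sum.inl (d.π j)) : ℤ) : ResidueField V) = ε := by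
    intro m
    have e2 : (Pi.single (Sum.inr l) (m * d.sgn l) : Fin d.n ⊕ Fin d.r → ℤ)
        (Sum.inl (d.π j)) = 0 := Pi.single_eq_of_ne (by simp) _
    rw [exA, Pi.add_apply, e2, add_zero, Pi.single_apply, hε]
    by_cases h : d.π j = d.π l
    · rw [if_pos (by rw [h]), if_pos h]; simp
    · rw [if_neg (by simpa using h), if_neg h]; simp
  have h1 := d.LD_W hV hst j (hA l)
  have h2 := d.LD_W hV hst j (hB l)
  rw [hexA] at h1 h2
  unfold LD at h1 h2
  have h3 : ∀ i, (ψ (d.tm hV hst l i)).snd =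
      ε * (ψ (d.tm hV hst l i)).fst -
        (if i = d.π j then (d.e i : ResidueField V) * (ψ (d.tm hV hst l i)).fst else 0) := by
    intro i
    by_cases ha : d.a l i = 0
    · have : d.tm hV hst l i = 0 := by rw [tm, ha, map_zero, map_zero, zero_mul]
      rw [this, map_zero]
      simp
    · have g1 : LD ψ (d.st hV hst (MvPolynomial.C (d.a l i))) 0 := by
        unfold LD
        rw [hψ, snd_psi_C]
        simp
      have g2 : LD ψ (d.GG hV hst i) 0 := by
        unfold LD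
        rw [hψ, d.snd_GG hV hst _ i (d.snd_Ct_W hV hst j i) rfl]
        simp
      have g3 := d.LD_W hV hst j (hC l i)
      have g4 := g1.mul (g3.mul g2)
      unfold LD at g4
      change (ψ (d.tm hV hst l i)).snd = _ * (ψ (d.tm hV hst l i)).fst at g4
      rw [g4]
      have g5 : ((d.exC' l i (Sum.inl (d.π j)) : ℤ) : ResidueField V) =
          ε - if i = d.π j then (d.e i : ResidueField V) else 0 := by
        unfold exC'
        rw [if_neg ha, exC, Pi.sub_apply, Pi.single_apply, Pi.single_apply, hε]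
        by_cases h : d.π j = d.π l
        · rw [if_pos (by rw [h]), if_pos h]
          by_cases h' : i = d.π j
          · rw [if_pos (by rw [h']), if_pos h']; simp
          · rw [if_neg (by simpa using Ne.symm h'), if_neg h']; simp
        · rw [if_neg (by simpa using h), if_neg h]
          by_cases h' : i = d.π j
          · rw [if_pos (by rw [h']), if_pos h']; simp
          · rw [if_neg (by simpa using Ne.symm h'), if_neg h']; simp
      rw [g5]
      split_ifs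
      · ring
      · ring
  rw [h1, h2]
  simp only [h3]
  rw [Finset.sum_sub_distrib, ← Finset.mul_sum, Finset.sum_ite_eq' Finset.univ (d.π j)]
  rw [if_pos (Finset.mem_univ _)]
  linear_combination ε * hz

lemma fst_tm_ne (j : Fin d.r) (hC : ∀ j i, Good V d.c C D (d.exC' j i)) :
    (d.ps hV hst (d.vW hst j) (d.tm hV hst j (d.π j))).fst ≠ 0 := by
  classical
  rw [fst_ps, Ne, residue_eq_zero_iff, mem_maximalIdeal, mem_nonunits_iff, not_not, isUnit_iff_inv]
  have e1 : ((evS V hV (d.zz D) (d.zz_mem hst) (d.tm hV hst j (d.π j)) : V) : K) =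
      algebraMap k K (d.a j (d.π j)) *
        (MvPolynomial.aeval ![d.u (d.π j), d.w (d.π j)] (d.N (d.π j)) /
          MvPolynomial.aeval ![d.u (d.π j), d.w (d.π j)] (d.D (d.π j))) := by
    change d.evK hV hst (d.tm hV hst j (d.π j)) = _
    rw [tm, map_mul, map_mul, evK_st, MvPolynomial.aeval_C, evK_GG, d.evK_MS hV hst (hC j _)]
    unfold exC'
    rw [if_neg (d.hπ1 j), mon_exC, mul_inv_cancel₀ (pow_ne_zero _ (d.hu0 _)), one_mul]
  rw [e1]
  have ha : algebraMap k K (d.a j (d.π j)) ≠ 0 := by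
    simpa using d.hπ1 j
  have hN := d.heN _ (d.hπ3 j)
  have hD := d.hD0 (d.π j)
  refine ⟨mul_ne_zero ha (div_ne_zero hN hD), ?_⟩
  rw [mul_inv, inv_div, div_eq_mul_inv, ← map_inv₀]
  exact mul_mem (hV _) (mul_mem (d.ev_mem hV _ _) (d.heNV _ (d.hπ3 j)))

end Dat

end LU
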