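import Pool.Agent.helper90.LU.Main3

open IsLocalRing

namespace LU

universe u

namespace Dat

variable {k K : Type u} [Field k] [Field K] [Algebra k K] {V : ValuationSubring K} {p : ℕ}
  (d : Dat (k := k) V p) (hV : ∀ c : k, algebraMap k K c ∈ V)
  {C D : Matrix (Fin d.n ⊕ Fin d.r) (Fin d.n ⊕ Fin d.r) ℤ} (hst : IsSt V d.c C D)

lemma sgn_sq (j : Fin d.r) : d.sgn j * d.sgn j = 1 := by
  unfold sgn
  split_ifs <;> rfl

section alg

variable {E : Type u} [Field E] (φ : d.SD hV hst →+* E)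

/-- the base map -/
noncomputable def th : MvPolynomial (Fin d.n) k →+* E :=
  (φ.comp (algebraMap (MvPolynomial d.Ix k) (d.SD hV hst))).comp
    (MvPolynomial.aeval (fun i => d.Ct C (Sum.inl i)) :
      MvPolynomial (Fin d.n) k →ₐ[k] MvPolynomial d.Ix k).toRingHom

lemma th_C (c : k) : d.th hV hst φ (MvPolynomial.C c) = φ (d.st hV hst (MvPolynomial.C c)) := by
  simp [th]

lemma th_X (i : Fin d.n) : d.th hV hst φ (MvPolynomial.X i) =
    φ (d.st hV hst (d.Ct C (Sum.inl i))) := by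
  simp [th]

lemma alg_C (c : k) : AlgOver (d.th hV hst φ) (φ (d.st hV hst (MvPolynomial.C c))) := by
  rw [← th_C]
  exact AlgOver.base _

lemma alg_U (i : Fin d.n) :
    AlgOver (d.th hV hst φ) (φ (d.st hV hst (d.Ct C (Sum.inl i)))) := by
  rw [← th_X]
  exact AlgOver.base _

variable (hφ : ∀ s, φ s = 0 → evS V hV (d.zz D) (d.zz_mem hst) s = 0)

include hφ in
lemma ne_of_evK {s : d.SD hV hst} (h : d.evK hV hst s ≠ 0) : φ s ≠ 0 :=
  fun h' => h ((d.evK_inj hV hst).2 (hφ s h'))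

/-- ring hom of evaluation at the germ in `E` -/
noncomputable def gE (i : Fin d.n) : MvPolynomial (Fin 2) k →+* E :=
  (φ.comp (d.st hV hst)).comp
    (MvPolynomial.aeval ![d.Ct C (Sum.inl i), MvPolynomial.X (Sum.inr (Sum.inl i))] :
      MvPolynomial (Fin 2) k →ₐ[k] MvPolynomial d.Ix k).toRingHom

lemma gE_apply (i : Fin d.n) (q) : d.gE hV hst φ i q = φ (d.st hV hst (d.gp C i q)) := rfl

include hφ in
lemma alg_W (hA : ∀ i, φ (d.FA hV hst i) = 0) (i : Fin d.n) :
    AlgOver (d.th hV hst φ) (φ (d.st hV hst (MvPolynomial.X (Sum.inr (Sum.inl i))))) := by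
  refine AlgOver.of_rel (MvPolynomial.X i) (d.gE hV hst φ i) ?_ ?_ ?_ (d.Φ i) ?_ ?_
  · intro c
    rw [th_C, gE_apply, gp, MvPolynomial.aeval_C]
    rfl
  · rw [gE_apply, gp, MvPolynomial.aeval_X, th_X]
    rfl
  · rw [gE_apply, gp, MvPolynomial.aeval_X]
    rfl
  · exact hA i
  · rw [gE_apply]
    apply d.ne_of_evK hV hst φ hφ
    rw [evK_st, d.aeval_gp hV hst]
    exact d.hΦ0 i

include hφ in
lemma alg_gp (hA : ∀ i, φ (d.FA hV hst i) = 0) (i : Fin d.n) (q) :
    AlgOver (d.th hV hst φ) (φ (d.st hV hst (d.gp C i q))) := by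
  refine AlgOver.eval2 (d.alg_U hV hst φ i) (d.alg_W hV hst φ hφ hA i) (d.gE hV hst φ i)
    ?_ ?_ ?_ q
  · intro c
    rw [th_C, gE_apply, gp, MvPolynomial.aeval_C]
    rfl
  · rw [gE_apply, gp, MvPolynomial.aeval_X]
    rfl
  · rw [gE_apply, gp, MvPolynomial.aeval_X]
    rfl

include hφ in
lemma alg_GG (hA : ∀ i, φ (d.FA hV hst i) = 0) (i : Fin d.n) :
    AlgOver (d.th hV hst φ) (φ (d.GG hV hst i)) := by
  rw [map_GG, div_eq_mul_inv]
  exact (d.alg_gp hV hst φ hφ hA i _).mul (d.alg_gp hV hst φ hφ hA i _).inv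

include hφ in
lemma alg_T (hp : 2 ≤ p) (hA : ∀ i, φ (d.FA hV hst i) = 0)
    (hB : ∀ l, φ (FB p d hV hst l) = 0) (l : Fin d.s) :
    AlgOver (d.th hV hst φ) (φ (d.st hV hst (MvPolynomial.X (Sum.inr (Sum.inr l))))) := by
  apply AlgOver.of_pow_sub hp
  have h1 := hB l
  rw [FB, map_sub, map_sub, map_sub, map_pow, map_pow, sub_eq_zero] at h1
  rw [h1, map_sum]
  refine AlgOver.sum _ fun i _ => ?_
  rw [map_mul]
  exact (d.alg_C hV hst φ _).mul (d.alg_GG hV hst φ hφ hA i)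

include hφ in
lemma phi_Z_ne (l) : φ (d.Z hV hst l) ≠ 0 :=
  d.ne_of_evK hV hst φ hφ (d.evK_Z_ne hV hst l)

/-- frame elements in `E` -/
noncomputable def cE (x : Fin d.n ⊕ Fin d.r) : E := φ (d.st hV hst (d.Ct C x))

include hφ in
lemma cE_ne (x) : d.cE hV hst φ x ≠ 0 := by
  apply d.ne_of_evK hV hst φ hφ
  rw [evK_st, d.aeval_Ct hV hst]
  exact d.c_ne x

include hφ in
lemma mon_exA_E (m : ℕ) (j : Fin d.r) :
    mon (d.cE hV hst φ) (d.exA m j) = d.cE hV hst φ (Sum.inl (d.π j)) ^ d.e (d.π j) *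
      (d.cE hV hst φ (Sum.inr j) ^ d.sgn j) ^ m := by
  rw [exA, mon_add (d.cE_ne hV hst φ hφ), mon_single, mon_single, zpow_natCast, mul_comm (m : ℤ),
    zpow_mul, zpow_natCast]

include hφ in
lemma alg_exC_E (j : Fin d.r) (i : Fin d.n) :
    AlgOver (d.th hV hst φ) (mon (d.cE hV hst φ) (d.exC' j i)) := by
  classical
  unfold exC'
  split_ifs with h
  · have : mon (d.cE hV hst φ) 0 = d.th hV hst φ 1 := by simp [mon]
    rw [this]
    exact AlgOver.base _
  · rw [exC, mon_sub (d.cE_ne hV hst φ hφ), mon_single, mon_single, div_eq_mul_inv]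
    exact ((d.alg_U hV hst φ _).zpow _).mul ((d.alg_U hV hst φ _).zpow _).inv

include hφ in
lemma alg_c (hp : 2 ≤ p) (hA : ∀ i, φ (d.FA hV hst i) = 0)
    (hW : ∀ j, φ (FW p d hV hst j) = 0)
    (gA : ∀ j, Good V d.c C D (d.exA p j)) (gB : ∀ j, Good V d.c C D (d.exA 1 j))
    (gC : ∀ j i, Good V d.c C D (d.exC' j i)) (x) :
    AlgOver (d.th hV hst φ) (d.cE hV hst φ x) := by
  rcases x with i | j
  · exact d.alg_U hV hst φ i
  have hZ := d.phi_Z_ne hV hst φ hφ
  have h1 := hW j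
  rw [FW, map_sub, map_sub, d.map_MS hV hst φ hZ (gA j), d.map_MS hV hst φ hZ (gB j)] at h1
  change mon (d.cE hV hst φ) (d.exA p j) - mon (d.cE hV hst φ) (d.exA 1 j) - _ = 0 at h1
  rw [d.mon_exA_E hV hst φ hφ, d.mon_exA_E hV hst φ hφ, pow_one, ← mul_sub, sub_eq_zero] at h1
  have h2 : AlgOver (d.th hV hst φ) (d.cE hV hst φ (Sum.inr j) ^ d.sgn j) := by
    apply AlgOver.of_pow_sub hp
    rw [← eq_inv_mul_iff_mul_eq₀
      (pow_ne_zero _ (d.cE_ne hV hst φ hφ (Sum.inl (d.π j))))] at h1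
    rw [h1, map_sum]
    refine ((d.alg_U hV hst φ _).pow _).inv.mul (AlgOver.sum _ fun i _ => ?_)
    rw [map_mul, map_mul, d.map_MS hV hst φ hZ (gC j i)]
    exact (d.alg_C hV hst φ _).mul ((d.alg_exC_E hV hst φ hφ j i).mul
      (d.alg_GG hV hst φ hφ hA i))
  have h3 := h2.zpow (d.sgn j)
  rwa [← zpow_mul, sgn_sq, zpow_one] at h3

include hφ in
lemma alg_Z (hp : 2 ≤ p) (hA : ∀ i, φ (d.FA hV hst i) = 0)
    (hW : ∀ j, φ (FW p d hV hst j) = 0)
    (gA : ∀ j, Good V d.c C D (d.exA p j)) (gB : ∀ j, Good V d.c C D (d.exA 1 j))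
    (gC : ∀ j i, Good V d.c C D (d.exC' j i)) (l) :
    AlgOver (d.th hV hst φ) (φ (d.Z hV hst l)) := by
  have hZ := d.phi_Z_ne hV hst φ hφ
  have e1 : d.cE hV hst φ = fun x => mon (fun l => φ (d.Z hV hst l)) (C x) := by
    funext x
    exact d.map_Ct hV hst φ x
  have e2 : mon (d.cE hV hst φ) (D l) = φ (d.Z hV hst l) := by
    rw [e1, mon_vecMul hZ]
    have : Matrix.vecMul (D l) C = (D * C) l := rfl
    rw [this, mul_eq_one_comm.1 hst.CD, mon_one]
  rw [← e2]
  exact AlgOver.mon (d.alg_c hV hst φ hφ hp hA hW gA gB gC) _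

end alg

lemma aeval_mem_field (L : IntermediateField k K) {ι : Type*} {z : ι → K}
    (hz : ∀ i, z i ∈ L) (q : MvPolynomial ι k) : MvPolynomial.aeval z q ∈ L := by
  induction q using MvPolynomial.induction_on with
  | C c => rw [MvPolynomial.aeval_C]; exact L.algebraMap_mem c
  | add p q hp hq => rw [map_add]; exact add_mem hp hq
  | mul_X p i hp => rw [map_mul, MvPolynomial.aeval_X]; exact mul_mem hp (hz i)

include hV hst in
lemma gen_zz : IntermediateField.adjoin k (Set.range (d.zz D)) = ⊤ := by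
  set L := IntermediateField.adjoin k (Set.range (d.zz D)) with hL
  have hz : ∀ x, d.zz D x ∈ L := fun x => IntermediateField.subset_adjoin _ _ ⟨x, rfl⟩
  have hc : ∀ x, d.c x ∈ L := by
    intro x
    rw [← d.aeval_Ct hV hst x]
    exact aeval_mem_field L hz _
  rw [eq_top_iff, ← d.hgen, IntermediateField.adjoin_le_iff]
  rintro y (((⟨i, rfl⟩ | ⟨i, rfl⟩) | ⟨j, rfl⟩) | ⟨l, rfl⟩)
  · exact hc (Sum.inl i)
  · exact hz (Sum.inr (Sum.inl i))
  · rw [← d.τ_pow j]
    exact zpow_mem (hc (Sum.inr j)) _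
  · exact hz (Sum.inr (Sum.inr l))

end Dat

/-- The assembly. -/
theorem uniformizable_of_dat {k K : Type u} [Field k] [Field K] [Algebra k K]
    {V : ValuationSubring K} {p : ℕ} [Fact p.Prime] [CharP k p] (d : Dat (k := k) V p)
    (hV : ∀ c : k, algebraMap k K c ∈ V) : Uniformizable k V := by
  have hp : 2 ≤ p := (Fact.out : p.Prime).two_le
  obtain ⟨C, D, hst, gA, gB, gC⟩ := d.exists_st hV hp
  let res : k →+* ResidueField V :=
    (residue V).comp ((algebraMap k K).codRestrict V.toSubring hV)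
  have : CharP (ResidueField V) p := charP_of_injective_ringHom res.injective p
  have hcast : ∀ m : ℕ, (m : k) ≠ 0 → (m : ResidueField V) ≠ 0 := by
    intro m hm h
    apply hm
    apply res.injective
    rw [map_natCast, h, map_zero]
  refine crit_blocks V hV (d.zz D) (d.zz_mem hst) (d.gen_zz hV hst)
    (fun i => d.Ct C (Sum.inl i)) ?_ (J := Fin d.n ⊕ (Fin d.s ⊕ Fin d.r))
    (Sum.elim (fun _ => 0) (Sum.elim (fun _ => 1) (fun _ => 2)))
    (Sum.elim (d.FA hV hst) (Sum.elim (Dat.FB p d hV hst) (Dat.FW p d hV hst)))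
    ?_ (Sum.elim (Dat.vA V d) (Sum.elim (Dat.vB V d) (d.vW hst))) ?_ ?_ ?_
  · have : (fun i => MvPolynomial.aeval (d.zz D) (d.Ct C (Sum.inl i))) = d.u := by
      funext i
      rw [d.aeval_Ct hV hst]
      rfl
    rw [this]
    exact d.halg
  · rintro (i | l | j)
    · exact (d.evK_inj hV hst).1 (d.evK_FA hV hst i)
    · exact (d.evK_inj hV hst).1 (d.evK_FB hV hst l)
    · exact (d.evK_inj hV hst).1 (d.evK_FW hV hst gA gB gC j)
  · rintro (i | l | j) (i' | l' | j') hne hrk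
    · exact d.psA_FA_ne hV hst i i' (by rintro rfl; exact hne rfl)
    · simp at hrk
    · simp at hrk
    · exact d.psB_FA hV hst l i'
    · exact d.psB_FB_ne hV hst l l' (by rintro rfl; exact hne rfl)
    · simp at hrk
    · exact d.psW_FA hV hst j i'
    · exact d.psW_FB hV hst j l'
    · have h1 := d.psW_FW hV hst gA gB gC j j'
      have h2 : d.tm hV hst j' (d.π j) = 0 := by
        rw [Dat.tm, d.hπ2 j j' (by rintro rfl; exact hne rfl), map_zero, map_zero, zero_mul]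
      rw [h2, map_zero, TrivSqZeroExt.fst_zero, mul_zero] at h1
      exact h1
  · rintro (i | l | j)
    · exact d.psA_FA_self hV hst i
    · exact d.psB_FB_self hV hst l
    · have h1 := d.psW_FW hV hst gA gB gC j j
      intro h
      change (d.ps hV hst (d.vW hst j) (Dat.FW p d hV hst j)).snd = 0 at h
      rw [h] at h1
      exact mul_ne_zero (hcast _ (d.hep _ (d.hπ3 j))) (d.fst_tm_ne hV hst j gC) h1.symm
  · intro E _ φ hφF hφ x
    have hA : ∀ i, φ (d.FA hV hst i) = 0 := fun i => hφF (Sum.inl i)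
    have hB : ∀ l, φ (Dat.FB p d hV hst l) = 0 := fun l => hφF (Sum.inr (Sum.inl l))
    have hW : ∀ j, φ (Dat.FW p d hV hst j) = 0 := fun j => hφF (Sum.inr (Sum.inr j))
    rcases x with l | i | l
    · exact d.alg_Z hV hst φ hφ hp hA hW gA gB gC l
    · exact d.alg_W hV hst φ hφ hA i
    · exact d.alg_T hV hst φ hφ hp hA hB l

end LU
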