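import Mathlib

namespace LU

open Matrix

section mon

variable {K : Type*} [Field K] {ι : Type*} [Fintype ι]

/-- Laurent monomials -/
def mon (x : ι → K) (a : ι → ℤ) : K := ∏ i, x i ^ a i

lemma mon_ne_zero {x : ι → K} (hx : ∀ i, x i ≠ 0) (a : ι → ℤ) : mon x a ≠ 0 :=
  Finset.prod_ne_zero_iff.2 fun i _ => zpow_ne_zero _ (hx i)

lemma mon_add {x : ι → K} (hx : ∀ i, x i ≠ 0) (a b : ι → ℤ) :
    mon x (a + b) = mon x a * mon x b := by
  simp only [mon, Pi.add_apply, ← Finset.prod_mul_distrib]
  exact Finset.prod_congr rfl fun i _ => zpow_add₀ (hx i) _ _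

lemma mon_sub {x : ι → K} (hx : ∀ i, x i ≠ 0) (a b : ι → ℤ) :
    mon x (a - b) = mon x a / mon x b := by
  rw [eq_div_iff (mon_ne_zero hx b), ← mon_add hx, sub_add_cancel]

lemma mon_one [DecidableEq ι] (x : ι → K) (i : ι) : mon x ((1 : Matrix ι ι ℤ) i) = x i := by
  rw [mon, Finset.prod_eq_single i]
  · simp
  · intro j _ hj
    simp [Matrix.one_apply_ne hj.symm]
  · simp

lemma mon_vecMul {x : ι → K} (hx : ∀ i, x i ≠ 0) (M : Matrix ι ι ℤ) (a : ι → ℤ) :
    mon (fun i => mon x (M i)) a = mon x (a ᵥ* M) := by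
  simp only [mon, Matrix.vecMul, dotProduct]
  have h1 : ∀ i, (∏ l, x l ^ M i l) ^ a i = ∏ l, x l ^ (a i * M i l) := by
    intro i
    rw [← Finset.prod_zpow]
    refine Finset.prod_congr rfl fun l _ => ?_
    rw [← _root_.zpow_mul, mul_comm]
  simp only [h1]
  rw [Finset.prod_comm]
  refine Finset.prod_congr rfl fun l _ => ?_
  induction (Finset.univ : Finset ι) using Finset.cons_induction with
  | empty => simp
  | cons i s hi ih => rw [Finset.prod_cons, Finset.sum_cons, zpow_add₀ (hx l), ih]

end mon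

section perron

variable {K : Type*} [Field K] (V : ValuationSubring K) {ι : Type*} [Fintype ι] [DecidableEq ι]

omit [DecidableEq ι] in
lemma mon_mem_of {x : ι → K} {a : ι → ℤ}
    (h : ∀ i, x i ^ a i ∈ V) : mon x a ∈ V := prod_mem fun i _ => h i

lemma zpow_mem_of {x : K} (hx : x ∈ V) {n : ℤ} (h : 0 ≤ n ∨ x⁻¹ ∈ V) : x ^ n ∈ V := by
  obtain ⟨m, rfl | rfl⟩ := Int.eq_nat_or_neg n
  · rw [zpow_natCast]; exact pow_mem hx _
  · rcases h with h | h
    · have : m = 0 := by omega
      subst this
      simp [one_mem]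
    · rw [_root_.zpow_neg, zpow_natCast, ← inv_pow]; exact pow_mem h _

/-- A unimodular change of the monomial frame `c`: `D` gives the new elements, `C ≥ 0` writes the
old ones in terms of the new ones. -/
structure IsSt (c : ι → K) (C D : Matrix ι ι ℤ) : Prop where
  CD : C * D = 1
  nonneg : ∀ i l, 0 ≤ C i l
  mem : ∀ l, mon c (D l) ∈ V

/-- The exponent vector `a` is good for the frame. -/
def Good (c : ι → K) (C D : Matrix ι ι ℤ) (a : ι → ℤ) : Prop :=
  ∀ l, 0 ≤ (a ᵥ* C) l ∨ (mon c (D l))⁻¹ ∈ V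

variable {V} {c : ι → K} (hc : ∀ i, c i ≠ 0)

include hc in
lemma mon_new {C D : Matrix ι ι ℤ} (h : IsSt V c C D) (a : ι → ℤ) :
    mon (fun l => mon c (D l)) (a ᵥ* C) = mon c a := by
  rw [mon_vecMul hc, Matrix.vecMul_vecMul, h.CD, Matrix.vecMul_one]

lemma vecMul_step {C : Matrix ι ι ℤ} {j l : ι} (a : ι → ℤ) (t : ι) :
    (a ᵥ* (C * transvection j l 1)) t = (a ᵥ* C) t + if t = l then (a ᵥ* C) j else 0 := by
  rw [← Matrix.vecMul_vecMul]
  generalize a ᵥ* C = b
  simp only [transvection, Matrix.vecMul_add, Matrix.vecMul_one, Pi.add_apply]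
  congr 1
  simp only [Matrix.vecMul, dotProduct, Matrix.single_apply]
  split_ifs with h
  · subst h
    rw [Finset.sum_eq_single j]
    · simp
    · intro i _ hi
      simp [hi.symm]
    · simp
  · apply Finset.sum_eq_zero
    intro i _
    rw [if_neg (by rintro ⟨-, rfl⟩; exact h rfl), mul_zero]

lemma row_step {D : Matrix ι ι ℤ} {j l : ι} (t : ι) :
    (transvection j l (-1) * D : Matrix ι ι ℤ) t = D t - if t = j then D l else 0 := by
  funext b
  split_ifs with h
  · subst h
    rw [transvection_mul_apply_same]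
    simp [sub_eq_add_neg]
  · rw [transvection_mul_apply_of_ne (ha := h)]
    simp

include hc in
lemma step {C D : Matrix ι ι ℤ} (h : IsSt V c C D) {j l : ι} (hjl : j ≠ l)
    (hmem : mon c (D j) / mon c (D l) ∈ V) :
    IsSt V c (C * transvection j l 1) (transvection j l (-1) * D) := by
  refine ⟨?_, ?_, ?_⟩
  · rw [Matrix.mul_assoc, ← Matrix.mul_assoc (transvection j l 1),
      transvection_mul_transvection_same _ _ hjl]
    simp [h.CD]
  · intro i t
    by_cases ht : t = l
    · subst ht
      rw [mul_transvection_apply_same]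
      have := h.nonneg i t
      have := h.nonneg i j
      omega
    · rw [mul_transvection_apply_of_ne (hb := ht)]
      exact h.nonneg i t
  · intro t
    rw [row_step]
    split_ifs with ht
    · subst ht
      rw [mon_sub hc]
      exact hmem
    · simpa using h.mem t

include hc in
lemma good_step {C D : Matrix ι ι ℤ} (h : IsSt V c C D) {j l : ι} (hjl : j ≠ l)
    (hmem : mon c (D j) / mon c (D l) ∈ V) {a : ι → ℤ} (ha : Good V c C D a) :
    Good V c (C * transvection j l 1) (transvection j l (-1) * D) a := by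
  intro t
  rw [vecMul_step, row_step]
  have hz : ∀ t, mon c (D t) ≠ 0 := fun t => mon_ne_zero hc _
  by_cases ht : t = l
  · subst ht
    rw [if_pos rfl, if_neg (Ne.symm hjl), sub_zero]
    rcases ha t with h1 | h1
    · rcases ha j with h2 | h2
      · left; omega
      · right
        have : (mon c (D t))⁻¹ = (mon c (D j) / mon c (D t)) * (mon c (D j))⁻¹ := by
          field_simp [hz]
        rw [this]
        exact mul_mem hmem h2
    · exact Or.inr h1
  · rw [if_neg ht, add_zero]
    rcases ha t with h1 | h1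
    · exact Or.inl h1
    · by_cases htj : t = j
      · subst htj
        right
        rw [if_pos rfl, mon_sub hc]
        have : (mon c (D t) / mon c (D l))⁻¹ = (mon c (D l)) * (mon c (D t))⁻¹ := by
          field_simp [hz]
        rw [this]
        exact mul_mem (h.mem l) h1
      · rw [if_neg htj, sub_zero]
        exact Or.inr h1

/-- termination measure -/
noncomputable def meas (N : Finset ι) (b : ι → ℤ) : ℕ ×ₗ (ℕ ×ₗ (ℕ ×ₗ ℕ)) :=
  toLex (N.card, toLex (N.sup (fun l => (-b l).toNat), toLex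
    ((N.filter (fun l => (-b l).toNat = N.sup (fun l => (-b l).toNat))).card,
     ∑ l ∈ N, (b l).toNat)))

omit [Fintype ι] [DecidableEq ι] in
lemma meas_lt_of_ssubset {N' N : Finset ι} (h : N' ⊂ N) (b' b : ι → ℤ) :
    meas N' b' < meas N b := by
  rw [meas, meas, Prod.Lex.toLex_lt_toLex]
  exact Or.inl (Finset.card_lt_card h)

omit [Fintype ι] in
lemma meas_lt_a {N : Finset ι} {b : ι → ℤ} {i j : ι} (hi : i ∈ N) (hj : j ∈ N)
    (hm : (-b i).toNat = N.sup (fun l => (-b l).toNat)) (hbi : b i < 0) (hbj : 0 < b j) :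
    meas N (fun t => b t + if t = j then b i else 0) < meas N b := by
  have hij : i ≠ j := by rintro rfl; omega
  have hle : ∀ l ∈ N, (-b l).toNat ≤ (-b i).toNat := by
    intro l hl
    rw [hm]
    exact Finset.le_sup (f := fun l => (-b l).toNat) hl
  have hsup : N.sup (fun l => (-(b l + if l = j then b i else 0)).toNat) = (-b i).toNat := by
    apply le_antisymm
    · apply Finset.sup_le
      intro l hl
      by_cases h : l = j
      · subst h
        rw [if_pos rfl]
        omega
      · rw [if_neg h, add_zero]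
        exact hle l hl
    · have := Finset.le_sup (f := fun l => (-(b l + if l = j then b i else 0)).toNat) hi
      simpa [hij] using this
  rw [meas, meas, Prod.Lex.toLex_lt_toLex]
  right
  refine ⟨rfl, ?_⟩
  simp only
  rw [Prod.Lex.toLex_lt_toLex]
  right
  simp only
  refine ⟨by rw [hsup, hm], ?_⟩
  rw [Prod.Lex.toLex_lt_toLex]
  right
  simp only
  refine ⟨?_, ?_⟩
  · rw [hsup, ← hm]
    congr 1
    apply Finset.filter_congr
    intro l hl
    by_cases h : l = j
    · subst h
      rw [if_pos rfl]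
      constructor <;> intro h' <;> omega
    · rw [if_neg h, add_zero]
  · apply Finset.sum_lt_sum
    · intro l hl
      split_ifs <;> omega
    · exact ⟨j, hj, by rw [if_pos rfl]; omega⟩

omit [Fintype ι] in
lemma meas_lt_b {N : Finset ι} {b : ι → ℤ} {i j : ι} (hi : i ∈ N)
    (hm : (-b i).toNat = N.sup (fun l => (-b l).toNat)) (hbi : b i < 0) (hbj : 0 < b j) :
    meas N (fun t => b t + if t = i then b j else 0) < meas N b := by
  have hle : ∀ l ∈ N, (-b l).toNat ≤ (-b i).toNat := by
    intro l hl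
    rw [hm]
    exact Finset.le_sup (f := fun l => (-b l).toNat) hl
  have hsup : N.sup (fun l => (-(b l + if l = i then b j else 0)).toNat) ≤ (-b i).toNat := by
    apply Finset.sup_le
    intro l hl
    by_cases h : l = i
    · subst h
      rw [if_pos rfl]
      omega
    · rw [if_neg h, add_zero]
      exact hle l hl
  rw [meas, meas, Prod.Lex.toLex_lt_toLex]
  right
  refine ⟨rfl, ?_⟩
  simp only
  rw [Prod.Lex.toLex_lt_toLex]
  rw [← hm]
  rcases lt_or_eq_of_le hsup with h | h
  · exact Or.inl h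
  right
  refine ⟨h, ?_⟩
  simp only
  rw [Prod.Lex.toLex_lt_toLex]
  left
  simp only
  apply Finset.card_lt_card
  rw [Finset.ssubset_iff_of_subset]
  · refine ⟨i, Finset.mem_filter.2 ⟨hi, rfl⟩, ?_⟩
    intro hcon
    have := (Finset.mem_filter.1 hcon).2
    rw [if_pos rfl, h] at this
    omega
  · intro l hl
    rw [Finset.mem_filter] at hl ⊢
    refine ⟨hl.1, ?_⟩
    have h2 := hl.2
    rw [h] at h2
    by_cases hli : l = i
    · rw [hli]
    · rwa [if_neg hli, add_zero] at h2

variable (V) in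
/-- nonunit indices -/
noncomputable def nonU (c : ι → K) (D : Matrix ι ι ℤ) : Finset ι := by
  classical exact Finset.univ.filter (fun l => (mon c (D l))⁻¹ ∉ V)

omit [DecidableEq ι] in
lemma mem_nonU {D : Matrix ι ι ℤ} {l : ι} : l ∈ nonU V c D ↔ (mon c (D l))⁻¹ ∉ V := by
  classical
  simp [nonU]

include hc in
lemma nonU_step {C D : Matrix ι ι ℤ} (h : IsSt V c C D) (j l : ι) :
    nonU V c (transvection j l (-1) * D) ⊆ nonU V c D := by
  intro t ht
  rw [mem_nonU] at ht ⊢
  rw [row_step] at ht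
  split_ifs at ht with htj
  · subst htj
    intro h1
    apply ht
    rw [mon_sub hc]
    have hz : ∀ t, mon c (D t) ≠ 0 := fun t => mon_ne_zero hc _
    have : (mon c (D t) / mon c (D l))⁻¹ = (mon c (D l)) * (mon c (D t))⁻¹ := by
      field_simp [hz]
    rw [this]
    exact mul_mem (h.mem l) h1
  · simpa using ht

include hc in
lemma meas_step {C D : Matrix ι ι ℤ} (h : IsSt V c C D) (j l : ι) (a : ι → ℤ)
    (hlt : meas (nonU V c D) (fun t => (a ᵥ* C) t + if t = l then (a ᵥ* C) j else 0) <
      meas (nonU V c D) (a ᵥ* C)) :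
    meas (nonU V c (transvection j l (-1) * D)) (a ᵥ* (C * transvection j l 1)) <
      meas (nonU V c D) (a ᵥ* C) := by
  have hsub := nonU_step hc h j l
  rcases eq_or_ssubset_of_subset hsub with h1 | h1
  · rw [h1]
    have : a ᵥ* (C * transvection j l 1) =
        (fun t => (a ᵥ* C) t + if t = l then (a ᵥ* C) j else 0) := by
      funext t
      exact vecMul_step a t
    rw [this]
    exact hlt
  · exact meas_lt_of_ssubset h1 _ _

include hc in
lemma exists_pos {C D : Matrix ι ι ℤ} (h : IsSt V c C D) {a : ι → ℤ} (ha : mon c a ∈ V)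
    {i : ι} (hi : i ∈ nonU V c D) (hbi : (a ᵥ* C) i < 0) :
    ∃ j ∈ nonU V c D, 0 < (a ᵥ* C) j := by
  by_contra hcon
  push Not at hcon
  rw [mem_nonU] at hi
  apply hi
  have hz : ∀ t, mon c (D t) ≠ 0 := fun t => mon_ne_zero hc _
  rw [← mon_new hc h] at ha
  set b := a ᵥ* C with hb
  have h1 : mon (fun l => mon c (D l)) (-b - Pi.single i 1) ∈ V := by
    apply mon_mem_of
    intro t
    apply zpow_mem_of _ (h.mem t)
    by_cases ht : t ∈ nonU V c D
    · left
      by_cases hti : t = i
      · subst hti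
        simp only [Pi.sub_apply, Pi.neg_apply, Pi.single_eq_same]
        omega
      · have := hcon t ht
        simp only [Pi.sub_apply, Pi.neg_apply, Pi.single_apply, if_neg hti]
        omega
    · right
      rw [mem_nonU, not_not] at ht
      exact ht
  have h2 := mul_mem ha h1
  rw [← mon_add hz] at h2
  have h3 : b + (-b - Pi.single i 1) = - (1 : Matrix ι ι ℤ) i := by
    funext t
    simp [Matrix.one_apply, Pi.single_apply, eq_comm]
    ring
  rw [h3] at h2
  have h4 : mon (fun l => mon c (D l)) (-(1 : Matrix ι ι ℤ) i) = (mon c (D i))⁻¹ := by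
    have : -(1 : Matrix ι ι ℤ) i = 0 - (1 : Matrix ι ι ℤ) i := by simp
    rw [this, mon_sub hz, mon_one]
    simp [mon]
  rwa [h4] at h2

include hc in
/-- one exponent vector can be made good -/
lemma perron_one (a : ι → ℤ) (ha : mon c a ∈ V) : ∀ (C D : Matrix ι ι ℤ), IsSt V c C D →
    ∃ C' D', IsSt V c C' D' ∧ Good V c C' D' a ∧
      ∀ a', Good V c C D a' → Good V c C' D' a' := by
  suffices H : ∀ (w : ℕ ×ₗ (ℕ ×ₗ (ℕ ×ₗ ℕ))) (C D : Matrix ι ι ℤ), IsSt V c C D →
      meas (nonU V c D) (a ᵥ* C) = w →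
      ∃ C' D', IsSt V c C' D' ∧ Good V c C' D' a ∧
      ∀ a', Good V c C D a' → Good V c C' D' a' from
    fun C D h => H _ C D h rfl
  intro w
  induction w using WellFoundedLT.induction with
  | ind w ih =>
  intro C D h hw
  subst hw
  by_cases hg : Good V c C D a
  · exact ⟨C, D, h, hg, fun _ h => h⟩
  -- choose the most negative nonunit index
  obtain ⟨i0, hi0⟩ : ∃ i0, ¬ (0 ≤ (a ᵥ* C) i0 ∨ (mon c (D i0))⁻¹ ∈ V) := by
    by_contra hcon
    apply hg
    intro l
    by_contra hl
    exact hcon ⟨l, hl⟩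
  push Not at hi0
  have hi0N : i0 ∈ nonU V c D := mem_nonU.2 hi0.2
  obtain ⟨i, hi, him⟩ := Finset.exists_mem_eq_sup (nonU V c D) ⟨i0, hi0N⟩
    (fun l => (-(a ᵥ* C) l).toNat)
  have hbi : (a ᵥ* C) i < 0 := by
    have := Finset.le_sup (f := fun l => (-(a ᵥ* C) l).toNat) hi0N
    rw [him] at this
    have := hi0.1
    omega
  obtain ⟨j, hj, hbj⟩ := exists_pos hc h ha hi hbi
  have hij : i ≠ j := by rintro rfl; omega
  have hz : ∀ t, mon c (D t) ≠ 0 := fun t => mon_ne_zero hc _
  rcases V.mem_or_inv_mem (mon c (D i) / mon c (D j)) with h1 | h1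
  · have h2 := step hc h hij h1
    have h3 := meas_step hc h i j a (meas_lt_a hi hj him.symm hbi hbj)
    obtain ⟨C', D', h4, h5, h6⟩ := ih _ h3 _ _ h2 rfl
    exact ⟨C', D', h4, h5, fun a' ha' => h6 a' (good_step hc h hij h1 ha')⟩
  · have h1' : mon c (D j) / mon c (D i) ∈ V := by
      rwa [inv_div] at h1
    have h2 := step hc h hij.symm h1'
    have h3 := meas_step hc h j i a (meas_lt_b hi him.symm hbi hbj)
    obtain ⟨C', D', h4, h5, h6⟩ := ih _ h3 _ _ h2 rfl
    exact ⟨C', D', h4, h5, fun a' ha' => h6 a' (good_step hc h hij.symm h1' ha')⟩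

include hc in
/-- Perron transforms: finitely many Laurent monomials of the valuation ring become
genuine monomials up to units. -/
theorem perron (hcV : ∀ i, c i ∈ V) (T : List (ι → ℤ)) (hT : ∀ a ∈ T, mon c a ∈ V) :
    ∃ C D : Matrix ι ι ℤ, IsSt V c C D ∧ ∀ a ∈ T, Good V c C D a := by
  induction T with
  | nil =>
    refine ⟨1, 1, ⟨by simp, ?_, ?_⟩, by simp⟩
    · intro i l
      rw [Matrix.one_apply]
      split_ifs <;> simp
    · intro l
      rw [mon_one]
      exact hcV l
  | cons a T ih =>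
    obtain ⟨C, D, h1, h2⟩ := ih (fun b hb => hT b (List.mem_cons_of_mem _ hb))
    obtain ⟨C', D', h3, h4, h5⟩ := perron_one hc a (hT a List.mem_cons_self) C D h1
    refine ⟨C', D', h3, ?_⟩
    intro b hb
    rcases List.mem_cons.1 hb with rfl | hb
    · exact h4
    · exact h5 _ (h2 _ hb)

end perron

end LU
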