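import Pool.Agent.helper90.LU.Crit
import Pool.Agent.helper90.LU.Perron

open IsLocalRing

namespace LU

universe u

section psi

variable {k K : Type u} [Field k] [Field K] [Algebra k K] (V : ValuationSubring K)
  (hV : ∀ c : k, algebraMap k K c ∈ V) {ι : Type} (z : ι → K) (hz : ∀ i, z i ∈ V)

/-- the residue map on the polynomial ring, and its first order thickening along `v` -/
noncomputable def psi0 (v : ι → ResidueField V) :
    MvPolynomial ι k →+* DualNumber (ResidueField V) :=
  MvPolynomial.eval₂Hom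
    ((TrivSqZeroExt.inlHom (ResidueField V) (ResidueField V)).comp
      ((residue V).comp ((algebraMap k K).codRestrict V.toSubring hV)))
    (fun i => TrivSqZeroExt.inl (residue V ⟨z i, hz i⟩) + TrivSqZeroExt.inr (v i))

lemma fst_psi0 (v : ι → ResidueField V) (f : MvPolynomial ι k) :
    (psi0 V hV z hz v f).fst = residue V (evV V hV z hz f) := by
  have : (TrivSqZeroExt.fstHom (ResidueField V) (ResidueField V) (ResidueField V) :
      DualNumber (ResidueField V) →+* ResidueField V).comp (psi0 V hV z hz v) =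
      (residue V).comp (evV V hV z hz) := by
    apply MvPolynomial.ringHom_ext
    · intro c
      simp [psi0, evV]
    · intro i
      simp [psi0, evV]
  exact congrArg (fun g => g f) this

/-- the thickening on the local ring -/
noncomputable def psi (v : ι → ResidueField V) : SS V hV z hz →+* DualNumber (ResidueField V) :=
  IsLocalization.lift (M := (PP V hV z hz).primeCompl) (g := psi0 V hV z hz v) (by
    intro y
    rw [TrivSqZeroExt.isUnit_iff_isUnit_fst, fst_psi0]
    rw [isUnit_iff_ne_zero]
    intro h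
    apply y.2
    rw [residue_eq_zero_iff] at h
    exact h)

lemma psi_algebraMap (v : ι → ResidueField V) (f : MvPolynomial ι k) :
    psi V hV z hz v (algebraMap _ _ f) = psi0 V hV z hz v f := IsLocalization.lift_eq _ _

lemma fst_psi (v : ι → ResidueField V) (s : SS V hV z hz) :
    (psi V hV z hz v s).fst = residue V (evS V hV z hz s) := by
  have : (TrivSqZeroExt.fstHom (ResidueField V) (ResidueField V) (ResidueField V) :
      DualNumber (ResidueField V) →+* ResidueField V).comp (psi V hV z hz v) =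
      (residue V).comp (evS V hV z hz) := by
    apply IsLocalization.ringHom_ext (PP V hV z hz).primeCompl
    ext f
    · simp [psi_algebraMap, evS_algebraMap, fst_psi0]
    · simp [psi_algebraMap, evS_algebraMap, fst_psi0]
  exact congrArg (fun g => g s) this

end psi

section LD

variable {S κ : Type*} [CommRing S] [Field κ]

/-- `s` has logarithmic derivative `a` along `ψ`. -/
def LD (ψ : S →+* DualNumber κ) (s : S) (a : κ) : Prop := (ψ s).snd = a * (ψ s).fst

lemma LD.one (ψ : S →+* DualNumber κ) : LD ψ 1 0 := by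
  simp [LD]

lemma LD.mul {ψ : S →+* DualNumber κ} {s t : S} {a b : κ} (hs : LD ψ s a) (ht : LD ψ t b) :
    LD ψ (s * t) (a + b) := by
  unfold LD at *
  rw [map_mul, TrivSqZeroExt.snd_mul, TrivSqZeroExt.fst_mul, hs, ht]
  simp only [smul_eq_mul, MulOpposite.smul_eq_mul_unop, MulOpposite.unop_op]
  ring

lemma LD.pow {ψ : S →+* DualNumber κ} {s : S} {a : κ} (hs : LD ψ s a) (n : ℕ) :
    LD ψ (s ^ n) (n * a) := by
  induction n with
  | zero => simpa using LD.one ψ
  | succ n ih =>
    have := ih.mul hs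
    rw [pow_succ]
    convert this using 1
    push_cast
    ring

lemma LD.inv {ψ : S →+* DualNumber κ} {s : S} {a : κ} (hs : LD ψ s a) (hu : IsUnit s) :
    LD ψ (Ring.inverse s) (-a) := by
  have h1 : ψ s * ψ (Ring.inverse s) = 1 := by
    rw [← map_mul, Ring.mul_inverse_cancel _ hu, map_one]
  have h2 := congrArg TrivSqZeroExt.fst h1
  have h3 := congrArg TrivSqZeroExt.snd h1
  rw [TrivSqZeroExt.fst_mul, TrivSqZeroExt.fst_one] at h2
  rw [TrivSqZeroExt.snd_mul, TrivSqZeroExt.snd_one] at h3
  unfold LD at *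
  rw [hs] at h3
  simp only [smul_eq_mul, MulOpposite.smul_eq_mul_unop, MulOpposite.unop_op] at h3
  have h4 : (ψ s).fst ≠ 0 := by
    intro h
    rw [h, zero_mul] at h2
    exact zero_ne_one h2
  apply mul_left_cancel₀ h4
  linear_combination h3

/-- integral powers, negative ones only meaningful for units -/
noncomputable def zp (z : S) (b : ℤ) : S :=
  if 0 ≤ b then z ^ b.toNat else (Ring.inverse z) ^ (-b).toNat

lemma zp_map {E : Type*} [Field E] (φ : S →+* E) {z : S} (hz : φ z ≠ 0) {b : ℤ}
    (h : 0 ≤ b ∨ IsUnit z) : φ (zp z b) = (φ z) ^ b := by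
  unfold zp
  split_ifs with hb
  · rw [map_pow, ← zpow_natCast, Int.toNat_of_nonneg hb]
  · have hu := h.resolve_left hb
    have h1 : φ (Ring.inverse z) = (φ z)⁻¹ := by
      apply eq_inv_of_mul_eq_one_left
      rw [← map_mul, Ring.inverse_mul_cancel _ hu, map_one]
    rw [map_pow, h1, inv_pow, ← zpow_natCast, Int.toNat_of_nonneg (by omega), zpow_neg, inv_inv]

lemma LD.zp {ψ : S →+* DualNumber κ} {z : S} {a : κ} (hz : LD ψ z a) {b : ℤ}
    (h : 0 ≤ b ∨ IsUnit z) : LD ψ (zp z b) (b * a) := by
  unfold LU.zp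
  split_ifs with hb
  · have := hz.pow b.toNat
    convert this using 2
    rw [← Int.cast_natCast, Int.toNat_of_nonneg hb]
  · have := (hz.inv (h.resolve_left hb)).pow (-b).toNat
    convert this using 1
    rw [← Int.cast_natCast, Int.toNat_of_nonneg (by omega)]
    push_cast
    ring

variable {Λ : Type*} [Fintype Λ]

/-- Laurent monomials in the local ring -/
noncomputable def monS (Z : Λ → S) (b : Λ → ℤ) : S := ∏ l, zp (Z l) (b l)

lemma monS_map {E : Type*} [Field E] (φ : S →+* E) {Z : Λ → S} (hz : ∀ l, φ (Z l) ≠ 0)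
    {b : Λ → ℤ} (h : ∀ l, 0 ≤ b l ∨ IsUnit (Z l)) :
    φ (monS Z b) = mon (fun l => φ (Z l)) b := by
  rw [monS, map_prod, mon]
  exact Finset.prod_congr rfl fun l _ => zp_map φ (hz l) (h l)

lemma LD.monS {ψ : S →+* DualNumber κ} {Z : Λ → S} {d : Λ → κ} (hz : ∀ l, LD ψ (Z l) (d l))
    {b : Λ → ℤ} (h : ∀ l, 0 ≤ b l ∨ IsUnit (Z l)) :
    LD ψ (monS Z b) (∑ l, b l * d l) := by
  classical
  unfold LU.monS
  induction (Finset.univ : Finset Λ) using Finset.cons_induction with
  | empty => simpa using LD.one ψ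
  | cons i s hi ih =>
    rw [Finset.prod_cons, Finset.sum_cons]
    exact ((hz i).zp (h i)).mul ih

end LD

section eval2

variable {k κ : Type*} [Field k] [Field κ]

lemma snd_hom_eval (g : MvPolynomial (Fin 2) k →+* DualNumber κ)
    (hg : ∀ c, (g (MvPolynomial.C c)).snd = 0) (q : MvPolynomial (Fin 2) k) :
    (g q).snd = (g (MvPolynomial.X 0)).snd * (g (MvPolynomial.pderiv 0 q)).fst +
      (g (MvPolynomial.X 1)).snd * (g (MvPolynomial.pderiv 1 q)).fst := by
  induction q using MvPolynomial.induction_on with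
  | C c => simp [hg]
  | add p q hp hq =>
    simp only [map_add, TrivSqZeroExt.snd_add, TrivSqZeroExt.fst_add, hp, hq]
    ring
  | mul_X p i hp =>
    fin_cases i
    · simp only [Fin.zero_eta, map_mul, TrivSqZeroExt.snd_mul, Derivation.leibniz,
        MvPolynomial.pderiv_X_self, MvPolynomial.pderiv_X_of_ne (i := (1 : Fin 2))
        (j := (0 : Fin 2)) (by decide), hp, smul_eq_mul, map_add, TrivSqZeroExt.fst_add,
        TrivSqZeroExt.fst_mul, MulOpposite.smul_eq_mul_unop, MulOpposite.unop_op, map_one,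
        TrivSqZeroExt.fst_one, map_zero, TrivSqZeroExt.fst_zero]
      ring
    · simp only [Fin.mk_one, map_mul, TrivSqZeroExt.snd_mul, Derivation.leibniz,
        MvPolynomial.pderiv_X_self, MvPolynomial.pderiv_X_of_ne (i := (0 : Fin 2))
        (j := (1 : Fin 2)) (by decide), hp, smul_eq_mul, map_add, TrivSqZeroExt.fst_add,
        TrivSqZeroExt.fst_mul, MulOpposite.smul_eq_mul_unop, MulOpposite.unop_op, map_one,
        TrivSqZeroExt.fst_one, map_zero, TrivSqZeroExt.fst_zero]
      ring

end eval2

section algOver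

variable {σ E k : Type*} [Field k] [Field E] {θ : MvPolynomial σ k →+* E}

lemma AlgOver.of_poly {x : E} {q : Polynomial (MvPolynomial σ k)} (hq : q ≠ 0)
    (h : Polynomial.eval₂ θ x q = 0) : AlgOver θ x := by
  let _ := θ.toAlgebra
  exact ⟨q, hq, h⟩

lemma AlgOver.base (r : MvPolynomial σ k) : AlgOver θ (θ r) := by
  let _ := θ.toAlgebra
  exact isAlgebraic_algebraMap r

lemma AlgOver.add {x y : E} (hx : AlgOver θ x) (hy : AlgOver θ y) : AlgOver θ (x + y) := by
  let _ := θ.toAlgebra
  exact IsAlgebraic.add hx hy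

lemma AlgOver.sub {x y : E} (hx : AlgOver θ x) (hy : AlgOver θ y) : AlgOver θ (x - y) := by
  let _ := θ.toAlgebra
  exact IsAlgebraic.sub hx hy

lemma AlgOver.mul {x y : E} (hx : AlgOver θ x) (hy : AlgOver θ y) : AlgOver θ (x * y) := by
  let _ := θ.toAlgebra
  exact IsAlgebraic.mul hx hy

lemma AlgOver.inv {x : E} (hx : AlgOver θ x) : AlgOver θ x⁻¹ := by
  let _ := θ.toAlgebra
  exact IsAlgebraic.inv hx

lemma AlgOver.pow {x : E} (hx : AlgOver θ x) (n : ℕ) : AlgOver θ (x ^ n) := by
  let _ := θ.toAlgebra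
  exact IsAlgebraic.pow hx n

lemma AlgOver.zpow {x : E} (hx : AlgOver θ x) (n : ℤ) : AlgOver θ (x ^ n) := by
  obtain ⟨m, rfl | rfl⟩ := Int.eq_nat_or_neg n
  · rw [zpow_natCast]; exact hx.pow m
  · rw [zpow_neg, zpow_natCast]; exact (hx.pow m).inv

lemma AlgOver.sum {ι : Type*} (s : Finset ι) {f : ι → E} (h : ∀ i ∈ s, AlgOver θ (f i)) :
    AlgOver θ (∑ i ∈ s, f i) := by
  classical
  induction s using Finset.cons_induction with
  | empty =>
    rw [Finset.sum_empty]
    simpa using AlgOver.base (θ := θ) 0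
  | cons i s hi ih =>
    rw [Finset.sum_cons]
    exact (h i (Finset.mem_cons_self _ _)).add (ih fun j hj => h j (Finset.mem_cons_of_mem hj))

lemma AlgOver.prod {ι : Type*} (s : Finset ι) {f : ι → E} (h : ∀ i ∈ s, AlgOver θ (f i)) :
    AlgOver θ (∏ i ∈ s, f i) := by
  classical
  induction s using Finset.cons_induction with
  | empty =>
    rw [Finset.prod_empty]
    simpa using AlgOver.base (θ := θ) 1
  | cons i s hi ih =>
    rw [Finset.prod_cons]
    exact (h i (Finset.mem_cons_self _ _)).mul (ih fun j hj => h j (Finset.mem_cons_of_mem hj))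

lemma AlgOver.mon {ι : Type*} [Fintype ι] {x : ι → E} (h : ∀ i, AlgOver θ (x i)) (a : ι → ℤ) :
    AlgOver θ (mon x a) :=
  AlgOver.prod _ fun i _ => (h i).zpow _

lemma AlgOver.of_pow_sub {x : E} {p : ℕ} (hp : 2 ≤ p) (h : AlgOver θ (x ^ p - x)) :
    AlgOver θ x := by
  let _ := θ.toAlgebra
  have hd : (Polynomial.X ^ p - Polynomial.X : Polynomial (MvPolynomial σ k)).natDegree = p := by
    rw [Polynomial.natDegree_sub_eq_left_of_natDegree_lt]
    · simp
    · simp; omega
  refine IsAlgebraic.of_aeval (R := MvPolynomial σ k) (Polynomial.X ^ p - Polynomial.X) ?_ ?_ ?_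
  · rw [hd]; omega
  · apply mem_nonZeroDivisors_of_ne_zero
    rw [Polynomial.leadingCoeff_ne_zero]
    intro h0
    rw [h0] at hd
    simp at hd
    omega
  · have e : Polynomial.aeval x (Polynomial.X ^ p - Polynomial.X :
        Polynomial (MvPolynomial σ k)) = x ^ p - x := by simp
    rw [e]
    exact h

/-- evaluation of polynomials in two variables at algebraic elements -/
lemma AlgOver.eval2 {x y : E} (hx : AlgOver θ x) (hy : AlgOver θ y)
    (g : MvPolynomial (Fin 2) k →+* E)
    (hC : ∀ c, g (MvPolynomial.C c) = θ (MvPolynomial.C c))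
    (h0 : g (MvPolynomial.X 0) = x) (h1 : g (MvPolynomial.X 1) = y)
    (q : MvPolynomial (Fin 2) k) : AlgOver θ (g q) := by
  induction q using MvPolynomial.induction_on with
  | C c => rw [hC]; exact AlgOver.base _
  | add p q hp hq => rw [map_add]; exact hp.add hq
  | mul_X p i hp =>
    rw [map_mul]
    fin_cases i
    · exact hp.mul (by simpa [h0] using hx)
    · exact hp.mul (by simpa [h1] using hy)

/-- a root of a separable relation over algebraic data is algebraic -/
lemma AlgOver.of_rel (a : MvPolynomial σ k) {y : E}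
    (g : MvPolynomial (Fin 2) k →+* E)
    (hC : ∀ c, g (MvPolynomial.C c) = θ (MvPolynomial.C c))
    (h0 : g (MvPolynomial.X 0) = θ a) (h1 : g (MvPolynomial.X 1) = y)
    (q : MvPolynomial (Fin 2) k) (hq : g q = 0) (hq' : g (MvPolynomial.pderiv 1 q) ≠ 0) :
    AlgOver θ y := by
  let Q : MvPolynomial (Fin 2) k →+* Polynomial (MvPolynomial σ k) :=
    MvPolynomial.eval₂Hom (Polynomial.C.comp MvPolynomial.C) ![Polynomial.C a, Polynomial.X]
  have hQ : ∀ q, Polynomial.eval₂ θ y (Q q) = g q := by
    intro q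
    have : (Polynomial.eval₂RingHom θ y).comp Q = g := by
      apply MvPolynomial.ringHom_ext
      · intro c
        simp [Q, hC]
      · intro i
        fin_cases i
        · simp [Q, h0]
        · simp [Q, h1]
    exact congrArg (fun f => f q) this
  have hder : ∀ q, Polynomial.derivative (Q q) = Q (MvPolynomial.pderiv 1 q) := by
    intro q
    induction q using MvPolynomial.induction_on with
    | C c => simp [Q]
    | add p q hp hq => simp only [map_add, hp, hq]
    | mul_X p i hp =>
      fin_cases i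
      · have e : MvPolynomial.pderiv (1 : Fin 2) (MvPolynomial.X (0 : Fin 2) :
            MvPolynomial (Fin 2) k) = 0 := MvPolynomial.pderiv_X_of_ne (by decide)
        simp only [Fin.zero_eta, map_mul, Polynomial.derivative_mul, hp, Derivation.leibniz, e,
          smul_zero, zero_add, smul_eq_mul]
        simp [Q, mul_comm]
      · simp only [Fin.mk_one, map_mul, Polynomial.derivative_mul, hp, Derivation.leibniz,
          MvPolynomial.pderiv_X_self, smul_eq_mul, map_add]
        simp [Q, mul_comm]
        ring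
  refine AlgOver.of_poly (q := Q q) ?_ ?_
  · intro h
    apply hq'
    rw [← hQ, ← hder, h]
    simp
  · rw [hQ, hq]

end algOver

section blocks

variable {k K : Type u} [Field k] [Field K] [Algebra k K] (V : ValuationSubring K)
  (hV : ∀ c : k, algebraMap k K c ∈ V) {ι : Type} (z : ι → K) (hz : ∀ i, z i ∈ V)

/-- The criterion with block triangular tangent functionals. -/
theorem crit_blocks [Finite ι] (hgen : IntermediateField.adjoin k (Set.range z) = ⊤)
    {σ : Type} (U : σ → MvPolynomial ι k)
    (hU : AlgebraicIndependent k (fun i => MvPolynomial.aeval z (U i)))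
    {J : Type} [Fintype J] (rk : J → ℕ)
    (F : J → SS V hV z hz) (hF : ∀ j, evS V hV z hz (F j) = 0)
    (v : J → ι → ResidueField V)
    (h0 : ∀ i j, i ≠ j → rk j ≤ rk i → (psi V hV z hz (v i) (F j)).snd = 0)
    (h1 : ∀ i, (psi V hV z hz (v i) (F i)).snd ≠ 0)
    (halg : ∀ (E : Type u) [Field E] (φ : SS V hV z hz →+* E), (∀ j, φ (F j) = 0) →
      (∀ s, φ s = 0 → evS V hV z hz s = 0) → ∀ i,
        AlgOver ((φ.comp (algebraMap (MvPolynomial ι k) (SS V hV z hz))).comp
          (MvPolynomial.aeval U : MvPolynomial σ k →ₐ[k] MvPolynomial ι k).toRingHom)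
          (φ (algebraMap (MvPolynomial ι k) (SS V hV z hz) (MvPolynomial.X i)))) :
    Uniformizable k V := by
  classical
  let e0 : Fin (Fintype.card J) ≃ J := (Fintype.equivFin J).symm
  let e : Fin (Fintype.card J) ≃ J := (Tuple.sort (rk ∘ e0)).trans e0
  have hmono : Monotone (rk ∘ e) := Tuple.monotone_sort (rk ∘ e0)
  refine crit V hV z hz hgen U hU (fun j => F (e j)) (fun j => hF (e j)) (ResidueField V)
    (fun i => psi V hV z hz (v (e i))) ?_ ?_ (fun i => h1 (e i)) ?_
  · intro i s hs
    rw [fst_psi, residue_eq_zero_iff]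
    exact hs
  · intro i j hij
    exact h0 _ _ (fun h => (ne_of_lt hij).symm (e.injective h)) (hmono hij.le)
  · intro E _ φ hφ hφ' i
    refine halg E φ ?_ hφ' i
    intro j
    simpa using hφ (e.symm j)

end blocks

section perronfam

variable {K : Type*} [Field K] {V : ValuationSubring K} {ι : Type*} [Fintype ι] [DecidableEq ι]

lemma mon_single (c : ι → K) (i : ι) (m : ℤ) : mon c (Pi.single i m) = c i ^ m := by
  rw [mon, Finset.prod_eq_single i]
  · simp
  · intro j _ hj
    simp [Pi.single_eq_of_ne hj]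
  · simp

theorem perron_fam {c : ι → K} (hc : ∀ i, c i ≠ 0) (hcV : ∀ i, c i ∈ V) {A : Type*} [Fintype A]
    (f : A → ι → ℤ) (hf : ∀ x, mon c (f x) ∈ V) :
    ∃ C D : Matrix ι ι ℤ, IsSt V c C D ∧ ∀ x, Good V c C D (f x) := by
  obtain ⟨C, D, h1, h2⟩ := perron hc hcV ((Finset.univ : Finset A).toList.map f) (by
    intro a ha
    obtain ⟨x, -, rfl⟩ := List.mem_map.1 ha
    exact hf x)
  exact ⟨C, D, h1, fun x => h2 _ (List.mem_map.2 ⟨x, by simp, rfl⟩)⟩

end perronfam

end LU
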