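import Mathlib

open IsLocalRing

namespace LU

/-- generators of the maximal ideal containing a prescribed element outside the square -/
lemma exists_gen {R : Type*} [CommRing R] [IsLocalRing R] [IsNoetherianRing R] {x : R}
    (hx : x ∈ maximalIdeal R) (hx2 : x ∉ maximalIdeal R ^ 2) :
    ∃ d : ℕ, d + 1 = (maximalIdeal R).spanFinrank ∧ ∃ f : Fin d → R,
      Ideal.span (insert x (Set.range f)) = maximalIdeal R := by
  let v : CotangentSpace R := (maximalIdeal R).toCotangent ⟨x, hx⟩
  have hv : v ≠ 0 := by
    intro h
    exact hx2 ((Ideal.toCotangent_eq_zero _ _).1 h)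
  let L : Submodule (ResidueField R) (CotangentSpace R) :=
    Submodule.span (ResidueField R) {v}
  have h1 : Module.finrank (ResidueField R) (CotangentSpace R ⧸ L) + 1 =
      Module.finrank (ResidueField R) (CotangentSpace R) := by
    have := Submodule.finrank_quotient_add_finrank L
    rwa [show Module.finrank (ResidueField R) L = 1 from finrank_span_singleton hv] at this
  let b := Module.finBasis (ResidueField R) (CotangentSpace R ⧸ L)
  choose g hg using fun i => L.mkQ_surjective (b i)
  choose f hf using fun i => (maximalIdeal R).toCotangent_surjective (g i)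
  refine ⟨_, h1.trans (spanFinrank_maximalIdeal_eq_finrank_cotangentSpace R).symm,
    fun i => (f i : R), ?_⟩
  have h2 : Submodule.span (ResidueField R) ((maximalIdeal R).toCotangent ''
      (insert ⟨x, hx⟩ (Set.range f))) = ⊤ := by
    rw [Set.image_insert_eq, Submodule.span_insert, ← Set.range_comp]
    have h3 : Submodule.map L.mkQ (L ⊔ Submodule.span (ResidueField R)
        (Set.range ((maximalIdeal R).toCotangent ∘ f))) = ⊤ := by
      rw [Submodule.map_sup, Submodule.map_span L.mkQ (Set.range _), ← Set.range_comp]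
      have : (L.mkQ ∘ ((maximalIdeal R).toCotangent ∘ f)) = b := by
        funext i
        simp only [Function.comp]
        rw [hf, hg]
      rw [this, b.span_eq]
      simp
    have h4 := congrArg (Submodule.comap L.mkQ) h3
    rw [Submodule.comap_map_eq, Submodule.comap_top, Submodule.ker_mkQ, sup_comm, ← sup_assoc,
      sup_idem] at h4
    exact h4
  rw [CotangentSpace.span_image_eq_top_iff] at h2
  have h3 := congrArg (Submodule.map (maximalIdeal R).subtype) h2
  rw [Submodule.map_span, Submodule.map_top, Submodule.range_subtype, Set.image_insert_eq,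
    ← Set.range_comp] at h3
  exact h3

lemma quot_reg {R : Type*} [CommRing R] [IsRegularLocalRing R] {x : R}
    (hx : x ∈ maximalIdeal R) (hx2 : x ∉ maximalIdeal R ^ 2) :
    ∃ _ : IsRegularLocalRing (R ⧸ Ideal.span {x}),
      (maximalIdeal (R ⧸ Ideal.span {x})).spanFinrank + 1 ≤ (maximalIdeal R).spanFinrank := by
  obtain ⟨d, hd, f, hf⟩ := exists_gen hx hx2
  have hne : Ideal.span {x} ≠ ⊤ := by
    intro h
    have : Ideal.span {x} ≤ maximalIdeal R := by
      rw [Ideal.span_singleton_le_iff_mem]; exact hx
    rw [h] at this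
    exact (maximalIdeal.isMaximal R).ne_top (top_le_iff.1 this)
  have : Nontrivial (R ⧸ Ideal.span {x}) := Ideal.Quotient.nontrivial_iff.2 hne
  have hloc : IsLocalRing (R ⧸ Ideal.span {x}) :=
    IsLocalRing.of_surjective' (Ideal.Quotient.mk _) Ideal.Quotient.mk_surjective
  have hlh : IsLocalHom (Ideal.Quotient.mk (Ideal.span {x})) := 
    IsLocalHom.of_surjective _ Ideal.Quotient.mk_surjective
  have hm : maximalIdeal (R ⧸ Ideal.span {x}) =
      Ideal.span (Set.range (fun i => Ideal.Quotient.mk (Ideal.span {x}) (f i))) := by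
    have h1 := IsLocalRing.map_maximalIdeal_of_surjective (Ideal.Quotient.mk (Ideal.span {x}))
      Ideal.Quotient.mk_surjective
    rw [← h1, ← hf, Ideal.map_span, Set.image_insert_eq, ← Set.range_comp, Ideal.span_insert]
    have h2 : (Ideal.Quotient.mk (Ideal.span {x})) x = 0 :=
      Ideal.Quotient.eq_zero_iff_mem.2 (Ideal.mem_span_singleton_self x)
    rw [h2]
    simp only [Ideal.span_singleton_zero, bot_sup_eq]
    rfl
  have hle : (maximalIdeal (R ⧸ Ideal.span {x})).spanFinrank ≤ d := by
    rw [hm]
    refine (Submodule.spanFinrank_span_le_ncard_of_finite (Set.finite_range _)).trans ?_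
    have := Set.ncard_image_le (Set.finite_univ (α := Fin d))
      (f := fun i => Ideal.Quotient.mk (Ideal.span {x}) (f i))
    rw [Set.image_univ, Set.ncard_univ, Nat.card_fin] at this
    exact this
  have hdim : ringKrullDim R ≤ ringKrullDim (R ⧸ Ideal.span {x}) + 1 := by
    have := ringKrullDim_le_ringKrullDim_quotient_add_encard ({x} : Set R) (by
      rw [Set.singleton_subset_iff]
      rw [SetLike.mem_coe, IsLocalRing.ringJacobson_eq_maximalIdeal]
      exact hx)
    simpa using this
  have hreg : IsRegularLocalRing (R ⧸ Ideal.span {x}) := by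
    apply IsRegularLocalRing.of_spanFinrank_maximalIdeal_le
    rw [← IsRegularLocalRing.spanFinrank_maximalIdeal, ← hd] at hdim
    revert hdim
    generalize ringKrullDim (R ⧸ Ideal.span {x}) = D
    intro hdim
    have h5 : ((d : ℕ) : WithBot ℕ∞) ≤ D := by
      push_cast at hdim
      induction D with
      | bot => 
        simp at hdim
      | coe D =>
        induction D with
        | top => exact le_top
        | coe D => 
          norm_cast at hdim ⊢
          omega
    exact le_trans (by exact_mod_cast hle) h5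
  exact ⟨hreg, by omega⟩

lemma isDomain_aux (d : ℕ) : ∀ (R : Type*) [CommRing R] [IsRegularLocalRing R],
    (maximalIdeal R).spanFinrank ≤ d → IsDomain R := by
  induction d with
  | zero =>
    intro R _ _ h
    have h0 : maximalIdeal R = ⊥ := by
      rw [← Submodule.spanFinrank_eq_zero_iff_eq_bot (maximalIdeal R).fg_of_isNoetherianRing]
      omega
    have : IsField R := IsLocalRing.isField_iff_maximalIdeal_eq.2 h0
    exact this.isDomain
  | succ d ih =>
    intro R _ _ h
    by_cases hlt : (maximalIdeal R).spanFinrank ≤ d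
    · exact ih R hlt
    have hd : (maximalIdeal R).spanFinrank = d + 1 := by omega
    -- the maximal ideal is not its square
    have hsq : ¬ maximalIdeal R ≤ maximalIdeal R ^ 2 := by
      intro hle
      have := Submodule.eq_bot_of_le_smul_of_le_jacobson_bot (maximalIdeal R) (maximalIdeal R)
        (IsNoetherian.noetherian _) (by rw [smul_eq_mul, ← pow_two]; exact hle)
        (IsLocalRing.jacobson_eq_maximalIdeal _ bot_ne_top).ge
      rw [this] at hd
      simp at hd
    have hmin : ∀ q ∈ minimalPrimes R, ¬ maximalIdeal R ≤ q := by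
      intro q hq hle
      have hqp : q.IsPrime := hq.1.1
      have hqe : q = maximalIdeal R :=
        le_antisymm (IsLocalRing.le_maximalIdeal hqp.ne_top) hle
      have h1 : (maximalIdeal R).height = 0 := by
        rw [← hqe]
        exact Ideal.height_eq_zero_iff.2 hq
      have h2 := IsLocalRing.maximalIdeal_height_eq_ringKrullDim (R := R)
      rw [h1, ← IsRegularLocalRing.spanFinrank_maximalIdeal, hd] at h2
      norm_cast at h2
    obtain ⟨x, hx, hx2, hxq⟩ : ∃ x ∈ maximalIdeal R, x ∉ maximalIdeal R ^ 2 ∧
        ∀ q ∈ minimalPrimes R, x ∉ q := by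
      by_contra hcon
      push Not at hcon
      have hfin := minimalPrimes.finite_of_isNoetherianRing R
      have hcov : ((maximalIdeal R : Ideal R) : Set R) ⊆
          ⋃ i ∈ ((insert (maximalIdeal R ^ 2) hfin.toFinset : Finset (Ideal R)) :
            Set (Ideal R)), ((id i : Ideal R) : Set R) := by
        intro x hx
        by_cases h2 : x ∈ maximalIdeal R ^ 2
        · simp only [Set.mem_iUnion]
          exact ⟨_, Finset.mem_insert_self _ _, h2⟩
        · obtain ⟨q, hq, hxq⟩ := hcon x hx h2
          simp only [Set.mem_iUnion]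
          exact ⟨q, Finset.mem_insert_of_mem (hfin.mem_toFinset.2 hq), hxq⟩
      rw [Ideal.subset_union_prime (maximalIdeal R ^ 2) (maximalIdeal R ^ 2)] at hcov
      · obtain ⟨i, hi, hle⟩ := hcov
        rcases Finset.mem_insert.1 hi with rfl | hi
        · exact hsq hle
        · exact hmin i (hfin.mem_toFinset.1 hi) hle
      · intro i hi hne _
        rcases Finset.mem_insert.1 hi with h | h
        · exact absurd h hne
        · exact (hfin.mem_toFinset.1 h).1.1
    obtain ⟨hreg, hrk⟩ := quot_reg hx hx2
    have hdom := ih (R ⧸ Ideal.span {x}) (by omega)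
    have hprime : (Ideal.span {x}).IsPrime := (Ideal.Quotient.isDomain_iff_prime _).1 hdom
    obtain ⟨q, hq, hle⟩ := Ideal.exists_minimalPrimes_le (I := (⊥ : Ideal R))
      (J := Ideal.span {x}) bot_le
    have hqp : q.IsPrime := hq.1.1
    have hxq' : x ∉ q := hxq q hq
    have hq0 : q = ⊥ := by
      refine Submodule.eq_bot_of_le_smul_of_le_jacobson_bot (Ideal.span {x}) q
        (IsNoetherian.noetherian _) ?_ ?_
      · intro y hy
        obtain ⟨z, rfl⟩ := Ideal.mem_span_singleton'.1 (hle hy)
        rcases hqp.mem_or_mem hy with hz | hz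
        · rw [mul_comm, smul_eq_mul]
          exact Ideal.mul_mem_mul (Ideal.mem_span_singleton_self x) hz
        · exact absurd hz hxq'
      · rw [IsLocalRing.jacobson_eq_maximalIdeal _ bot_ne_top]
        rw [Ideal.span_singleton_le_iff_mem]; exact hx
    rw [hq0] at hqp
    exact IsDomain.of_bot_isPrime R

theorem isDomain {R : Type*} [CommRing R] [IsRegularLocalRing R] : IsDomain R :=
  isDomain_aux _ R le_rfl

lemma snd_eq_zero_of_sq {S κ : Type*} [CommRing S] [IsLocalRing S] [Field κ]
    (ψ : S →+* DualNumber κ) (hψ : ∀ s ∈ maximalIdeal S, (ψ s).fst = 0) {s : S}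
    (hs : s ∈ maximalIdeal S ^ 2) : (ψ s).snd = 0 := by
  rw [pow_two] at hs
  refine Submodule.mul_induction_on hs ?_ ?_
  · intro a ha b hb
    rw [map_mul, TrivSqZeroExt.snd_mul, hψ a ha, hψ b hb]
    simp
  · intro a b ha hb
    rw [map_add, TrivSqZeroExt.snd_add, ha, hb, add_zero]

/-- Jacobian criterion in triangular form, tangent vectors given as maps to dual numbers. -/
theorem reg_quot (r : ℕ) : ∀ (S κ : Type*) [CommRing S] [IsRegularLocalRing S] [Field κ]
    (F : Fin r → S) (ψ : Fin r → S →+* DualNumber κ)
    (_ : ∀ i, ∀ s ∈ maximalIdeal S, (ψ i s).fst = 0)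
    (_ : ∀ j, F j ∈ maximalIdeal S)
    (_ : ∀ i j, j < i → (ψ i (F j)).snd = 0)
    (_ : ∀ i, (ψ i (F i)).snd ≠ 0),
    IsRegularLocalRing (S ⧸ Ideal.span (Set.range F)) := by
  induction r with
  | zero =>
    intro S κ _ _ _ F ψ hψ hF h0 h1
    have : Ideal.span (Set.range F) = ⊥ := by simp
    exact IsRegularLocalRing.of_ringEquiv
      ((RingEquiv.quotientBot S).symm.trans (Ideal.quotEquivOfEq this.symm))
  | succ r ih =>
    intro S κ _ _ _ F ψ hψ hF h0 h1
    have hx2 : F 0 ∉ maximalIdeal S ^ 2 := fun h =>
      h1 0 (snd_eq_zero_of_sq (ψ 0) (hψ 0) h)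
    obtain ⟨hreg, -⟩ := quot_reg (hF 0) hx2
    let I : Ideal S := Ideal.span {F 0}
    have hk : ∀ i : Fin r, ∀ s ∈ I, ψ i.succ s = 0 := by
      intro i s hs
      obtain ⟨z, rfl⟩ := Ideal.mem_span_singleton'.1 hs
      have h2 : ψ i.succ (F 0) = 0 := by
        refine TrivSqZeroExt.ext ?_ ?_
        · exact hψ _ _ (hF 0)
        · exact h0 _ _ (Fin.succ_pos i)
      rw [map_mul, h2, mul_zero]
    let F' : Fin r → S ⧸ I := fun j => Ideal.Quotient.mk I (F j.succ)
    let ψ' : Fin r → S ⧸ I →+* DualNumber κ := fun i => Ideal.Quotient.lift I (ψ i.succ) (hk i)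
    have hlh : IsLocalHom (Ideal.Quotient.mk I) :=
      IsLocalHom.of_surjective _ Ideal.Quotient.mk_surjective
    have hm := IsLocalRing.maximalIdeal_comap (Ideal.Quotient.mk I)
    have hmem : ∀ s : S, Ideal.Quotient.mk I s ∈ maximalIdeal (S ⧸ I) ↔ s ∈ maximalIdeal S := by
      intro s
      rw [← hm, Ideal.mem_comap]
    have key := ih (S ⧸ I) κ F' ψ' (by
        intro i s hs
        obtain ⟨s, rfl⟩ := Ideal.Quotient.mk_surjective s
        rw [hmem] at hs
        exact hψ _ _ hs) (by
        intro j
        exact (hmem _).2 (hF _)) (by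
        intro i j hij
        exact h0 _ _ (Fin.succ_lt_succ_iff.2 hij)) (by
        intro i
        exact h1 _)
    have hspan : Ideal.span (Set.range F') =
        Ideal.map (Ideal.Quotient.mk I) (Ideal.span (Set.range fun j : Fin r => F j.succ)) := by
      rw [Ideal.map_span, ← Set.range_comp]
      rfl
    rw [hspan] at key
    refine IsRegularLocalRing.of_ringEquiv
      ((DoubleQuot.quotQuotEquivQuotSup I
        (Ideal.span (Set.range fun j : Fin r => F j.succ))).trans (Ideal.quotEquivOfEq ?_))
    rw [← Ideal.span_union]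
    congr 1
    ext s
    constructor
    · rintro (h | ⟨j, rfl⟩)
      · exact ⟨0, h.symm⟩
      · exact ⟨_, rfl⟩
    · rintro ⟨j, rfl⟩
      refine Fin.cases ?_ ?_ j
      · exact Or.inl rfl
      · intro j; exact Or.inr ⟨j, rfl⟩

end LU
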